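import Pool.Agent.W_bb4b37_h5.P.Cb

/-! # Second derivative test and Ahlfors lemma -/

set_option autoImplicit false

namespace Pool.Agent.BB4B37

open Complex Filter Topology Set MeasureTheory BoundedContinuousFunction
open scoped FourierTransform

/-- the iterated directional derivative in terms of the second Frechet derivative -/
theorem Ahl_dir2 {f : ℂ → ℝ} {z : ℂ} (hf : ContDiffAt ℝ 2 f z) (v : ℂ) :
    fderiv ℝ (fun w => fderiv ℝ f w v) z v = fderiv ℝ (fderiv ℝ f) z v v := by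
  have h1 : DifferentiableAt ℝ (fderiv ℝ f) z :=
    (hf.fderiv_right (m := 1) (by norm_num)).differentiableAt (by norm_num)
  rw [fderiv_clm_apply h1 (differentiableAt_const v)]
  simp

/-- one-dimensional second derivative test -/
theorem Ahl_snd_nonpos {g : ℝ → ℝ} (hg : ContinuousAt g 0) (h : IsLocalMax g 0) :
    deriv (deriv g) 0 ≤ 0 := by
  by_contra hcon
  push Not at hcon
  have h1 : IsLocalMin g 0 := isLocalMin_of_deriv_deriv_pos hcon h.deriv_eq_zero hg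
  have h2 : g =ᶠ[𝓝 0] fun _ => g 0 := by
    filter_upwards [h, h1] with t ht1 ht2 using le_antisymm ht1 ht2
  have h3 : deriv g =ᶠ[𝓝 0] fun _ => 0 := by
    have h4 := h2.deriv
    have h5 : deriv (fun _ : ℝ => g 0) = fun _ => 0 := by
      funext x
      exact deriv_const x _
    rwa [h5] at h4
  rw [h3.deriv_eq, deriv_const] at hcon
  exact lt_irrefl _ hcon

theorem Ahl_dir2_nonpos {f : ℂ → ℝ} {z : ℂ} (hf : ContDiffAt ℝ 2 f z) (h : IsLocalMax f z)
    (v : ℂ) : fderiv ℝ (fun w => fderiv ℝ f w v) z v ≤ 0 := by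
  have hl : HasDerivAt (fun t : ℝ => z + t • v) v 0 := by
    have h1 : HasDerivAt (fun t : ℝ => t • v) ((1 : ℝ) • v) 0 := (hasDerivAt_id (0 : ℝ)).smul_const v
    rw [one_smul] at h1
    exact h1.const_add z
  have hl' : ∀ t : ℝ, HasDerivAt (fun t : ℝ => z + t • v) v t := by
    intro t
    have h1 : HasDerivAt (fun t : ℝ => t • v) ((1 : ℝ) • v) t := (hasDerivAt_id t).smul_const v
    rw [one_smul] at h1
    exact h1.const_add z
  have hcont : Tendsto (fun t : ℝ => z + t • v) (𝓝 0) (𝓝 z) := by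
    have h1 := hl.continuousAt.tendsto
    simpa using h1
  have hdiff : ∀ᶠ w in 𝓝 z, DifferentiableAt ℝ f w := by
    have h1 : ∀ᶠ w in 𝓝 z, ContDiffAt ℝ 1 f w :=
      (hf.of_le (by norm_num)).eventually (by simp)
    filter_upwards [h1] with w hw using hw.differentiableAt (by norm_num)
  have hd1 : deriv (fun t : ℝ => f (z + t • v)) =ᶠ[𝓝 0] fun t => fderiv ℝ f (z + t • v) v := by
    filter_upwards [hcont.eventually hdiff] with t ht
    exact (ht.hasFDerivAt.comp_hasDerivAt t (hl' t)).deriv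
  have hd2 : deriv (fun t : ℝ => fderiv ℝ f (z + t • v) v) 0 =
      fderiv ℝ (fun w => fderiv ℝ f w v) z v := by
    have h1 : DifferentiableAt ℝ (fun w => fderiv ℝ f w v) z :=
      ((hf.fderiv_right (m := 1) (by norm_num)).differentiableAt (by norm_num)).clm_apply
        (differentiableAt_const v)
    have h2 : HasFDerivAt (fun w => fderiv ℝ f w v) (fderiv ℝ (fun w => fderiv ℝ f w v) z)
        (z + (0 : ℝ) • v) := by
      rw [zero_smul, add_zero]
      exact h1.hasFDerivAt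
    exact (h2.comp_hasDerivAt (0 : ℝ) hl).deriv
  have hg : IsLocalMax (fun t : ℝ => f (z + t • v)) 0 := by
    have h1 := hcont.eventually h
    filter_upwards [h1] with t ht
    simpa using ht
  have hgc : ContinuousAt (fun t : ℝ => f (z + t • v)) 0 := by
    have h1 : ContinuousAt f z := hf.continuousAt
    exact ContinuousAt.comp (by simpa using h1) hl.continuousAt
  have h3 := Ahl_snd_nonpos hgc hg
  rwa [hd1.deriv_eq, hd2] at h3

/-- second derivative test: at a local maximum of a `C²` function the Laplacian is `≤ 0` -/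
theorem lap_nonpos_of_localMax {f : ℂ → ℝ} {z : ℂ} (hf : ContDiffAt ℝ 2 f z) (h : IsLocalMax f z) :
    lap f z ≤ 0 := by
  have h1 := Ahl_dir2_nonpos hf h 1
  have h2 := Ahl_dir2_nonpos hf h I
  exact add_nonpos h1 h2

theorem Ahl_lap_add {f g : ℂ → ℝ} {z : ℂ} (hf : ContDiffAt ℝ 2 f z) (hg : ContDiffAt ℝ 2 g z) :
    lap (fun w => f w + g w) z = lap f z + lap g z := by
  have hdiff : ∀ {h : ℂ → ℝ}, ContDiffAt ℝ 2 h z → ∀ᶠ w in 𝓝 z, DifferentiableAt ℝ h w := by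
    intro h hh
    have h1 : ∀ᶠ w in 𝓝 z, ContDiffAt ℝ 1 h w :=
      (hh.of_le (by norm_num)).eventually (by simp)
    filter_upwards [h1] with w hw using hw.differentiableAt (by norm_num)
  have hd : ∀ {h : ℂ → ℝ}, ContDiffAt ℝ 2 h z → ∀ v : ℂ,
      DifferentiableAt ℝ (fun w => fderiv ℝ h w v) z := fun hh v =>
    ((hh.fderiv_right (m := 1) (by norm_num)).differentiableAt (by norm_num)).clm_apply
        (differentiableAt_const v)
  have key : ∀ v : ℂ, fderiv ℝ (fun w => fderiv ℝ (fun w => f w + g w) w v) z v =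
      fderiv ℝ (fun w => fderiv ℝ f w v) z v + fderiv ℝ (fun w => fderiv ℝ g w v) z v := by
    intro v
    have h1 : (fun w => fderiv ℝ (fun w => f w + g w) w v) =ᶠ[𝓝 z]
        fun w => fderiv ℝ f w v + fderiv ℝ g w v := by
      filter_upwards [hdiff hf, hdiff hg] with w hw1 hw2
      rw [fderiv_fun_add hw1 hw2]
      rfl
    rw [h1.fderiv_eq, fderiv_fun_add (hd hf v) (hd hg v)]
    rfl
  have h1 := key 1
  have h2 := key I
  show fderiv ℝ (fun w => fderiv ℝ (fun w => f w + g w) w 1) z 1 +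
      fderiv ℝ (fun w => fderiv ℝ (fun w => f w + g w) w I) z I = _
  rw [h1, h2]
  unfold lap px py
  ring

/-- Laplacian of `log (r² - |z - z₀|²)` -/
theorem Ahl_lap_log (z₀ z : ℂ) (r : ℝ) (hz : ‖z - z₀‖ < r) :
    ContDiffAt ℝ 2 (fun w : ℂ => Real.log (r ^ 2 - ‖w - z₀‖ ^ 2)) z ∧
      lap (fun w : ℂ => Real.log (r ^ 2 - ‖w - z₀‖ ^ 2)) z =
        -(4 * r ^ 2 / (r ^ 2 - ‖z - z₀‖ ^ 2) ^ 2) := by
  have hq : ∀ w : ℂ, ‖w - z₀‖ ^ 2 = (w.re - z₀.re) ^ 2 + (w.im - z₀.im) ^ 2 := by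
    intro w
    rw [← Complex.normSq_eq_norm_sq, Complex.normSq_apply, sub_re, sub_im]
    ring
  have hpos : ∀ w : ℂ, ‖w - z₀‖ < r → 0 < r ^ 2 - ‖w - z₀‖ ^ 2 := by
    intro w hw
    have h1 := norm_nonneg (w - z₀)
    nlinarith
  have hev : ∀ᶠ w in 𝓝 z, ‖w - z₀‖ < r :=
    ((continuous_id.sub continuous_const).norm.tendsto z).eventually (gt_mem_nhds hz)
  -- derivative of the inner function
  have hin : ∀ w : ℂ, HasFDerivAt (fun w : ℂ => r ^ 2 - ‖w - z₀‖ ^ 2)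
      (-((2 * (w.re - z₀.re)) • reCLM + (2 * (w.im - z₀.im)) • imCLM)) w := by
    intro w
    have h1 : HasFDerivAt (fun w : ℂ => w.re - z₀.re) reCLM w :=
      reCLM.hasFDerivAt.sub_const _
    have h2 : HasFDerivAt (fun w : ℂ => w.im - z₀.im) imCLM w :=
      imCLM.hasFDerivAt.sub_const _
    have h3 := (h1.pow 2).add (h2.pow 2)
    have h4 := h3.const_sub (r ^ 2)
    refine (h4.congr_of_eventuallyEq ?_).congr_fderiv ?_
    · filter_upwards with w
      simp only [Pi.add_apply]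
      rw [hq w]
    · ext
      all_goals simp
  have hlog : ∀ w : ℂ, ‖w - z₀‖ < r →
      HasFDerivAt (fun w : ℂ => Real.log (r ^ 2 - ‖w - z₀‖ ^ 2))
        ((r ^ 2 - ‖w - z₀‖ ^ 2)⁻¹ •
          (-((2 * (w.re - z₀.re)) • reCLM + (2 * (w.im - z₀.im)) • imCLM))) w :=
    fun w hw => (hin w).log (hpos w hw).ne'
  have hsm : ContDiffAt ℝ 2 (fun w : ℂ => Real.log (r ^ 2 - ‖w - z₀‖ ^ 2)) z := by
    have h1 : ContDiffAt ℝ 2 (fun w : ℂ => r ^ 2 - ‖w - z₀‖ ^ 2) z :=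
      ContDiffAt.sub contDiffAt_const ((contDiffAt_id.sub contDiffAt_const).norm_sq ℝ)
    exact h1.log (hpos z hz).ne'
  refine ⟨hsm, ?_⟩
  set Q : ℝ := r ^ 2 - ‖z - z₀‖ ^ 2 with hQ
  have hQ0 : Q ≠ 0 := (hpos z hz).ne'
  -- derivative in the direction 1
  have hx : fderiv ℝ (fun w => fderiv ℝ (fun w : ℂ => Real.log (r ^ 2 - ‖w - z₀‖ ^ 2)) w 1) z 1 =
      -(2 / Q) - (2 * (z.re - z₀.re)) ^ 2 / Q ^ 2 := by
    have h1 : (fun w => fderiv ℝ (fun w : ℂ => Real.log (r ^ 2 - ‖w - z₀‖ ^ 2)) w 1) =ᶠ[𝓝 z]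
        fun w => (r ^ 2 - ‖w - z₀‖ ^ 2)⁻¹ * (-(2 * (w.re - z₀.re))) := by
      filter_upwards [hev] with w hw
      rw [(hlog w hw).fderiv]
      simp
    rw [h1.fderiv_eq]
    have h2 : HasFDerivAt (fun w : ℂ => -(2 * (w.re - z₀.re))) (-((2 : ℝ) • reCLM)) z :=
      ((reCLM.hasFDerivAt.sub_const _).const_mul 2).neg
    have h3 := ((hasDerivAt_inv hQ0).comp_hasFDerivAt z (hin z)).mul h2
    rw [HasFDerivAt.fderiv (f := fun w : ℂ => (r ^ 2 - ‖w - z₀‖ ^ 2)⁻¹ * (-(2 * (w.re - z₀.re)))) h3]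
    simp only [_root_.add_apply, _root_.smul_apply,
      _root_.neg_apply, reCLM_apply, imCLM_apply, one_re, one_im, smul_eq_mul,
      Function.comp_apply]
    rw [← hQ]
    field_simp
    ring
  have hy : fderiv ℝ (fun w => fderiv ℝ (fun w : ℂ => Real.log (r ^ 2 - ‖w - z₀‖ ^ 2)) w I) z I =
      -(2 / Q) - (2 * (z.im - z₀.im)) ^ 2 / Q ^ 2 := by
    have h1 : (fun w => fderiv ℝ (fun w : ℂ => Real.log (r ^ 2 - ‖w - z₀‖ ^ 2)) w I) =ᶠ[𝓝 z]
        fun w => (r ^ 2 - ‖w - z₀‖ ^ 2)⁻¹ * (-(2 * (w.im - z₀.im))) := by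
      filter_upwards [hev] with w hw
      rw [(hlog w hw).fderiv]
      simp
    rw [h1.fderiv_eq]
    have h2 : HasFDerivAt (fun w : ℂ => -(2 * (w.im - z₀.im))) (-((2 : ℝ) • imCLM)) z :=
      ((imCLM.hasFDerivAt.sub_const _).const_mul 2).neg
    have h3 := ((hasDerivAt_inv hQ0).comp_hasFDerivAt z (hin z)).mul h2
    rw [HasFDerivAt.fderiv (f := fun w : ℂ => (r ^ 2 - ‖w - z₀‖ ^ 2)⁻¹ * (-(2 * (w.im - z₀.im)))) h3]
    simp only [_root_.add_apply, _root_.smul_apply,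
      _root_.neg_apply, reCLM_apply, imCLM_apply, I_re, I_im, smul_eq_mul,
      Function.comp_apply]
    rw [← hQ]
    field_simp
    ring
  show fderiv ℝ (fun w => fderiv ℝ (fun w : ℂ => Real.log (r ^ 2 - ‖w - z₀‖ ^ 2)) w 1) z 1 +
    fderiv ℝ (fun w => fderiv ℝ (fun w : ℂ => Real.log (r ^ 2 - ‖w - z₀‖ ^ 2)) w I) z I = _
  rw [hx, hy]
  have h5 : r ^ 2 = Q + ((z.re - z₀.re) ^ 2 + (z.im - z₀.im) ^ 2) := by
    rw [hQ, hq z]; ring
  rw [h5]
  field_simp
  ring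

/-- Ahlfors lemma with a small source: on a disk of radius `ρ ≤ 1` where `Δφ ≥ e^{2φ} - η`,
`η ≤ 1`, one has `φ(z₀) ≤ log (4/ρ)` -/
theorem ahlfors (φ : ℂ → ℝ) (z₀ : ℂ) (ρ η : ℝ) (hρ : 0 < ρ) (hρ1 : ρ ≤ 1) (hη : η ≤ 1)
    (hφ : ∀ z ∈ Metric.ball z₀ ρ, ContDiffAt ℝ 2 φ z)
    (h : ∀ z ∈ Metric.ball z₀ ρ, Real.exp (2 * φ z) - η ≤ lap φ z) :
    φ z₀ ≤ Real.log (4 / ρ) := by
  have key : ∀ r : ℝ, 0 < r → r < ρ → r * Real.exp (φ z₀) ≤ 4 := by
    intro r hr hrρ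
    have hsub : Metric.closedBall z₀ r ⊆ Metric.ball z₀ ρ := Metric.closedBall_subset_ball hrρ
    have hφc : ContinuousOn φ (Metric.closedBall z₀ r) := fun z hz =>
      (hφ z (hsub hz)).continuousAt.continuousWithinAt
    have hGc : ContinuousOn (fun z => Real.exp (φ z) * (r ^ 2 - ‖z - z₀‖ ^ 2))
        (Metric.closedBall z₀ r) :=
      (Real.continuous_exp.comp_continuousOn hφc).mul
        (by fun_prop)
    obtain ⟨zs, hzs, hmax⟩ := (isCompact_closedBall z₀ r).exists_isMaxOn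
      ⟨z₀, Metric.mem_closedBall_self hr.le⟩ hGc
    have hG0 : Real.exp (φ z₀) * r ^ 2 ≤ Real.exp (φ zs) * (r ^ 2 - ‖zs - z₀‖ ^ 2) := by
      have h1 : Real.exp (φ z₀) * (r ^ 2 - ‖z₀ - z₀‖ ^ 2) ≤
          Real.exp (φ zs) * (r ^ 2 - ‖zs - z₀‖ ^ 2) := hmax (Metric.mem_closedBall_self hr.le)
      simpa using h1
    have hpos0 : 0 < Real.exp (φ z₀) * r ^ 2 := by positivity
    have hzr : ‖zs - z₀‖ ≤ r := by
      rw [← dist_eq_norm]; exact hzs
    have hzlt : ‖zs - z₀‖ < r := by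
      rcases lt_or_eq_of_le hzr with h1 | h1
      · exact h1
      · rw [h1] at hG0
        simp at hG0
        nlinarith
    have hQpos : 0 < r ^ 2 - ‖zs - z₀‖ ^ 2 := by
      nlinarith [norm_nonneg (zs - z₀)]
    have hzball : zs ∈ Metric.ball z₀ ρ := hsub hzs
    obtain ⟨hLs, hLl⟩ := Ahl_lap_log z₀ zs r hzlt
    have hloc : IsLocalMax (fun z => φ z + Real.log (r ^ 2 - ‖z - z₀‖ ^ 2)) zs := by
      have hev : ∀ᶠ w in 𝓝 zs, ‖w - z₀‖ < r :=
        ((continuous_id.sub continuous_const).norm.tendsto zs).eventually (gt_mem_nhds hzlt)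
      filter_upwards [hev] with w hw
      have hwQ : 0 < r ^ 2 - ‖w - z₀‖ ^ 2 := by
        nlinarith [norm_nonneg (w - z₀)]
      have h1 : Real.exp (φ w) * (r ^ 2 - ‖w - z₀‖ ^ 2) ≤
          Real.exp (φ zs) * (r ^ 2 - ‖zs - z₀‖ ^ 2) := hmax (by
            rw [Metric.mem_closedBall, dist_eq_norm]; exact hw.le)
      have h2 := Real.log_le_log (by positivity) h1
      rwa [Real.log_mul (Real.exp_pos _).ne' hwQ.ne', Real.log_mul (Real.exp_pos _).ne' hQpos.ne',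
        Real.log_exp, Real.log_exp] at h2
    have hlap := lap_nonpos_of_localMax ((hφ zs hzball).add hLs) hloc
    rw [Ahl_lap_add (hφ zs hzball) hLs, hLl] at hlap
    have h3 := h zs hzball
    set Q : ℝ := r ^ 2 - ‖zs - z₀‖ ^ 2 with hQ
    have hQr : Q ≤ r ^ 2 := by
      rw [hQ]
      have := sq_nonneg ‖zs - z₀‖
      linarith
    -- `(e^φ Q)² ≤ 4 r² + η Q² ≤ 16 r²`
    have h4 : Real.exp (2 * φ zs) ≤ 4 * r ^ 2 / Q ^ 2 + η := by linarith
    have h5 : (Real.exp (φ zs) * Q) ^ 2 ≤ (4 * r) ^ 2 := by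
      have h6 : (Real.exp (φ zs) * Q) ^ 2 = Real.exp (2 * φ zs) * Q ^ 2 := by
        rw [mul_pow, ← Real.exp_nat_mul]
        norm_num
      rw [h6]
      calc Real.exp (2 * φ zs) * Q ^ 2 ≤ (4 * r ^ 2 / Q ^ 2 + η) * Q ^ 2 :=
            mul_le_mul_of_nonneg_right h4 (by positivity)
        _ = 4 * r ^ 2 + η * Q ^ 2 := by field_simp
        _ ≤ 4 * r ^ 2 + 1 * (r ^ 2) := by
            have h8 : r ^ 2 ≤ 1 := by nlinarith
            have h7 : Q ^ 2 ≤ r ^ 2 := by nlinarith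
            nlinarith [sq_nonneg Q]
        _ ≤ (4 * r) ^ 2 := by nlinarith
    have h6 : Real.exp (φ zs) * Q ≤ 4 * r := le_of_sq_le_sq h5 (by positivity)
    nlinarith
  have h1 : Real.exp (φ z₀) * ρ ≤ 4 := by
    by_contra hcon
    push Not at hcon
    have he := Real.exp_pos (φ z₀)
    have h2 : 4 / Real.exp (φ z₀) < ρ := by
      rw [div_lt_iff₀ he]
      linarith
    have h3 : 0 < 4 / Real.exp (φ z₀) := by positivity
    have h4 := key ((4 / Real.exp (φ z₀) + ρ) / 2) (by linarith) (by linarith)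
    have h5 : (4 / Real.exp (φ z₀) + ρ) / 2 * Real.exp (φ z₀) = (4 + Real.exp (φ z₀) * ρ) / 2 := by
      field_simp
      try ring
    linarith
  rw [Real.le_log_iff_exp_le (by positivity), le_div_iff₀ hρ]
  exact h1

end Pool.Agent.BB4B37
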