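import Pool.Agent.W_bb4b37_h5.P.Cb

/-! # Compactness -/

set_option autoImplicit false

namespace Pool.Agent.BB4B37

open Complex Filter Topology Set MeasureTheory BoundedContinuousFunction
open scoped FourierTransform

/-- compactness for locally bounded sequences of `C^{m+1}` functions -/
theorem arz (m : ℕ) (U : Set ℂ) (hU : IsOpen U) (f : ℕ → ℂ → ℝ)
    (h : ∀ K : Set ℂ, K ⊆ U → IsCompact K → ∃ (N : ℕ) (B : ℝ), ∀ n : ℕ, N ≤ n → ∀ z ∈ K,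
      ContDiffAt ℝ (m + 1 : ℕ) (f n) z ∧ ∀ j : ℕ, j ≤ m + 1 → ‖iteratedFDeriv ℝ j (f n) z‖ ≤ B) :
    ∃ θ : ℕ → ℕ, StrictMono θ ∧ ∃ g : ℂ → ℝ, ContDiffOn ℝ m g U ∧ ∀ j : ℕ, j ≤ m → ∀ z ∈ U,
      Tendsto (fun n => iteratedFDeriv ℝ j (f (θ n)) z) atTop (𝓝 (iteratedFDeriv ℝ j g z)) := by
  sorry

end Pool.Agent.BB4B37
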