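import Pool.Agent.W_bb4b37_h5.Defs

/-! # Classes of functions with bounded derivatives -/

set_option autoImplicit false

namespace Pool.Agent.BB4B37

open Complex Filter Topology Set MeasureTheory BoundedContinuousFunction
open scoped FourierTransform

/-- `C^m` with bounded derivatives up to order `m` -/
def CbN {F : Type*} [NormedAddCommGroup F] [NormedSpace ℝ F] (m : ℕ) (f : ℂ → F) : Prop :=
  ContDiff ℝ m f ∧ ∀ i : ℕ, i ≤ m → ∃ B : ℝ, ∀ z, ‖iteratedFDeriv ℝ i f z‖ ≤ B

/-- smooth with all derivatives bounded -/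
def Cbf {F : Type*} [NormedAddCommGroup F] [NormedSpace ℝ F] (f : ℂ → F) : Prop :=
  ∀ m : ℕ, CbN m f

end Pool.Agent.BB4B37
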