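import Pool.Agent.W_bb4b37_h5.P.Ct
import Pool.Agent.W_bb4b37_h5.P.Cb

/-! # Bounded geometry -/

set_option autoImplicit false

namespace Pool.Agent.BB4B37

open Complex Filter Topology Set MeasureTheory BoundedContinuousFunction
open scoped FourierTransform

/-- scale invariant derivative bounds of the conformal factor `e^{2φ}` -/
structure BG (C : ℕ → ℝ) (φ : ℂ → ℝ) : Prop where
  smooth : ∀ n : ℕ, ContDiff ℝ n φ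
  bound : ∀ (j : ℕ), 1 ≤ j → ∀ z, ‖iteratedFDeriv ℝ j φ z‖ ≤ C j * Real.exp (j * φ z)

/-- radius of the chart at `z₀` -/
noncomputable def rad (θ : ℝ) (φ : ℂ → ℝ) (z₀ : ℂ) : ℝ := θ * Real.exp (-φ z₀)

/-- `f` in the chart at `z₀`, cut off by `η` -/
noncomputable def cht (θ : ℝ) (φ : ℂ → ℝ) (z₀ : ℂ) (η f : ℂ → ℂ) : ℂ → ℂ :=
  fun ζ => η ζ * f (z₀ + (rad θ φ z₀ : ℂ) * ζ)

/-- the uniformly local norm of `f` is `≤ A` -/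
def XB (k : ℕ) (θ : ℝ) (φ : ℂ → ℝ) (f : ℂ → ℂ) (A : ℝ) : Prop :=
  ∀ z₀, wn k (cht θ φ z₀ (ctf 1 2) f) ≤ A

/-- smallness of the chart parameter -/
def ThetaOK (C : ℕ → ℝ) (θ : ℝ) : Prop := 0 < θ ∧ θ ≤ 1 ∧ 100 * θ * C 1 ≤ 1

theorem bg_scale {C : ℕ → ℝ} {φ : ℂ → ℝ} (hφ : BG C φ) {θ : ℝ} (hθ : ThetaOK C θ) (z₀ z : ℂ)
    (h : ‖z - z₀‖ ≤ 10 * rad θ φ z₀) :
    |Real.exp (-φ z) - Real.exp (-φ z₀)| ≤ Real.exp (-φ z₀) / 10 ∧ |φ z - φ z₀| ≤ 1 / 5 := by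
  sorry

/-- derivatives of powers of the density in a chart -/
theorem bg_weight (C : ℕ → ℝ) (a : ℝ) (j : ℕ) : ∃ D : ℝ, 0 < D ∧ ∀ (φ : ℂ → ℝ) (θ : ℝ), BG C φ →
    ThetaOK C θ → ∀ z₀ ζ : ℂ, ‖ζ‖ ≤ 10 →
    ‖iteratedFDeriv ℝ j (fun ζ : ℂ =>
      ((Real.exp (a * (φ (z₀ + (rad θ φ z₀ : ℂ) * ζ) - φ z₀)) : ℝ) : ℂ)) ζ‖ ≤ D := by
  sorry

end Pool.Agent.BB4B37
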