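import Pool.Agent.W_bb4b37_h5.P.Cb

/-! # Penalty functions -/

set_option autoImplicit false

namespace Pool.Agent.BB4B37

open Complex Filter Topology Set MeasureTheory BoundedContinuousFunction
open scoped FourierTransform

/-- the properties of the penalty function used below -/
structure Pen (Cω : ℕ → ℝ) (E : Set ℂ) (δ : ℝ) (ω : ℂ → ℝ) : Prop where
  smooth : ∀ n : ℕ, ContDiff ℝ n ω
  range : ∀ z, 0 ≤ ω z ∧ ω z ≤ 1
  inner : ∀ z, Metric.infDist z E ≤ δ → ω z = 1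
  outer : ∀ z, 2 * δ ≤ Metric.infDist z E → ω z = 0
  bound : ∀ (j : ℕ) (z : ℂ), ‖iteratedFDeriv ℝ j ω z‖ * δ ^ j ≤ Cω j

/-- smooth penalty functions -/
theorem pen_exists : ∃ Cω : ℕ → ℝ, ∀ E : Set ℂ, IsClosed E → E.Nonempty → ∀ δ : ℝ, 0 < δ →
    ∃ ω : ℂ → ℝ, Pen Cω E δ ω := by
  sorry

end Pool.Agent.BB4B37
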