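import Pool.Agent.W_bb4b37_h5.P.Ct

/-! # Energy estimate -/

set_option autoImplicit false

namespace Pool.Agent.BB4B37

open Complex Filter Topology Set MeasureTheory BoundedContinuousFunction
open scoped FourierTransform

theorem Cacc_contDiff_px {F : Type*} [NormedAddCommGroup F] [NormedSpace ℝ F] {f : ℂ → F}
    {n : ℕ} (hf : ContDiff ℝ (n + 1 : ℕ) f) (v : ℂ) :
    ContDiff ℝ n (fun z => fderiv ℝ f z v) := by
  have h1 : ContDiff ℝ n (fderiv ℝ f) := hf.fderiv_right (by norm_cast)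
  exact h1.clm_apply contDiff_const

/-- two integrations by parts in the direction `v` -/
theorem Cacc_parts {η G : ℂ → ℝ} (hη : ContDiff ℝ (2 : ℕ) η) (hs : HasCompactSupport η)
    (hG : ContDiff ℝ (2 : ℕ) G) (v : ℂ) :
    ∫ z, η z * fderiv ℝ (fun w => fderiv ℝ G w v) z v =
      ∫ z, fderiv ℝ (fun w => fderiv ℝ η w v) z v * G z := by
  have hη1 : ContDiff ℝ (1 : ℕ) (fun w => fderiv ℝ η w v) := Cacc_contDiff_px hη v
  have hG1 : ContDiff ℝ (1 : ℕ) (fun w => fderiv ℝ G w v) := Cacc_contDiff_px hG v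
  have hη2 : ContDiff ℝ (0 : ℕ) (fun z => fderiv ℝ (fun w => fderiv ℝ η w v) z v) :=
    Cacc_contDiff_px hη1 v
  have hG2 : ContDiff ℝ (0 : ℕ) (fun z => fderiv ℝ (fun w => fderiv ℝ G w v) z v) :=
    Cacc_contDiff_px hG1 v
  have hs1 : HasCompactSupport (fun w => fderiv ℝ η w v) := hs.fderiv_apply ℝ v
  have hs2 : HasCompactSupport (fun z => fderiv ℝ (fun w => fderiv ℝ η w v) z v) :=
    hs1.fderiv_apply ℝ v
  have e1 := integral_mul_fderiv_eq_neg_fderiv_mul_of_integrable (μ := (volume : Measure ℂ))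
    (f := η) (g := fun w => fderiv ℝ G w v) (v := v)
    ((hη1.continuous.mul hG1.continuous).integrable_of_hasCompactSupport hs1.mul_right)
    ((hη.continuous.mul hG2.continuous).integrable_of_hasCompactSupport hs.mul_right)
    ((hη.continuous.mul hG1.continuous).integrable_of_hasCompactSupport hs.mul_right)
    (fun x _ => (hη.differentiable (by norm_num)).differentiableAt)
    (fun x _ => (hG1.differentiable (by norm_num)).differentiableAt)
  have e2 := integral_mul_fderiv_eq_neg_fderiv_mul_of_integrable (μ := (volume : Measure ℂ))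
    (f := fun w => fderiv ℝ η w v) (g := G) (v := v)
    ((hη2.continuous.mul hG.continuous).integrable_of_hasCompactSupport hs2.mul_right)
    ((hη1.continuous.mul hG1.continuous).integrable_of_hasCompactSupport hs1.mul_right)
    ((hη1.continuous.mul hG.continuous).integrable_of_hasCompactSupport hs1.mul_right)
    (fun x _ => (hη1.differentiable (by norm_num)).differentiableAt)
    (fun x _ => (hG.differentiable (by norm_num)).differentiableAt)
  rw [e1, e2, neg_neg]

/-- second derivative of the squared norm in the direction `v` -/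
theorem Cacc_sq {U : ℂ → ℂ} (hU : ContDiff ℝ (2 : ℕ) U) (v z : ℂ) :
    fderiv ℝ (fun w => fderiv ℝ (fun x => ‖U x‖ ^ 2) w v) z v =
      2 * ‖fderiv ℝ U z v‖ ^ 2 + 2 * inner ℝ (U z) (fderiv ℝ (fun w => fderiv ℝ U w v) z v) := by
  have hd : Differentiable ℝ U := hU.differentiable (by norm_num)
  have hU1 : ContDiff ℝ (1 : ℕ) (fun w => fderiv ℝ U w v) := Cacc_contDiff_px hU v
  have hd1 : Differentiable ℝ (fun w => fderiv ℝ U w v) := hU1.differentiable (by norm_num)
  have e0 : (fun x => ‖U x‖ ^ 2) = fun x => inner ℝ (U x) (U x) := by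
    funext x
    rw [real_inner_self_eq_norm_sq]
  have e1 : (fun w => fderiv ℝ (fun x => ‖U x‖ ^ 2) w v) =
      fun w => 2 * inner ℝ (U w) (fderiv ℝ U w v) := by
    funext w
    rw [e0, fderiv_inner_apply ℝ hd.differentiableAt hd.differentiableAt,
      real_inner_comm (U w) (fderiv ℝ U w v)]
    ring
  rw [e1, fderiv_const_mul (hd.differentiableAt.inner ℝ hd1.differentiableAt)]
  rw [ContinuousLinearMap.smul_apply,
    fderiv_inner_apply ℝ hd.differentiableAt hd1.differentiableAt, real_inner_self_eq_norm_sq]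
  simp only [smul_eq_mul]
  ring

/-- energy estimate (Caccioppoli) -/
theorem caccio (a b : ℝ) (ha : 0 < a) (hab : a < b) : ∃ C : ℝ, 0 < C ∧
    ∀ (U : ℂ → ℂ) (m m' : ℝ), (∀ n : ℕ, ContDiff ℝ n U) → (∀ z, ‖z‖ ≤ b → ‖U z‖ ≤ m) →
    (∀ z, ‖z‖ ≤ b → ‖lapc U z‖ ≤ m') →
    ∫ z in Metric.closedBall (0 : ℂ) a, (‖px U z‖ ^ 2 + ‖py U z‖ ^ 2) ≤ C * (m ^ 2 + m' ^ 2) := by
  obtain ⟨f, hf⟩ : ∃ f : ContDiffBump (0 : ℂ), f = ⟨a, b, ha, hab⟩ := ⟨_, rfl⟩
  obtain ⟨η, hη⟩ : ∃ η : ℂ → ℝ, η = fun z => f z := ⟨_, rfl⟩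
  have hηc : ContDiff ℝ (2 : ℕ) η := by rw [hη]; exact f.contDiff
  have hηs : HasCompactSupport η := by rw [hη]; exact f.hasCompactSupport
  have hη0 : ∀ z, 0 ≤ η z := fun z => by rw [hη]; exact f.nonneg
  have hη1 : ∀ z, z ∈ Metric.closedBall (0 : ℂ) a → η z = 1 := fun z hz => by
    rw [hη]
    exact f.one_of_mem_closedBall (by rw [hf]; exact hz)
  have hts : tsupport η ⊆ Metric.closedBall (0 : ℂ) b := by
    rw [hη]
    have h1 := f.tsupport_eq
    rw [hf] at h1 ⊢
    exact h1.le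
  -- the Laplacian of the cut-off
  obtain ⟨κ, hκ⟩ : ∃ κ : ℂ → ℝ, κ = fun z => px (px η) z + py (py η) z := ⟨_, rfl⟩
  have hηx : ContDiff ℝ (1 : ℕ) (px η) := Cacc_contDiff_px hηc 1
  have hηy : ContDiff ℝ (1 : ℕ) (py η) := Cacc_contDiff_px hηc I
  have hηxx : ContDiff ℝ (0 : ℕ) (px (px η)) := Cacc_contDiff_px hηx 1
  have hηyy : ContDiff ℝ (0 : ℕ) (py (py η)) := Cacc_contDiff_px hηy I
  have hsx : HasCompactSupport (px η) := hηs.fderiv_apply ℝ 1
  have hsy : HasCompactSupport (py η) := hηs.fderiv_apply ℝ I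
  have hsxx : HasCompactSupport (px (px η)) := hsx.fderiv_apply ℝ 1
  have hsyy : HasCompactSupport (py (py η)) := hsy.fderiv_apply ℝ I
  have hκc : Continuous κ := by rw [hκ]; exact hηxx.continuous.add hηyy.continuous
  have hκs : HasCompactSupport κ := by rw [hκ]; exact hsxx.add hsyy
  have hκ0 : ∀ z, ¬ ‖z‖ ≤ b → κ z = 0 := by
    intro z hz
    have h1 : z ∉ tsupport η := fun h => hz (by simpa using hts h)
    have h2 : η =ᶠ[𝓝 z] 0 := notMem_tsupport_iff_eventuallyEq.1 h1
    have h3 : px η =ᶠ[𝓝 z] 0 := by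
      filter_upwards [h2.eventuallyEq_nhds] with w hw
      show fderiv ℝ η w 1 = 0
      rw [hw.fderiv_eq]
      simp
    have h4 : py η =ᶠ[𝓝 z] 0 := by
      filter_upwards [h2.eventuallyEq_nhds] with w hw
      show fderiv ℝ η w I = 0
      rw [hw.fderiv_eq]
      simp
    rw [hκ]
    show fderiv ℝ (px η) z 1 + fderiv ℝ (py η) z I = 0
    rw [h3.fderiv_eq, h4.fderiv_eq]
    simp
  have hκi : Integrable (fun z => |κ z|) := (hκc.abs).integrable_of_hasCompactSupport hκs.abs
  have hηi : Integrable η := hηc.continuous.integrable_of_hasCompactSupport hηs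
  have hA : 0 ≤ ∫ z, |κ z| := integral_nonneg fun z => abs_nonneg _
  have hB : 0 ≤ ∫ z, η z := integral_nonneg hη0
  refine ⟨(∫ z, |κ z|) + (∫ z, η z) + 1, by positivity, ?_⟩
  intro U m m' hU hUm hUl
  have hU2 : ContDiff ℝ (2 : ℕ) U := hU 2
  have hm : 0 ≤ m := (norm_nonneg _).trans (hUm 0 (by rw [norm_zero]; linarith))
  have hm' : 0 ≤ m' := (norm_nonneg _).trans (hUl 0 (by rw [norm_zero]; linarith))
  have hG : ContDiff ℝ (2 : ℕ) (fun z => ‖U z‖ ^ 2) := hU2.norm_sq ℝ
  have hUx : ContDiff ℝ (1 : ℕ) (px U) := Cacc_contDiff_px hU2 1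
  have hUy : ContDiff ℝ (1 : ℕ) (py U) := Cacc_contDiff_px hU2 I
  have hUxx : ContDiff ℝ (0 : ℕ) (px (px U)) := Cacc_contDiff_px hUx 1
  have hUyy : ContDiff ℝ (0 : ℕ) (py (py U)) := Cacc_contDiff_px hUy I
  have hlc : Continuous (lapc U) := hUxx.continuous.add hUyy.continuous
  have p1 := Cacc_parts hηc hηs hG 1
  have p2 := Cacc_parts hηc hηs hG I
  have q1 : ∀ z, fderiv ℝ (fun w => fderiv ℝ (fun x => ‖U x‖ ^ 2) w 1) z 1 =
      2 * ‖px U z‖ ^ 2 + 2 * inner ℝ (U z) (px (px U) z) := fun z => Cacc_sq hU2 1 z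
  have q2 : ∀ z, fderiv ℝ (fun w => fderiv ℝ (fun x => ‖U x‖ ^ 2) w I) z I =
      2 * ‖py U z‖ ^ 2 + 2 * inner ℝ (U z) (py (py U) z) := fun z => Cacc_sq hU2 I z
  simp only [q1] at p1
  simp only [q2] at p2
  -- integrability
  have i1 : Integrable fun z => η z * (2 * ‖px U z‖ ^ 2 + 2 * inner ℝ (U z) (px (px U) z)) := by
    apply Continuous.integrable_of_hasCompactSupport _ hηs.mul_right
    have c1 := hUx.continuous
    have c2 := hUxx.continuous
    have c3 := hU2.continuous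
    have c4 := hηc.continuous
    fun_prop
  have i2 : Integrable fun z => η z * (2 * ‖py U z‖ ^ 2 + 2 * inner ℝ (U z) (py (py U) z)) := by
    apply Continuous.integrable_of_hasCompactSupport _ hηs.mul_right
    have c1 := hUy.continuous
    have c2 := hUyy.continuous
    have c3 := hU2.continuous
    have c4 := hηc.continuous
    fun_prop
  have i3 : Integrable fun z => η z * (‖px U z‖ ^ 2 + ‖py U z‖ ^ 2) := by
    apply Continuous.integrable_of_hasCompactSupport _ hηs.mul_right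
    have c1 := hUy.continuous
    have c2 := hUx.continuous
    have c4 := hηc.continuous
    fun_prop
  have i4 : Integrable fun z => η z * inner ℝ (U z) (lapc U z) := by
    apply Continuous.integrable_of_hasCompactSupport _ hηs.mul_right
    have c3 := hU2.continuous
    have c4 := hηc.continuous
    fun_prop
  have i5 : Integrable fun z => px (px η) z * ‖U z‖ ^ 2 := by
    apply Continuous.integrable_of_hasCompactSupport _ hsxx.mul_right
    have c3 := hU2.continuous
    have c4 := hηxx.continuous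
    fun_prop
  have i6 : Integrable fun z => py (py η) z * ‖U z‖ ^ 2 := by
    apply Continuous.integrable_of_hasCompactSupport _ hsyy.mul_right
    have c3 := hU2.continuous
    have c4 := hηyy.continuous
    fun_prop
  have e1 : ∫ z, 2 * (η z * (‖px U z‖ ^ 2 + ‖py U z‖ ^ 2)) + 2 * (η z * inner ℝ (U z) (lapc U z)) =
      ∫ z, κ z * ‖U z‖ ^ 2 := by
    have h1 : ∀ z, 2 * (η z * (‖px U z‖ ^ 2 + ‖py U z‖ ^ 2)) +
        2 * (η z * inner ℝ (U z) (lapc U z)) =
        η z * (2 * ‖px U z‖ ^ 2 + 2 * inner ℝ (U z) (px (px U) z)) +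
        η z * (2 * ‖py U z‖ ^ 2 + 2 * inner ℝ (U z) (py (py U) z)) := by
      intro z
      rw [lapc, inner_add_right]
      ring
    have h2 : ∀ z, κ z * ‖U z‖ ^ 2 = px (px η) z * ‖U z‖ ^ 2 + py (py η) z * ‖U z‖ ^ 2 := by
      intro z
      rw [hκ]
      ring
    simp only [h1, h2]
    rw [integral_add i1 i2, integral_add i5 i6, p1, p2]
    rfl
  rw [integral_add (i3.const_mul 2) (i4.const_mul 2), integral_const_mul, integral_const_mul] at e1
  have b1 : ∫ z, κ z * ‖U z‖ ^ 2 ≤ (∫ z, |κ z|) * m ^ 2 := by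
    rw [← integral_mul_const]
    refine integral_mono ?_ (hκi.mul_const _) ?_
    · apply Continuous.integrable_of_hasCompactSupport _ hκs.mul_right
      have c3 := hU2.continuous
      fun_prop
    · intro z
      show κ z * ‖U z‖ ^ 2 ≤ |κ z| * m ^ 2
      by_cases hz : ‖z‖ ≤ b
      · calc κ z * ‖U z‖ ^ 2 ≤ |κ z| * ‖U z‖ ^ 2 :=
              mul_le_mul_of_nonneg_right (le_abs_self _) (sq_nonneg _)
          _ ≤ |κ z| * m ^ 2 := mul_le_mul_of_nonneg_left
              (pow_le_pow_left₀ (norm_nonneg _) (hUm z hz) 2) (abs_nonneg _)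
      · rw [hκ0 z hz, abs_zero, zero_mul, zero_mul]
  have b2 : -(∫ z, η z) * (m * m') ≤ ∫ z, η z * inner ℝ (U z) (lapc U z) := by
    rw [neg_mul, ← integral_mul_const, ← integral_neg]
    refine integral_mono (hηi.mul_const _).neg i4 ?_
    intro z
    show -(η z * (m * m')) ≤ η z * inner ℝ (U z) (lapc U z)
    by_cases hz : ‖z‖ ≤ b
    · have h1 : -(m * m') ≤ inner ℝ (U z) (lapc U z) := by
        have h2 := abs_real_inner_le_norm (U z) (lapc U z)
        have h3 : ‖U z‖ * ‖lapc U z‖ ≤ m * m' :=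
          mul_le_mul (hUm z hz) (hUl z hz) (norm_nonneg _) hm
        have h4 := neg_abs_le (inner ℝ (U z) (lapc U z))
        linarith
      have h2 := mul_le_mul_of_nonneg_left h1 (hη0 z)
      linarith
    · have h1 : η z = 0 := by
        by_contra hne
        exact hz (by simpa using hts (subset_tsupport η hne))
      rw [h1]
      simp
  have b3 : ∫ z in Metric.closedBall (0 : ℂ) a, (‖px U z‖ ^ 2 + ‖py U z‖ ^ 2) ≤
      ∫ z, η z * (‖px U z‖ ^ 2 + ‖py U z‖ ^ 2) := by
    rw [← integral_indicator measurableSet_closedBall]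
    refine integral_mono_of_nonneg ?_ i3 ?_
    · refine Filter.Eventually.of_forall fun z => ?_
      exact indicator_nonneg (fun z _ => by positivity) z
    · refine Filter.Eventually.of_forall fun z => ?_
      show (Metric.closedBall (0 : ℂ) a).indicator _ z ≤ η z * (‖px U z‖ ^ 2 + ‖py U z‖ ^ 2)
      by_cases hz : z ∈ Metric.closedBall (0 : ℂ) a
      · rw [indicator_of_mem hz, hη1 z hz, one_mul]
      · rw [indicator_of_notMem hz]
        exact mul_nonneg (hη0 z) (by positivity)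
  have b4 : 2 * (m * m') ≤ m ^ 2 + m' ^ 2 := by nlinarith [sq_nonneg (m - m')]
  have b5 : (∫ z, η z) * (2 * (m * m')) ≤ (∫ z, η z) * (m ^ 2 + m' ^ 2) :=
    mul_le_mul_of_nonneg_left b4 hB
  have b6 : (∫ z, |κ z|) * m ^ 2 ≤ (∫ z, |κ z|) * (m ^ 2 + m' ^ 2) :=
    mul_le_mul_of_nonneg_left (by nlinarith [sq_nonneg m']) hA
  have b7 : 0 ≤ (∫ z, η z) * (m ^ 2 + m' ^ 2) := mul_nonneg hB (by positivity)
  have b8 : 0 ≤ (∫ z, |κ z|) * (m ^ 2 + m' ^ 2) := mul_nonneg hA (by positivity)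
  have b9 : 0 ≤ m ^ 2 + m' ^ 2 := by positivity
  linarith

end Pool.Agent.BB4B37
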