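import Pool.Agent.W_bb4b37_h5.P.Res

/-! # Linear equation on the plane -/

set_option autoImplicit false

namespace Pool.Agent.BB4B37

open Complex Filter Topology Set MeasureTheory BoundedContinuousFunction
open scoped FourierTransform

/-- linear equation -/
theorem lin_solve (V g : ℂ → ℝ) (hV : Cbf V) (hg : Cbf g) (v₀ : ℝ) (hv : 0 < v₀)
    (hV0 : ∀ z, v₀ ≤ V z) : ∃ u : ℂ → ℝ, Cbf u ∧ (∀ z, lap u z = V z * u z + g z) ∧
      ∀ m : ℝ, (∀ z, |g z| ≤ m * V z) → ∀ z, |u z| ≤ m := by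
  sorry

end Pool.Agent.BB4B37
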