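import Pool.Agent.W_bb4b37_h5.P.Step

/-! # Local linear estimate -/

set_option autoImplicit false

namespace Pool.Agent.BB4B37

open Complex Filter Topology Set MeasureTheory BoundedContinuousFunction
open scoped FourierTransform

/-- local linear estimate -/
theorem loclin (k : ℕ) (Ca : ℕ → ℝ) : ∃ C : ℝ, 0 < C ∧ ∀ (U a G : ℂ → ℂ) (m m' : ℝ),
    (∀ n : ℕ, ContDiff ℝ n U) → (∀ n : ℕ, ContDiff ℝ n a) → (∀ n : ℕ, ContDiff ℝ n G) →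
    (∀ z, ‖z‖ ≤ 3 → ‖U z‖ ≤ m) →
    (∀ (j : ℕ) (z : ℂ), ‖z‖ ≤ 3 → ‖iteratedFDeriv ℝ j a z‖ ≤ Ca j) →
    (∀ z, ‖z‖ ≤ 3 → lapc U z = a z * U z + G z) →
    wn k (fun z => ctf 3 6 z * G z) ≤ m' →
    wn (k + 2) (fun z => ctf 1 2 z * U z) ≤ C * (m + m') := by
  sorry

end Pool.Agent.BB4B37
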