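import Pool.Agent.W_bb4b37_h5.P.Xb
import Pool.Agent.W_bb4b37_h5.P.Loclin

/-! # Pointwise bounds and the linear estimate -/

set_option autoImplicit false

namespace Pool.Agent.BB4B37

open Complex Filter Topology Set MeasureTheory BoundedContinuousFunction
open scoped FourierTransform

/-- pointwise bounds from the norm -/
theorem xb_point (j : ℕ) (C : ℕ → ℝ) (θ : ℝ) (hθ : ThetaOK C θ) : ∃ D : ℝ, 0 < D ∧
    ∀ φ : ℂ → ℝ, BG C φ → ∀ (f : ℂ → ℂ) (A : ℝ), (∀ n : ℕ, ContDiff ℝ n f) → XB j θ φ f A →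
    ∀ z, ‖iteratedFDeriv ℝ j f z‖ ≤ D * A * Real.exp (j * φ z) := by
  sorry

/-- the linear estimate -/
theorem xb_lin (k : ℕ) (C : ℕ → ℝ) (θ : ℝ) (hθ : ThetaOK C θ) : ∃ D : ℝ, 0 < D ∧
    ∀ φ : ℂ → ℝ, BG C φ → ∀ (u f : ℂ → ℝ) (A : ℝ), (∀ n : ℕ, ContDiff ℝ n u) →
    (∀ n : ℕ, ContDiff ℝ n f) →
    (∀ z, lap u z = 2 * Real.exp (2 * φ z) * u z + Real.exp (2 * φ z) * f z) →
    (∀ z, |u z| ≤ A) → XB k θ φ (cx f) A → XB (k + 2) θ φ (cx u) (D * A) := by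
  sorry

end Pool.Agent.BB4B37
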