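import Pool.Agent.W_bb4b37_h5.P.Nlip
import Pool.Agent.W_bb4b37_h5.P.Xl
import Pool.Agent.W_bb4b37_h5.P.LinS

/-! # The contraction -/

set_option autoImplicit false

namespace Pool.Agent.BB4B37

open Complex Filter Topology Set MeasureTheory BoundedContinuousFunction
open scoped FourierTransform

/-! ### closure properties of `Cbf` for real functions -/

private theorem Contr_cbf_add {f g : ℂ → ℝ} (hf : Cbf f) (hg : Cbf g) :
    Cbf (fun z => f z + g z) := by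
  intro m
  refine ⟨(hf m).1.add (hg m).1, fun i hi => ?_⟩
  obtain ⟨B, hB⟩ := (hf m).2 i hi
  obtain ⟨B', hB'⟩ := (hg m).2 i hi
  refine ⟨B + B', fun z => ?_⟩
  have h1 : ContDiff ℝ i f := (hf i).1
  have h2 : ContDiff ℝ i g := (hg i).1
  have : iteratedFDeriv ℝ i (fun z => f z + g z) z =
      iteratedFDeriv ℝ i f z + iteratedFDeriv ℝ i g z :=
    iteratedFDeriv_add_apply h1.contDiffAt h2.contDiffAt
  rw [this]
  exact (norm_add_le _ _).trans (add_le_add (hB z) (hB' z))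

private theorem Contr_cbf_neg {f : ℂ → ℝ} (hf : Cbf f) : Cbf (fun z => - f z) := by
  intro m
  refine ⟨(hf m).1.neg, fun i hi => ?_⟩
  obtain ⟨B, hB⟩ := (hf m).2 i hi
  refine ⟨B, fun z => ?_⟩
  have : iteratedFDeriv ℝ i (fun z => - f z) z = - iteratedFDeriv ℝ i f z :=
    iteratedFDeriv_neg_apply
  rw [this, norm_neg]
  exact hB z

private theorem Contr_cbf_sub {f g : ℂ → ℝ} (hf : Cbf f) (hg : Cbf g) :
    Cbf (fun z => f z - g z) := by
  have := Contr_cbf_add hf (Contr_cbf_neg hg)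
  simpa [sub_eq_add_neg] using this

private theorem Contr_cbf_const (c : ℝ) : Cbf (fun _ : ℂ => c) := by
  intro m
  refine ⟨contDiff_const, fun i _ => ?_⟩
  refine ⟨‖c‖, fun z => ?_⟩
  rcases Nat.eq_zero_or_pos i with h | h
  · subst h
    simp
  · rw [iteratedFDeriv_const_of_ne (by omega)]
    simp

private theorem Contr_cbf_mul {f g : ℂ → ℝ} (hf : Cbf f) (hg : Cbf g) :
    Cbf (fun z => f z * g z) := by
  intro m
  refine ⟨(hf m).1.mul (hg m).1, fun i hi => ?_⟩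
  have h1 : ∀ j : ℕ, ∃ B : ℝ, 0 ≤ B ∧ ∀ z, ‖iteratedFDeriv ℝ j f z‖ ≤ B := fun j => by
    obtain ⟨B, hB⟩ := (hf j).2 j le_rfl
    exact ⟨B, (norm_nonneg _).trans (hB 0), hB⟩
  have h2 : ∀ j : ℕ, ∃ B : ℝ, 0 ≤ B ∧ ∀ z, ‖iteratedFDeriv ℝ j g z‖ ≤ B := fun j => by
    obtain ⟨B, hB⟩ := (hg j).2 j le_rfl
    exact ⟨B, (norm_nonneg _).trans (hB 0), hB⟩
  choose B hB0 hB using h1
  choose B' hB0' hB' using h2
  refine ⟨∑ j ∈ Finset.range (i + 1), (i.choose j : ℝ) * B j * B' (i - j), fun z => ?_⟩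
  refine (norm_iteratedFDeriv_mul_le (n := i) ((hf i).1) ((hg i).1) z le_rfl).trans ?_
  refine Finset.sum_le_sum fun j _ => ?_
  have hc : (0 : ℝ) ≤ (i.choose j : ℝ) := by positivity
  exact mul_le_mul (mul_le_mul_of_nonneg_left (hB j z) hc) (hB' _ z) (norm_nonneg _)
    (mul_nonneg hc (hB0 j))

private theorem Contr_cbf_exp {f : ℂ → ℝ} (hf : Cbf f) : Cbf (fun z => Real.exp (f z)) := by
  intro m
  refine ⟨(hf m).1.exp, fun i hi => ?_⟩
  have h1 : ∀ j : ℕ, ∃ B : ℝ, 0 ≤ B ∧ ∀ z, ‖iteratedFDeriv ℝ j f z‖ ≤ B := fun j => by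
    obtain ⟨B, hB⟩ := (hf j).2 j le_rfl
    exact ⟨B, (norm_nonneg _).trans (hB 0), hB⟩
  choose B hB0 hB using h1
  set D : ℝ := 1 + ∑ j ∈ Finset.range (i + 1), B j with hD
  have hsum0 : 0 ≤ ∑ j ∈ Finset.range (i + 1), B j := Finset.sum_nonneg fun j _ => hB0 j
  have hD1 : 1 ≤ D := by linarith
  have hBD : ∀ j, j ≤ i → B j ≤ D := fun j hj => by
    have := Finset.single_le_sum (f := B) (fun j _ => hB0 j)
      (Finset.mem_range.mpr (Nat.lt_succ_of_le hj))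
    linarith
  have hval : ∀ z, f z ≤ B 0 := fun z => by
    have := hB 0 z
    rw [norm_iteratedFDeriv_zero] at this
    exact (le_abs_self _).trans this
  refine ⟨(i.factorial : ℝ) * Real.exp (B 0) * D ^ i, fun z => ?_⟩
  have := norm_iteratedFDeriv_comp_le (𝕜 := ℝ) (g := Real.exp) (f := f) (n := i) (N := (i : ℕ∞))
    (Real.contDiff_exp) ((hf i).1) (by exact_mod_cast le_rfl) z (C := Real.exp (B 0)) (D := D)
    (fun j _ => by
      rw [norm_iteratedFDeriv_eq_norm_iteratedDeriv, iteratedDeriv_eq_iterate,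
        Real.iter_deriv_exp, Real.norm_eq_abs, abs_of_pos (Real.exp_pos _)]
      exact Real.exp_le_exp.mpr (hval z))
    (fun j hj hji => by
      refine (hB j z).trans ((hBD j hji).trans ?_)
      exact le_self_pow₀ hD1 (by omega))
  exact this

/-! ### second derivatives -/

private theorem Contr_px_px {f : ℂ → ℝ} (hf : ContDiff ℝ 2 f) (v w z : ℂ) :
    fderiv ℝ (fun x => fderiv ℝ f x v) z w = fderiv ℝ (fderiv ℝ f) z w v := by
  have h1 : Differentiable ℝ (fderiv ℝ f) :=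
    (hf.fderiv_right (m := 1) (by norm_num)).differentiable (by norm_num)
  have : HasFDerivAt (fun x => fderiv ℝ f x v)
      ((ContinuousLinearMap.apply ℝ ℝ v).comp (fderiv ℝ (fderiv ℝ f) z)) z :=
    (ContinuousLinearMap.apply ℝ ℝ v).hasFDerivAt.comp z (h1 z).hasFDerivAt
  rw [this.fderiv]
  rfl

private theorem Contr_lap {f : ℂ → ℝ} (hf : ContDiff ℝ 2 f) (z : ℂ) :
    lap f z = fderiv ℝ (fderiv ℝ f) z 1 1 + fderiv ℝ (fderiv ℝ f) z I I := by
  unfold lap px py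
  rw [Contr_px_px hf, Contr_px_px hf]

private theorem Contr_fderiv_cx {g : ℂ → ℝ} {z : ℂ} (hg : DifferentiableAt ℝ g z) (v : ℂ) :
    fderiv ℝ (fun x => ((g x : ℝ) : ℂ)) z v = ((fderiv ℝ g z v : ℝ) : ℂ) := by
  have : HasFDerivAt (fun x => ((g x : ℝ) : ℂ)) (Complex.ofRealCLM.comp (fderiv ℝ g z)) z :=
    Complex.ofRealCLM.hasFDerivAt.comp z hg.hasFDerivAt
  rw [this.fderiv]
  rfl

private theorem Contr_dz {f : ℂ → ℝ} (hf : ContDiff ℝ 2 f) (z : ℂ) :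
    dz (cx f) z = (((fderiv ℝ f z 1 : ℝ) : ℂ) - I * ((fderiv ℝ f z I : ℝ) : ℂ)) / 2 := by
  have h : DifferentiableAt ℝ f z := hf.differentiable (by norm_num) z
  unfold dz px py cx
  rw [Contr_fderiv_cx h, Contr_fderiv_cx h]

private theorem Contr_dzdz {f : ℂ → ℝ} (hf : ContDiff ℝ 2 f) (z : ℂ) :
    dz (dz (cx f)) z = (((((fderiv ℝ (fderiv ℝ f) z 1 1 : ℝ) : ℂ) -
      I * ((fderiv ℝ (fderiv ℝ f) z 1 I : ℝ) : ℂ)) / 2) -
      I * ((((fderiv ℝ (fderiv ℝ f) z I 1 : ℝ) : ℂ) -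
      I * ((fderiv ℝ (fderiv ℝ f) z I I : ℝ) : ℂ)) / 2)) / 2 := by
  have e : dz (cx f) = fun x => (((fderiv ℝ f x 1 : ℝ) : ℂ) - I * ((fderiv ℝ f x I : ℝ) : ℂ)) / 2 :=
    funext fun x => Contr_dz hf x
  have hd : ∀ v : ℂ, Differentiable ℝ (fun x => fderiv ℝ f x v) := fun v => by
    have h1 : Differentiable ℝ (fderiv ℝ f) :=
      (hf.fderiv_right (m := 1) (by norm_num)).differentiable (by norm_num)
    exact fun x => ((ContinuousLinearMap.apply ℝ ℝ v).hasFDerivAt.comp x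
      (h1 x).hasFDerivAt).differentiableAt
  have key : ∀ w : ℂ, fderiv ℝ (fun x => (((fderiv ℝ f x 1 : ℝ) : ℂ) -
      I * ((fderiv ℝ f x I : ℝ) : ℂ)) / 2) z w =
      (((fderiv ℝ (fderiv ℝ f) z w 1 : ℝ) : ℂ) - I * ((fderiv ℝ (fderiv ℝ f) z w I : ℝ) : ℂ)) / 2 := by
    intro w
    have h1 : HasFDerivAt (fun x => ((fderiv ℝ f x 1 : ℝ) : ℂ))
        (Complex.ofRealCLM.comp (fderiv ℝ (fun x => fderiv ℝ f x 1) z)) z :=
      Complex.ofRealCLM.hasFDerivAt.comp z ((hd 1) z).hasFDerivAt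
    have h2 : HasFDerivAt (fun x => ((fderiv ℝ f x I : ℝ) : ℂ))
        (Complex.ofRealCLM.comp (fderiv ℝ (fun x => fderiv ℝ f x I) z)) z :=
      Complex.ofRealCLM.hasFDerivAt.comp z ((hd I) z).hasFDerivAt
    have h3 := ((h1.sub (h2.const_mul I)).mul_const (2⁻¹ : ℂ))
    have h4 : (fun x => (((fderiv ℝ f x 1 : ℝ) : ℂ) - I * ((fderiv ℝ f x I : ℝ) : ℂ)) / 2) =
        fun x => (((fderiv ℝ f x 1 : ℝ) : ℂ) - I * ((fderiv ℝ f x I : ℝ) : ℂ)) * 2⁻¹ := by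
      funext x
      rw [div_eq_mul_inv]
    have h5 : HasFDerivAt (fun x => (((fderiv ℝ f x 1 : ℝ) : ℂ) -
      I * ((fderiv ℝ f x I : ℝ) : ℂ)) * 2⁻¹) _ z := h3
    rw [h4, h5.fderiv]
    simp only [_root_.smul_apply, _root_.sub_apply,
      ContinuousLinearMap.comp_apply, Complex.ofRealCLM_apply, smul_eq_mul]
    rw [Contr_px_px hf, Contr_px_px hf]
    ring
  rw [e]
  unfold dz px py
  rw [key, key]

/-- pointwise continuity of the nonlinearity -/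
private theorem Contr_nop_tendsto {s : ℝ} {φ : ℂ → ℝ} (hφ : ContDiff ℝ 2 φ) {ψn : ℕ → ℂ → ℝ}
    {ψ : ℂ → ℝ} (hn : ∀ n, ContDiff ℝ 2 (ψn n)) (hψ : ContDiff ℝ 2 ψ) (z : ℂ)
    (h0 : Tendsto (fun n => ψn n z) atTop (𝓝 (ψ z)))
    (h1 : Tendsto (fun n => fderiv ℝ (ψn n) z) atTop (𝓝 (fderiv ℝ ψ z)))
    (h2 : Tendsto (fun n => fderiv ℝ (fderiv ℝ (ψn n)) z) atTop (𝓝 (fderiv ℝ (fderiv ℝ ψ) z))) :
    Tendsto (fun n => Nop s φ (ψn n) z) atTop (𝓝 (Nop s φ ψ z)) := by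
  have h1v : ∀ v : ℂ, Tendsto (fun n => fderiv ℝ (ψn n) z v) atTop (𝓝 (fderiv ℝ ψ z v)) :=
    fun v => ((ContinuousLinearMap.apply ℝ ℝ v).continuous.tendsto _).comp h1
  have h2v : ∀ v w : ℂ, Tendsto (fun n => fderiv ℝ (fderiv ℝ (ψn n)) z v w) atTop
      (𝓝 (fderiv ℝ (fderiv ℝ ψ) z v w)) := fun v w => by
    have a : Tendsto (fun n => fderiv ℝ (fderiv ℝ (ψn n)) z v) atTop
        (𝓝 (fderiv ℝ (fderiv ℝ ψ) z v)) :=
      ((ContinuousLinearMap.apply ℝ (ℂ →L[ℝ] ℝ) v).continuous.tendsto _).comp h2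
    exact ((ContinuousLinearMap.apply ℝ ℝ w).continuous.tendsto _).comp a
  have hlap : Tendsto (fun n => lap (ψn n) z) atTop (𝓝 (lap ψ z)) := by
    rw [Contr_lap hψ]
    refine Tendsto.congr (fun n => (Contr_lap (hn n) z).symm) ?_
    exact (h2v 1 1).add (h2v I I)
  -- sums with `φ`
  have hsum : ∀ χ : ℂ → ℝ, ContDiff ℝ 2 χ → (∀ x, fderiv ℝ (fun w => φ w + χ w) x =
      fderiv ℝ φ x + fderiv ℝ χ x) := fun χ hχ x =>
    fderiv_fun_add (hφ.differentiable (by norm_num) x) (hχ.differentiable (by norm_num) x)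
  have hsum2 : ∀ χ : ℂ → ℝ, ContDiff ℝ 2 χ → fderiv ℝ (fderiv ℝ (fun w => φ w + χ w)) z =
      fderiv ℝ (fderiv ℝ φ) z + fderiv ℝ (fderiv ℝ χ) z := fun χ hχ => by
    have e : fderiv ℝ (fun w => φ w + χ w) = fun x => fderiv ℝ φ x + fderiv ℝ χ x :=
      funext (hsum χ hχ)
    rw [e]
    exact fderiv_fun_add
      ((hφ.fderiv_right (m := 1) (by norm_num)).differentiable (by norm_num) z)
      ((hχ.fderiv_right (m := 1) (by norm_num)).differentiable (by norm_num) z)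
  have g1v : ∀ v : ℂ, Tendsto (fun n => fderiv ℝ (fun w => φ w + ψn n w) z v) atTop
      (𝓝 (fderiv ℝ (fun w => φ w + ψ w) z v)) := fun v => by
    rw [hsum ψ hψ]
    refine Tendsto.congr (fun n => by rw [hsum (ψn n) (hn n)]) ?_
    simp only [_root_.add_apply]
    exact tendsto_const_nhds.add (h1v v)
  have g2v : ∀ v w : ℂ, Tendsto (fun n => fderiv ℝ (fderiv ℝ (fun w => φ w + ψn n w)) z v w) atTop
      (𝓝 (fderiv ℝ (fderiv ℝ (fun w => φ w + ψ w)) z v w)) := fun v w => by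
    rw [hsum2 ψ hψ]
    refine Tendsto.congr (fun n => by rw [hsum2 (ψn n) (hn n)]) ?_
    simp only [_root_.add_apply]
    exact tendsto_const_nhds.add (h2v v w)
  have hc : ∀ {a : ℕ → ℝ} {b : ℝ}, Tendsto a atTop (𝓝 b) →
      Tendsto (fun n => ((a n : ℝ) : ℂ)) atTop (𝓝 (b : ℂ)) := fun h =>
    (Complex.continuous_ofReal.tendsto _).comp h
  have hdz : Tendsto (fun n => dz (cx (fun w => φ w + ψn n w)) z) atTop
      (𝓝 (dz (cx (fun w => φ w + ψ w)) z)) := by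
    rw [Contr_dz (hφ.add hψ)]
    refine Tendsto.congr (fun n => (Contr_dz (hφ.add (hn n)) z).symm) ?_
    exact ((hc (g1v 1)).sub (tendsto_const_nhds.mul (hc (g1v I)))).div_const 2
  have hdzz : Tendsto (fun n => dz (dz (cx (fun w => φ w + ψn n w))) z) atTop
      (𝓝 (dz (dz (cx (fun w => φ w + ψ w))) z)) := by
    rw [Contr_dzdz (hφ.add hψ)]
    refine Tendsto.congr (fun n => (Contr_dzdz (hφ.add (hn n)) z).symm) ?_
    exact (((((hc (g2v 1 1)).sub (tendsto_const_nhds.mul (hc (g2v 1 I)))).div_const 2).sub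
      (tendsto_const_nhds.mul ((((hc (g2v I 1)).sub
        (tendsto_const_nhds.mul (hc (g2v I I)))).div_const 2))))).div_const 2
  have hexp : Tendsto (fun n => Real.exp (2 * ψn n z)) atTop (𝓝 (Real.exp (2 * ψ z))) :=
    (Real.continuous_exp.tendsto _).comp (tendsto_const_nhds.mul h0)
  have hexp' : Tendsto (fun n => Real.exp (-2 * ψn n z)) atTop (𝓝 (Real.exp (-2 * ψ z))) :=
    (Real.continuous_exp.tendsto _).comp (tendsto_const_nhds.mul h0)
  unfold Nop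
  refine Tendsto.add ((hexp.sub tendsto_const_nhds).sub (tendsto_const_nhds.mul h0)) ?_
  refine tendsto_const_nhds.mul (hexp'.mul ?_)
  refine Tendsto.sub ((tendsto_const_nhds.add (tendsto_const_nhds.mul hlap)).pow 2) ?_
  refine Tendsto.pow (Tendsto.norm ?_) 2
  exact tendsto_const_nhds.mul (hdzz.sub (hdz.pow 2))

private theorem Contr_cx_norm {f : ℂ → ℝ} {j : ℕ} (hf : ContDiff ℝ j f) (z : ℂ) :
    ‖iteratedFDeriv ℝ j (cx f) z‖ = ‖iteratedFDeriv ℝ j f z‖ :=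
  Complex.ofRealLI.norm_iteratedFDeriv_comp_left hf.contDiffAt le_rfl

private theorem Contr_gen {E : Type*} [NormedAddCommGroup E] [CompleteSpace E] {v2 : ℕ → ℝ}
    (h2 : Summable v2) (a : ℕ → E) (ha : ∀ n, ‖a n‖ ≤ v2 n) :
    Tendsto (fun n => ∑ i ∈ Finset.range n, a i) atTop (𝓝 (∑' n, a n)) :=
  (Summable.of_norm_bounded h2 ha).hasSum.tendsto_sum_nat

private theorem Contr_two_tsum {w : ℕ → ℂ → ℝ} (hw : ∀ n, ContDiff ℝ 2 (w n)) {v1 v2 : ℕ → ℝ}
    (h1 : Summable v1) (h2 : Summable v2) (hn1 : ∀ n x, ‖fderiv ℝ (w n) x‖ ≤ v1 n)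
    (hn2 : ∀ n x, ‖fderiv ℝ (fderiv ℝ (w n)) x‖ ≤ v2 n) (z : ℂ) (hs0 : Summable fun n => w n z) :
    (fderiv ℝ (fun y => ∑' n, w n y) = fun x => ∑' n, fderiv ℝ (w n) x) ∧
    (fderiv ℝ (fderiv ℝ (fun y => ∑' n, w n y)) = fun x => ∑' n, fderiv ℝ (fderiv ℝ (w n)) x) := by
  have hd0 : ∀ n, Differentiable ℝ (w n) := fun n => (hw n).differentiable (by norm_num)
  have hd1 : ∀ n, Differentiable ℝ (fderiv ℝ (w n)) := fun n =>
    ((hw n).fderiv_right (m := 1) (by norm_num)).differentiable (by norm_num)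
  have e1 : fderiv ℝ (fun y => ∑' n, w n y) = fun x => ∑' n, fderiv ℝ (w n) x :=
    fderiv_tsum h1 hd0 hn1 hs0
  have hs1 : Summable (fun n => fderiv ℝ (w n) z) := Summable.of_norm_bounded h1 fun n => hn1 n z
  refine ⟨e1, ?_⟩
  rw [e1]
  have := fderiv_tsum (𝕜 := ℝ) (f := fun n x => fderiv ℝ (w n) x) h2 (fun n => hd1 n)
    (fun n x => hn2 n x) hs1
  exact this

/-- limit of the iteration -/
private theorem Contr_limit (k : ℕ) (Dp : ℕ → ℝ) (ρ : ℝ) (hDp : ∀ j, 0 < Dp j) (hρ : 0 < ρ)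
    (s : ℝ) (φ : ℂ → ℝ) (hφ : Cbf φ) (ψn : ℕ → ℂ → ℝ) (hC : ∀ n, Cbf (ψn n))
    (h00 : ∀ z, ψn 0 z = 0)
    (hb : ∀ j : ℕ, j ≤ k + 2 → ∀ n z, ‖iteratedFDeriv ℝ j (fun z => ψn (n + 1) z - ψn n z) z‖ ≤
      Dp j * (ρ * (1 / 2) ^ (n + 1)) * Real.exp (j * φ z))
    (heq : ∀ n z, lap (ψn (n + 1)) z = Real.exp (2 * φ z) * (2 * ψn (n + 1) z + Nop s φ (ψn n) z)) :
    ∃ ψ : ℂ → ℝ, ContDiff ℝ (k + 2 : ℕ) ψ ∧
      (∀ j : ℕ, j ≤ k + 2 → ∀ z, ‖iteratedFDeriv ℝ j ψ z‖ ≤ Dp j * ρ * Real.exp (j * φ z)) ∧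
      ∀ z, lap ψ z = Real.exp (2 * φ z) * (2 * ψ z + Nop s φ ψ z) := by
  obtain ⟨B, hB⟩ := (hφ 0).2 0 le_rfl
  have hφB : ∀ z, φ z ≤ B := fun z => by
    have := hB z
    rw [norm_iteratedFDeriv_zero] at this
    exact (le_abs_self _).trans this
  set w : ℕ → ℂ → ℝ := fun n z => ψn (n + 1) z - ψn n z with hw
  have hwC : ∀ n, Cbf (w n) := fun n => Contr_cbf_sub (hC _) (hC _)
  have hwS : ∀ n (m : ℕ), ContDiff ℝ m (w n) := fun n m => (hwC n m).1
  set v : ℕ → ℕ → ℝ := fun j n => Dp j * (ρ * (1 / 2) ^ (n + 1)) * Real.exp (j * B) with hv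
  have hgeo : HasSum (fun n : ℕ => (1 / 2 : ℝ) ^ (n + 1)) 1 := by
    have := (hasSum_geometric_two).mul_right (1 / 2 : ℝ)
    have e : (2 : ℝ) * (1 / 2) = 1 := by norm_num
    rw [e] at this
    refine this.congr_fun ?_ |> fun h => h
    intro n
    rw [pow_succ]
  have hvs : ∀ j, Summable (v j) := fun j => by
    have := (hgeo.summable.mul_left ρ).mul_left (Dp j)
    exact this.mul_right (Real.exp (j * B))
  have hvb : ∀ j : ℕ, j ≤ k + 2 → ∀ n z, ‖iteratedFDeriv ℝ j (w n) z‖ ≤ v j n := fun j hj n z => by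
    refine (hb j hj n z).trans ?_
    refine mul_le_mul_of_nonneg_left ?_ ?_
    · refine Real.exp_le_exp.mpr ?_
      exact mul_le_mul_of_nonneg_left (hφB z) (Nat.cast_nonneg j)
    · have := hDp j
      positivity
  set ψ : ℂ → ℝ := fun z => ∑' n, w n z with hψ
  have hψC : ContDiff ℝ (k + 2 : ℕ) ψ := by
    refine contDiff_tsum (𝕜 := ℝ) (N := ((k + 2 : ℕ) : ℕ∞)) (v := v) (fun n => hwS n (k + 2))
      (fun j _ => hvs j) (fun j n z hj => ?_)
    exact hvb j (by exact_mod_cast hj) n z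
  have hiter : ∀ j : ℕ, j ≤ k + 2 → iteratedFDeriv ℝ j ψ = fun z => ∑' n, iteratedFDeriv ℝ j (w n) z :=
    fun j hj => iteratedFDeriv_tsum (𝕜 := ℝ) (N := ((k + 2 : ℕ) : ℕ∞)) (v := v)
      (fun n => hwS n (k + 2)) (fun j _ => hvs j)
      (fun j n z hj => hvb j (by exact_mod_cast hj) n z) (by exact_mod_cast hj)
  refine ⟨ψ, hψC, fun j hj z => ?_, ?_⟩
  · rw [hiter j hj]
    have hs : HasSum (fun n => Dp j * (ρ * (1 / 2) ^ (n + 1)) * Real.exp (j * φ z))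
        (Dp j * (ρ * 1) * Real.exp (j * φ z)) :=
      ((hgeo.mul_left ρ).mul_left (Dp j)).mul_right (Real.exp (j * φ z))
    have hle := tsum_of_norm_bounded hs (fun n => hb j hj n z)
    rw [mul_one] at hle
    exact hle
  · intro z
    have hs0 : Summable (fun n => w n z) := by
      refine Summable.of_norm_bounded (hvs 0) fun n => ?_
      have := hvb 0 (by omega) n z
      rwa [norm_iteratedFDeriv_zero] at this
    have hn1 : ∀ n x, ‖fderiv ℝ (w n) x‖ ≤ v 1 n := fun n x => by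
      have := hvb 1 (by omega) n x
      rwa [norm_iteratedFDeriv_one] at this
    have hn2 : ∀ n x, ‖fderiv ℝ (fderiv ℝ (w n)) x‖ ≤ v 2 n := fun n x => by
      have h := hvb 2 (by omega) n x
      rw [← norm_iteratedFDeriv_fderiv, norm_iteratedFDeriv_one] at h
      exact h
    obtain ⟨e1, e2⟩ := Contr_two_tsum (fun n => hwS n 2) (hvs 1) (hvs 2) hn1 hn2 z hs0
    -- telescoping
    have hψd : ∀ n, Differentiable ℝ (ψn n) := fun n => ((hC n) 1).1.differentiable (by norm_num)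
    have hψd1 : ∀ n, Differentiable ℝ (fderiv ℝ (ψn n)) := fun n =>
      ((((hC n) 2).1).fderiv_right (m := 1) (by norm_num)).differentiable (by norm_num)
    have w1 : ∀ n, fderiv ℝ (w n) = fun x => fderiv ℝ (ψn (n + 1)) x - fderiv ℝ (ψn n) x :=
      fun n => funext fun x => fderiv_fun_sub (hψd _ x) (hψd _ x)
    have w2 : ∀ n x, fderiv ℝ (fderiv ℝ (w n)) x =
        fderiv ℝ (fderiv ℝ (ψn (n + 1))) x - fderiv ℝ (fderiv ℝ (ψn n)) x := fun n x => by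
      rw [w1]
      exact fderiv_fun_sub (hψd1 _ x) (hψd1 _ x)
    have z0 : ψn 0 = fun _ => 0 := funext h00
    have z1 : fderiv ℝ (ψn 0) = fun _ => 0 := by
      rw [z0]
      funext x
      exact (hasFDerivAt_const (0 : ℝ) x).fderiv
    have z2 : fderiv ℝ (fderiv ℝ (ψn 0)) = fun _ => 0 := by
      rw [z1]
      funext x
      exact (hasFDerivAt_const (0 : ℂ →L[ℝ] ℝ) x).fderiv
    have t0 : Tendsto (fun n => ψn n z) atTop (𝓝 (ψ z)) := by
      have := hs0.hasSum.tendsto_sum_nat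
      refine this.congr fun n => ?_
      simp only [hw]
      rw [Finset.sum_range_sub (fun n => ψn n z), h00, sub_zero]
    have t1 : Tendsto (fun n => fderiv ℝ (ψn n) z) atTop (𝓝 (fderiv ℝ ψ z)) := by
      have := Contr_gen (hvs 1) (fun n => fderiv ℝ (w n) z) (fun n => hn1 n z)
      rw [hψ, e1]
      refine this.congr fun n => ?_
      simp only [w1]
      rw [Finset.sum_range_sub (fun n => fderiv ℝ (ψn n) z), z1, sub_zero]
    have t2 : Tendsto (fun n => fderiv ℝ (fderiv ℝ (ψn n)) z) atTop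
        (𝓝 (fderiv ℝ (fderiv ℝ ψ) z)) := by
      have := Contr_gen (hvs 2) (fun n => fderiv ℝ (fderiv ℝ (w n)) z) (fun n => hn2 n z)
      rw [hψ, e2]
      refine this.congr fun n => ?_
      simp only [w2]
      rw [Finset.sum_range_sub (fun n => fderiv ℝ (fderiv ℝ (ψn n)) z), z2, sub_zero]
    have hψ2 : ContDiff ℝ 2 ψ := hψC.of_le (by exact_mod_cast Nat.le_add_left 2 k)
    have hN := Contr_nop_tendsto (s := s) (hφ 2).1 (fun n => (hC n 2).1) hψ2 z t0 t1 t2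
    have hL : Tendsto (fun n => lap (ψn (n + 1)) z) atTop (𝓝 (lap ψ z)) := by
      rw [Contr_lap hψ2]
      refine Tendsto.congr (fun n => (Contr_lap (hC (n + 1) 2).1 z).symm) ?_
      have h2v : ∀ v w : ℂ, Tendsto (fun n => fderiv ℝ (fderiv ℝ (ψn n)) z v w) atTop
          (𝓝 (fderiv ℝ (fderiv ℝ ψ) z v w)) := fun v w => by
        have a : Tendsto (fun n => fderiv ℝ (fderiv ℝ (ψn n)) z v) atTop
            (𝓝 (fderiv ℝ (fderiv ℝ ψ) z v)) :=
          ((ContinuousLinearMap.apply ℝ (ℂ →L[ℝ] ℝ) v).continuous.tendsto _).comp t2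
        exact ((ContinuousLinearMap.apply ℝ ℝ w).continuous.tendsto _).comp a
      exact ((h2v 1 1).add (h2v I I)).comp (tendsto_add_atTop_nat 1)
    have hR : Tendsto (fun n => Real.exp (2 * φ z) * (2 * ψn (n + 1) z + Nop s φ (ψn n) z)) atTop
        (𝓝 (Real.exp (2 * φ z) * (2 * ψ z + Nop s φ ψ z))) :=
      tendsto_const_nhds.mul ((tendsto_const_nhds.mul (t0.comp (tendsto_add_atTop_nat 1))).add hN)
    exact tendsto_nhds_unique hL (hR.congr fun n => (heq n z).symm)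

/-- one step -/
private theorem Contr_step (k : ℕ) (C : ℕ → ℝ) (θ : ℝ) (hθ : ThetaOK C θ) : ∃ K D₀ : ℝ, 0 < K ∧
    0 < D₀ ∧ (∀ φ : ℂ → ℝ, BG C φ → Cbf φ → ∀ (s ρ A : ℝ) (a b : ℂ → ℝ), 0 ≤ s → s ≤ 1 → 0 ≤ ρ →
    ρ ≤ 1 → 0 ≤ A → Cbf a → Cbf b → XB (k + 2) θ φ (cx a) ρ → XB (k + 2) θ φ (cx b) ρ →
    XB (k + 2) θ φ (cx (fun z => b z - a z)) A →
    ∃ u : ℂ → ℝ, Cbf u ∧ XB (k + 2) θ φ (cx u) (K * (ρ + s ^ 2) * A) ∧
      ∀ z, lap u z = 2 * Real.exp (2 * φ z) * u z +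
        Real.exp (2 * φ z) * (Nop s φ b z - Nop s φ a z)) ∧
    (∀ φ : ℂ → ℝ, BG C φ → Cbf φ → ∀ s : ℝ, 
    ∃ u : ℂ → ℝ, Cbf u ∧ XB (k + 2) θ φ (cx u) (D₀ * s ^ 2) ∧
      ∀ z, lap u z = 2 * Real.exp (2 * φ z) * u z +
        Real.exp (2 * φ z) * (Nop s φ (fun _ => 0) z)) := by
  obtain ⟨Dn, hDn, hn⟩ := nop_lip k C θ hθ
  obtain ⟨Dz, hDz, hz⟩ := nop_zero k C θ hθ
  obtain ⟨Dl, hDl, hl⟩ := xb_lin k C θ hθ
  obtain ⟨Dp, hDp, hp⟩ := xb_point 0 C θ hθ
  -- the basic linear step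
  have key : ∀ φ : ℂ → ℝ, BG C φ → Cbf φ → ∀ (f : ℂ → ℝ) (A : ℝ), Cbf f → 0 ≤ A →
      XB k θ φ (cx f) A → ∃ u : ℂ → ℝ, Cbf u ∧ XB (k + 2) θ φ (cx u) (Dl * ((1 + Dp) * A)) ∧
      ∀ z, lap u z = 2 * Real.exp (2 * φ z) * u z + Real.exp (2 * φ z) * f z := by
    intro φ hBG hφ f A hf hA hX
    obtain ⟨B, hB⟩ := (hφ 0).2 0 le_rfl
    have hφB : ∀ z, -B ≤ φ z := fun z => by
      have := hB z
      rw [norm_iteratedFDeriv_zero] at this
      exact (abs_le.mp this).1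
    have hE : Cbf (fun z => Real.exp (2 * φ z)) :=
      Contr_cbf_exp (Contr_cbf_mul (Contr_cbf_const 2) hφ)
    have hV : Cbf (fun z => 2 * Real.exp (2 * φ z)) := Contr_cbf_mul (Contr_cbf_const 2) hE
    have hg : Cbf (fun z => Real.exp (2 * φ z) * f z) := Contr_cbf_mul hE hf
    obtain ⟨u, hu, hul, hub⟩ := lin_solve (fun z => 2 * Real.exp (2 * φ z))
      (fun z => Real.exp (2 * φ z) * f z) hV hg (2 * Real.exp (2 * -B)) (by positivity)
      (fun z => by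
        refine mul_le_mul_of_nonneg_left (Real.exp_le_exp.mpr ?_) (by norm_num)
        exact mul_le_mul_of_nonneg_left (hφB z) (by norm_num))
    have hfs : ∀ n : ℕ, ContDiff ℝ n (cx f) := fun n => Complex.ofRealCLM.contDiff.comp (hf n).1
    have hf0 : ∀ z, |f z| ≤ (1 + Dp) * A := fun z => by
      have h := hp φ hBG (cx f) A hfs (xb_index (Nat.zero_le k) θ φ hfs hX) z
      rw [norm_iteratedFDeriv_zero] at h
      simp only [cx, Complex.norm_real, Real.norm_eq_abs, Nat.cast_zero, zero_mul, Real.exp_zero,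
        mul_one] at h
      nlinarith
    have hu0 : ∀ z, |u z| ≤ (1 + Dp) * A := hub _ fun z => by
      rw [abs_mul, abs_of_pos (Real.exp_pos _)]
      have h1 := hf0 z
      have h2 : 0 ≤ (1 + Dp) * A := (abs_nonneg _).trans h1
      have h3 := Real.exp_pos (2 * φ z)
      nlinarith
    refine ⟨u, hu, ?_, hul⟩
    refine hl φ hBG u f ((1 + Dp) * A) (fun n => (hu n).1) (fun n => (hf n).1) hul hu0 ?_
    exact xb_mono k θ φ (by nlinarith) hX
  refine ⟨Dl * ((1 + Dp) * Dn), Dl * ((1 + Dp) * Dz), by positivity, by positivity, ?_, ?_⟩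
  · intro φ hBG hφ s ρ A a b hs hs1 hρ hρ1 hA ha hb hXa hXb hXd
    have hX := hn φ hBG s ρ A b a hs hs1 hρ hρ1 hA (fun n => (hb n).1) (fun n => (ha n).1) hXb hXa hXd
    obtain ⟨u, hu, hux, hul⟩ := key φ hBG hφ (fun z => Nop s φ b z - Nop s φ a z)
      (Dn * (ρ + s ^ 2) * A) (Contr_cbf_sub (nop_cbf s φ b hφ hb) (nop_cbf s φ a hφ ha))
      (by positivity) hX
    refine ⟨u, hu, ?_, hul⟩
    have e : Dl * ((1 + Dp) * (Dn * (ρ + s ^ 2) * A)) = Dl * ((1 + Dp) * Dn) * (ρ + s ^ 2) * A := by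
      ring
    rw [← e]
    exact hux
  · intro φ hBG hφ s
    obtain ⟨u, hu, hux, hul⟩ := key φ hBG hφ (Nop s φ (fun _ => 0)) (Dz * s ^ 2)
      (nop_cbf s φ _ hφ (Contr_cbf_const 0)) (by positivity) (hz φ hBG s)
    refine ⟨u, hu, ?_, hul⟩
    have e : Dl * ((1 + Dp) * (Dz * s ^ 2)) = Dl * ((1 + Dp) * Dz) * s ^ 2 := by ring
    rw [← e]
    exact hux

private theorem Contr_lap_add {f g : ℂ → ℝ} (hf : ContDiff ℝ 2 f) (hg : ContDiff ℝ 2 g) (z : ℂ) :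
    lap (fun z => f z + g z) z = lap f z + lap g z := by
  have h1 : fderiv ℝ (fun z => f z + g z) = fun x => fderiv ℝ f x + fderiv ℝ g x := funext fun x =>
    fderiv_fun_add (hf.differentiable (by norm_num) x) (hg.differentiable (by norm_num) x)
  have h2 : fderiv ℝ (fderiv ℝ (fun z => f z + g z)) z =
      fderiv ℝ (fderiv ℝ f) z + fderiv ℝ (fderiv ℝ g) z := by
    rw [h1]
    exact fderiv_fun_add
      ((hf.fderiv_right (m := 1) (by norm_num)).differentiable (by norm_num) z)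
      ((hg.fderiv_right (m := 1) (by norm_num)).differentiable (by norm_num) z)
  rw [Contr_lap (hf.add hg), Contr_lap hf, Contr_lap hg, h2]
  simp only [_root_.add_apply]
  ring

/-- the solution on the plane -/
theorem contr (k : ℕ) (C : ℕ → ℝ) : ∃ D s₀ : ℝ, 0 < D ∧ 0 < s₀ ∧ ∀ φ : ℂ → ℝ, BG C φ → Cbf φ →
    ∀ s : ℝ, 0 ≤ s → s ≤ s₀ → ∃ ψ : ℂ → ℝ, ContDiff ℝ (k + 2 : ℕ) ψ ∧
      (∀ j : ℕ, j ≤ k + 2 → ∀ z, ‖iteratedFDeriv ℝ j ψ z‖ ≤ D * Real.exp (j * φ z)) ∧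
      ∀ z, lap ψ z = Real.exp (2 * φ z) * (2 * ψ z + Nop s φ ψ z) := by
  -- the chart parameter
  obtain ⟨θ, hθ⟩ : ∃ θ : ℝ, ThetaOK C θ := by
    refine ⟨1 / (100 * (1 + |C 1|)), by positivity, ?_, ?_⟩
    · rw [div_le_one (by positivity)]
      have := abs_nonneg (C 1)
      linarith
    · have h := le_abs_self (C 1)
      have h' := abs_nonneg (C 1)
      have : 100 * (1 / (100 * (1 + |C 1|))) * C 1 = C 1 / (1 + |C 1|) := by
        field_simp
      rw [this, div_le_one (by positivity)]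
      linarith
  obtain ⟨K, D₀, hK, hD₀, hstep, hzero⟩ := Contr_step k C θ hθ
  choose Dp hDp hp using fun j : ℕ => xb_point j C θ hθ
  set ρ : ℝ := min 1 (1 / (4 * K)) with hρ
  have hρ0 : 0 < ρ := by positivity
  have hρ1 : ρ ≤ 1 := min_le_left _ _
  have hρK : K * ρ ≤ 1 / 4 := by
    have : ρ ≤ 1 / (4 * K) := min_le_right _ _
    have h2 := mul_le_mul_of_nonneg_left this hK.le
    have h3 : K * (1 / (4 * K)) = 1 / 4 := by field_simp
    linarith
  set s₀ : ℝ := min 1 (min (1 / (4 * K)) (ρ / (2 * D₀))) with hs₀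
  have hs₀0 : 0 < s₀ := by positivity
  have hs₀1 : s₀ ≤ 1 := min_le_left _ _
  have hs₀K : K * s₀ ≤ 1 / 4 := by
    have : s₀ ≤ 1 / (4 * K) := (min_le_right _ _).trans (min_le_left _ _)
    have h2 := mul_le_mul_of_nonneg_left this hK.le
    have h3 : K * (1 / (4 * K)) = 1 / 4 := by field_simp
    linarith
  have hs₀D : D₀ * s₀ ≤ ρ / 2 := by
    have : s₀ ≤ ρ / (2 * D₀) := (min_le_right _ _).trans (min_le_right _ _)
    have h2 := mul_le_mul_of_nonneg_left this hD₀.le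
    have h3 : D₀ * (ρ / (2 * D₀)) = ρ / 2 := by field_simp
    linarith
  set D : ℝ := 1 + ∑ j ∈ Finset.range (k + 3), Dp j * ρ with hD
  have hDpos : 0 < D := by
    have : 0 ≤ ∑ j ∈ Finset.range (k + 3), Dp j * ρ :=
      Finset.sum_nonneg fun j _ => mul_nonneg (hDp j).le hρ0.le
    linarith
  refine ⟨D, s₀, hDpos, hs₀0, fun φ hBG hφ s hs hss => ?_⟩
  have hs1 : s ≤ 1 := hss.trans hs₀1
  have hsq : s ^ 2 ≤ s₀ := by nlinarith
  have hKs : K * (ρ + s ^ 2) ≤ 1 / 2 := by nlinarith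
  -- the states
  let P : ℕ → (ℂ → ℝ) × (ℂ → ℝ) → Prop := fun i p => Cbf p.1 ∧ Cbf p.2 ∧
    XB (k + 2) θ φ (cx p.1) (ρ * (1 - (1 / 2) ^ i)) ∧
    XB (k + 2) θ φ (cx p.2) (ρ * (1 - (1 / 2) ^ (i + 1))) ∧
    XB (k + 2) θ φ (cx (fun z => p.2 z - p.1 z)) (ρ * (1 / 2) ^ (i + 1)) ∧
    ∀ z, lap p.2 z = Real.exp (2 * φ z) * (2 * p.2 z + Nop s φ p.1 z)
  have hxs : ∀ {f : ℂ → ℝ}, Cbf f → ∀ n : ℕ, ContDiff ℝ n (cx f) := fun hf n =>
    Complex.ofRealCLM.contDiff.comp (hf n).1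
  have base : ∃ b : ℂ → ℝ, P 0 (fun _ => 0, b) := by
    obtain ⟨u, hu, hux, hul⟩ := hzero φ hBG hφ s
    have hux' : XB (k + 2) θ φ (cx u) (ρ * (1 / 2)) := xb_mono _ θ φ (by nlinarith) hux
    refine ⟨u, Contr_cbf_const 0, hu, ?_, ?_, ?_, fun z => ?_⟩
    · have h := xb_smul (k + 2) θ φ 0 (hxs hu) hux'
      have e : (cx (fun _ : ℂ => (0 : ℝ))) = fun z => (0 : ℂ) * cx u z := by
        funext z
        simp [cx]
      show XB (k + 2) θ φ (cx (fun _ : ℂ => (0 : ℝ))) _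
      rw [e]
      refine xb_mono _ θ φ (le_of_eq ?_) h
      simp
    · refine xb_mono _ θ φ (le_of_eq ?_) hux'
      norm_num
    · have e : (cx (fun z => u z - 0)) = cx u := by
        funext z
        simp
      show XB (k + 2) θ φ (cx (fun z => u z - 0)) _
      rw [e]
      refine xb_mono _ θ φ (le_of_eq ?_) hux'
      norm_num
    · show lap u z = _
      rw [hul z]
      ring
  have next : ∀ i (p : (ℂ → ℝ) × (ℂ → ℝ)), P i p → ∃ c : ℂ → ℝ, P (i + 1) (p.2, c) := by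
    rintro i ⟨a, b⟩ ⟨ha, hb, hXa, hXb, hXd, heq⟩
    have hpow : (0 : ℝ) < (1 / 2) ^ i := by positivity
    have hpow1 : (0 : ℝ) < (1 / 2) ^ (i + 1) := by positivity
    obtain ⟨u, hu, hux, hul⟩ := hstep φ hBG hφ s ρ (ρ * (1 / 2) ^ (i + 1)) a b hs hs1 hρ0.le hρ1
      (by positivity) ha hb (xb_mono _ θ φ (by nlinarith) hXa) (xb_mono _ θ φ (by nlinarith) hXb) hXd
    have hux' : XB (k + 2) θ φ (cx u) (ρ * (1 / 2) ^ (i + 1 + 1)) := by
      refine xb_mono _ θ φ ?_ hux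
      have h1 : (1 / 2 : ℝ) ^ (i + 1 + 1) = (1 / 2) ^ (i + 1) * (1 / 2) := pow_succ _ _
      rw [h1]
      have h2 : 0 ≤ ρ * (1 / 2) ^ (i + 1) := by positivity
      calc K * (ρ + s ^ 2) * (ρ * (1 / 2) ^ (i + 1)) ≤ 1 / 2 * (ρ * (1 / 2) ^ (i + 1)) :=
            mul_le_mul_of_nonneg_right hKs h2
        _ = ρ * ((1 / 2) ^ (i + 1) * (1 / 2)) := by ring
    refine ⟨fun z => b z + u z, hb, Contr_cbf_add hb hu, hXb, ?_, ?_, fun z => ?_⟩
    · have h := xb_add (k + 2) θ φ (hxs hb) (hxs hu) hXb hux'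
      have e : cx (fun z => b z + u z) = fun z => cx b z + cx u z := by
        funext z
        simp [cx]
      show XB (k + 2) θ φ (cx (fun z => b z + u z)) _
      rw [e]
      refine xb_mono _ θ φ (le_of_eq ?_) h
      rw [pow_succ (1 / 2 : ℝ) (i + 1)]
      ring
    · have e : cx (fun z => (b z + u z) - b z) = cx u := by
        funext z
        simp [cx]
      show XB (k + 2) θ φ (cx (fun z => (b z + u z) - b z)) _
      rw [e]
      exact hux'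
    · show lap (fun z => b z + u z) z = Real.exp (2 * φ z) * (2 * (b z + u z) + Nop s φ b z)
      rw [Contr_lap_add (hb 2).1 (hu 2).1, heq z, hul z]
      ring
  obtain ⟨b₀, hb₀⟩ := base
  choose! c hc using next
  let st : ℕ → (ℂ → ℝ) × (ℂ → ℝ) := fun n => Nat.rec (fun _ => 0, b₀) (fun i p => (p.2, c i p)) n
  have hst : ∀ i, P i (st i) := by
    intro i
    induction i with
    | zero => exact hb₀
    | succ i ih => exact hc i (st i) ih
  have hsucc : ∀ i, (st (i + 1)).1 = (st i).2 := fun i => rfl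
  obtain ⟨ψ, hψC, hψb, hψe⟩ := Contr_limit k Dp ρ hDp hρ0 s φ hφ (fun n => (st n).1)
    (fun n => (hst n).1) (fun z => rfl)
    (fun j hj n z => by
      show ‖iteratedFDeriv ℝ j (fun z => (st (n + 1)).1 z - (st n).1 z) z‖ ≤ _
      rw [hsucc]
      have hd := (hst n).2.2.2.2.1
      have hC : Cbf (fun z => (st n).2 z - (st n).1 z) := Contr_cbf_sub (hst n).2.1 (hst n).1
      have h := hp j φ hBG (cx (fun z => (st n).2 z - (st n).1 z)) _ (hxs hC)
        (xb_index hj θ φ (hxs hC) hd) z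
      rwa [Contr_cx_norm (hC j).1] at h)
    (fun n z => by
      show lap (st (n + 1)).1 z = _
      rw [hsucc]
      exact (hst n).2.2.2.2.2 z)
  refine ⟨ψ, hψC, fun j hj z => (hψb j hj z).trans ?_, hψe⟩
  refine mul_le_mul_of_nonneg_right ?_ (Real.exp_pos _).le
  have := Finset.single_le_sum (f := fun j => Dp j * ρ) (fun j _ => mul_nonneg (hDp j).le hρ0.le)
    (Finset.mem_range.mpr (show j < k + 3 by omega))
  linarith

end Pool.Agent.BB4B37
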