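import Pool.Agent.W_bb4b37_h5.P.W

/-! # Cut-off functions -/

set_option autoImplicit false

namespace Pool.Agent.BB4B37

open Complex Filter Topology Set MeasureTheory BoundedContinuousFunction
open scoped FourierTransform

/-- cut-off function: `1` on `‖z‖ ≤ a`, `0` on `‖z‖ ≥ b` (junk value `0` unless `0 < a < b`) -/
noncomputable def ctf (a b : ℝ) : ℂ → ℂ := fun z =>
  if h : 0 < a ∧ a < b then (((⟨a, b, h.1, h.2⟩ : ContDiffBump (0 : ℂ)) z : ℝ) : ℂ) else 0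

theorem ctf_cc (a b : ℝ) : CC (ctf a b) := by
  by_cases h : 0 < a ∧ a < b
  · have h1 : ctf a b = fun z => (((⟨a, b, h.1, h.2⟩ : ContDiffBump (0 : ℂ)) z : ℝ) : ℂ) := by
      funext z
      exact dif_pos h
    rw [h1]
    refine ⟨fun n => ?_, ?_⟩
    · exact Complex.ofRealCLM.contDiff.comp (⟨a, b, h.1, h.2⟩ : ContDiffBump (0 : ℂ)).contDiff
    · exact (⟨a, b, h.1, h.2⟩ : ContDiffBump (0 : ℂ)).hasCompactSupport.comp_left
        (g := fun x : ℝ => (x : ℂ)) Complex.ofReal_zero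
  · have h1 : ctf a b = fun _ => 0 := by
      funext z
      exact dif_neg h
    rw [h1]
    exact ⟨fun n => contDiff_const, HasCompactSupport.zero⟩

theorem ctf_one {a b : ℝ} (ha : 0 < a) (hab : a < b) {z : ℂ} (hz : ‖z‖ ≤ a) : ctf a b z = 1 := by
  have h1 : ctf a b z = (((⟨a, b, ha, hab⟩ : ContDiffBump (0 : ℂ)) z : ℝ) : ℂ) :=
    dif_pos ⟨ha, hab⟩
  rw [h1, (⟨a, b, ha, hab⟩ : ContDiffBump (0 : ℂ)).one_of_mem_closedBall, Complex.ofReal_one]
  rw [Metric.mem_closedBall, dist_zero_right]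
  exact hz

theorem ctf_zero {a b : ℝ} {z : ℂ} (hz : b ≤ ‖z‖) : ctf a b z = 0 := by
  by_cases h : 0 < a ∧ a < b
  · have h1 : ctf a b z = (((⟨a, b, h.1, h.2⟩ : ContDiffBump (0 : ℂ)) z : ℝ) : ℂ) := dif_pos h
    rw [h1, (⟨a, b, h.1, h.2⟩ : ContDiffBump (0 : ℂ)).zero_of_le_dist, Complex.ofReal_zero]
    rw [dist_zero_right]
    exact hz
  · exact dif_neg h

theorem ctf_real (a b : ℝ) (z : ℂ) : (starRingEnd ℂ) (ctf a b z) = ctf a b z := by
  by_cases h : 0 < a ∧ a < b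
  · have h1 : ctf a b z = (((⟨a, b, h.1, h.2⟩ : ContDiffBump (0 : ℂ)) z : ℝ) : ℂ) := dif_pos h
    rw [h1, Complex.conj_ofReal]
  · have h1 : ctf a b z = 0 := dif_neg h
    rw [h1, map_zero]

theorem ctf_norm (a b : ℝ) (z : ℂ) : ‖ctf a b z‖ ≤ 1 := by
  by_cases h : 0 < a ∧ a < b
  · have h1 : ctf a b z = (((⟨a, b, h.1, h.2⟩ : ContDiffBump (0 : ℂ)) z : ℝ) : ℂ) := dif_pos h
    rw [h1, Complex.norm_real, Real.norm_of_nonneg (ContDiffBump.nonneg _)]
    exact ContDiffBump.le_one _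
  · have h1 : ctf a b z = 0 := dif_neg h
    rw [h1, norm_zero]
    exact zero_le_one

end Pool.Agent.BB4B37
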