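import Pool.Agent.W_bb4b37_h5.P.Cb

/-! # Continuity of L and Q in the 2-jet -/

set_option autoImplicit false

namespace Pool.Agent.BB4B37

open Complex Filter Topology Set MeasureTheory BoundedContinuousFunction
open scoped FourierTransform

/-- `Lc`, `Qc` are continuous in the 2-jet -/
theorem LQ_tendsto (f : ℕ → ℂ → ℝ) (g : ℂ → ℝ) (z : ℂ) (hf : ∀ᶠ n in atTop, ContDiffAt ℝ 2 (f n) z)
    (hg : ContDiffAt ℝ 2 g z) (h : ∀ j : ℕ, j ≤ 2 →
      Tendsto (fun n => iteratedFDeriv ℝ j (f n) z) atTop (𝓝 (iteratedFDeriv ℝ j g z))) :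
    Tendsto (fun n => Lc (f n) z) atTop (𝓝 (Lc g z)) ∧
      Tendsto (fun n => Qc (f n) z) atTop (𝓝 (Qc g z)) := by
  sorry

end Pool.Agent.BB4B37
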