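import Pool.Agent.W_bb4b37_h5.P.Penal
import Pool.Agent.W_bb4b37_h5.P.Arz
import Pool.Agent.W_bb4b37_h5.P.LQ

/-! # Passage to the limit -/

set_option autoImplicit false

namespace Pool.Agent.BB4B37

open Complex Filter Topology Set MeasureTheory BoundedContinuousFunction
open scoped FourierTransform

/-- the existence theorem -/
theorem EX_lim (n : ℕ) (c : ℝ) (hc : 0 < c) : ∃ M s₀ : ℝ, 0 < M ∧ 0 < s₀ ∧ ∀ E : Set ℂ, Adm c E →
    ∀ s : ℝ, 0 ≤ s → s ≤ s₀ → ∃ φ : ℂ → ℝ, Sol n s M E φ := by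
  sorry

end Pool.Agent.BB4B37
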