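import Pool.Agent.W_bb4b37_h5.P.Res

/-! # Liouville equation on the plane -/

set_option autoImplicit false

namespace Pool.Agent.BB4B37

open Complex Filter Topology Set MeasureTheory BoundedContinuousFunction
open scoped FourierTransform

/-- Liouville equation with positive bounded source -/
theorem liou_solve (f : ℂ → ℝ) (hf : Cbf f) (f₀ F : ℝ) (h0 : 0 < f₀) (h1 : ∀ z, f₀ ≤ f z)
    (h2 : ∀ z, f z ≤ F) : ∃ φ : ℂ → ℝ, Cbf φ ∧ (∀ z, lap φ z = Real.exp (2 * φ z) - f z) ∧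
      ∀ z, Real.log f₀ / 2 ≤ φ z ∧ φ z ≤ Real.log F / 2 := by
  sorry

end Pool.Agent.BB4B37
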