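import Pool.Agent.W_bb4b37_h5.P.W2

/-! # Exponentials -/

set_option autoImplicit false

namespace Pool.Agent.BB4B37

open Complex Filter Topology Set MeasureTheory BoundedContinuousFunction
open scoped FourierTransform

/-- partial sums of the exponential series from the exponent `l + 1` on -/
noncomputable def W5_T (f : ℂ → ℂ) (l N : ℕ) (z : ℂ) : ℂ :=
  ∑ n ∈ Finset.range (N + 1), (1 / ((n + l + 1).factorial : ℂ)) * f z ^ (n + l + 1)

theorem W5_CC_pow {f : ℂ → ℂ} (hf : CC f) (n : ℕ) : CC (fun z => f z ^ (n + 1)) := by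
  induction n with
  | zero => simpa using hf
  | succ n ih =>
    have h := CC.mul hf ih.smooth
    have h2 : (fun z => f z ^ (n + 1 + 1)) = fun z => f z * f z ^ (n + 1) := by
      funext z
      ring
    rw [h2]
    exact h

theorem W5_wn_pow (k : ℕ) {f : ℂ → ℂ} (hf : CC f) (n : ℕ) :
    wn k (fun z => f z ^ (n + 1)) ≤ wn k f ^ (n + 1) := by
  induction n with
  | zero => simp
  | succ n ih =>
    have h2 : (fun z => f z ^ (n + 1 + 1)) = fun z => f z * f z ^ (n + 1) := by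
      funext z
      ring
    rw [h2]
    calc wn k (fun z => f z * f z ^ (n + 1))
        ≤ wn k f * wn k (fun z => f z ^ (n + 1)) := wn_mul k hf (W5_CC_pow hf n)
      _ ≤ wn k f * wn k f ^ (n + 1) := mul_le_mul_of_nonneg_left ih (wn_nonneg k f)
      _ = wn k f ^ (n + 1 + 1) := by ring

theorem W5_CC_smul {f : ℂ → ℂ} (hf : CC f) (c : ℂ) : CC (fun z => c * f z) := by
  have h := CC.mul hf (g := fun _ => c) (fun n => contDiff_const)
  have h2 : (fun z => c * f z) = fun z => f z * c := by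
    funext z
    ring
  rw [h2]
  exact h

theorem W5_T_zero (f : ℂ → ℂ) (l : ℕ) :
    W5_T f l 0 = fun z => (1 / ((0 + l + 1).factorial : ℂ)) * f z ^ (0 + l + 1) := by
  funext z
  simp [W5_T]

theorem W5_T_succ (f : ℂ → ℂ) (l N : ℕ) :
    W5_T f l (N + 1) = fun z => W5_T f l N z
      + (1 / ((N + 1 + l + 1).factorial : ℂ)) * f z ^ (N + 1 + l + 1) := by
  funext z
  unfold W5_T
  rw [Finset.sum_range_succ]

theorem W5_CC_T {f : ℂ → ℂ} (hf : CC f) (l N : ℕ) : CC (W5_T f l N) := by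
  induction N with
  | zero =>
    rw [W5_T_zero]
    exact W5_CC_smul (W5_CC_pow hf (0 + l)) _
  | succ N ih =>
    rw [W5_T_succ]
    exact CC.add ih (W5_CC_smul (W5_CC_pow hf (N + 1 + l)) _)

theorem W5_wn_term (k : ℕ) {f : ℂ → ℂ} (hf : CC f) (n : ℕ) :
    wn k (fun z => (1 / ((n + 1).factorial : ℂ)) * f z ^ (n + 1))
      ≤ wn k f ^ (n + 1) / ((n + 1).factorial : ℝ) := by
  rw [wn_smul k _ (W5_CC_pow hf n), norm_div, norm_one, Complex.norm_natCast, div_mul_eq_mul_div,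
    one_mul]
  exact div_le_div_of_nonneg_right (W5_wn_pow k hf n) (Nat.cast_nonneg _)

theorem W5_wn_T (k : ℕ) {f : ℂ → ℂ} (hf : CC f) (l N : ℕ) :
    wn k (W5_T f l N) ≤
      ∑ n ∈ Finset.range (N + 1), wn k f ^ (n + l + 1) / ((n + l + 1).factorial : ℝ) := by
  induction N with
  | zero =>
    rw [W5_T_zero, Finset.sum_range_one]
    exact W5_wn_term k hf (0 + l)
  | succ N ih =>
    rw [W5_T_succ, Finset.sum_range_succ]
    refine (wn_add k (W5_CC_T hf l N) (W5_CC_smul (W5_CC_pow hf (N + 1 + l)) _)).trans ?_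
    exact add_le_add ih (W5_wn_term k hf (N + 1 + l))

theorem W5_sum_le {x : ℝ} (hx : 0 ≤ x) (l N : ℕ) :
    ∑ n ∈ Finset.range N, x ^ (n + l + 1) / ((n + l + 1).factorial : ℝ)
      ≤ Real.exp x - ∑ i ∈ Finset.range (l + 1), x ^ i / (i.factorial : ℝ) := by
  have h := Real.sum_le_exp_of_nonneg hx ((l + 1) + N)
  rw [Finset.sum_range_add] at h
  have h2 : ∑ n ∈ Finset.range N, x ^ (n + l + 1) / ((n + l + 1).factorial : ℝ)
      = ∑ n ∈ Finset.range N, x ^ (l + 1 + n) / ((l + 1 + n).factorial : ℝ) := by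
    refine Finset.sum_congr rfl fun n _ => ?_
    have h3 : n + l + 1 = l + 1 + n := by ring
    rw [h3]
  rw [h2]
  linarith

theorem W5_lim (k : ℕ) {g : ℂ → ℂ} (hg : CC g) {h : ℕ → ℂ → ℂ} (hh : ∀ N, CC (h N))
    (hF : ∀ ξ, Tendsto (fun N => 𝓕 (h N) ξ) atTop (𝓝 (𝓕 g ξ))) {B : ℝ}
    (hB : ∀ N, wn k (h N) ≤ B) : wn k g ≤ B := by
  have hB0 : 0 ≤ B := (wn_nonneg k (h 0)).trans (hB 0)
  rw [← ENNReal.ofReal_le_ofReal_iff hB0]
  have hnn : ∀ u : ℂ → ℂ, 0 ≤ᵐ[volume] fun ξ : ℂ => (1 + ‖ξ‖) ^ k * ‖𝓕 u ξ‖ := fun u =>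
    ae_of_all _ fun ξ => by positivity
  have h1 : ∀ u : ℂ → ℂ, CC u → ENNReal.ofReal (wn k u)
      = ∫⁻ ξ : ℂ, ENNReal.ofReal ((1 + ‖ξ‖) ^ k * ‖𝓕 u ξ‖) := fun u hu =>
    ofReal_integral_eq_lintegral_ofReal (wn_integrable hu k) (hnn u)
  rw [h1 g hg]
  calc ∫⁻ ξ : ℂ, ENNReal.ofReal ((1 + ‖ξ‖) ^ k * ‖𝓕 g ξ‖)
      = ∫⁻ ξ : ℂ, liminf (fun N => ENNReal.ofReal ((1 + ‖ξ‖) ^ k * ‖𝓕 (h N) ξ‖)) atTop := by
        refine lintegral_congr fun ξ => ?_
        exact (ENNReal.tendsto_ofReal (((hF ξ).norm).const_mul _)).liminf_eq.symm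
    _ ≤ liminf (fun N => ∫⁻ ξ : ℂ, ENNReal.ofReal ((1 + ‖ξ‖) ^ k * ‖𝓕 (h N) ξ‖)) atTop :=
        lintegral_liminf_le' fun N =>
          (wn_integrable (hh N) k).aestronglyMeasurable.aemeasurable.ennreal_ofReal
    _ ≤ ENNReal.ofReal B := by
        refine liminf_le_of_frequently_le' (Frequently.of_forall fun N => ?_)
        rw [← h1 (h N) (hh N)]
        exact ENNReal.ofReal_le_ofReal (hB N)

theorem W5_bound_integrable {f : ℂ → ℂ} (hf : CC f) :
    Integrable (fun v : ℂ => Real.exp ‖f v‖ - 1) := by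
  have hc : Continuous f := (hf.smooth 0).continuous
  refine Continuous.integrable_of_hasCompactSupport (by fun_prop) ?_
  refine hf.supp.mono' ?_
  refine Set.Subset.trans ?_ (subset_tsupport f)
  intro v hv hfv
  apply hv
  show Real.exp ‖f v‖ - 1 = 0
  rw [hfv, norm_zero, Real.exp_zero, sub_self]

theorem W5_norm_T (f : ℂ → ℂ) (l N : ℕ) (v : ℂ) : ‖W5_T f l N v‖ ≤ Real.exp ‖f v‖ - 1 := by
  have h1 : ‖W5_T f l N v‖
      ≤ ∑ n ∈ Finset.range (N + 1), ‖f v‖ ^ (n + l + 1) / ((n + l + 1).factorial : ℝ) := by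
    unfold W5_T
    refine (norm_sum_le _ _).trans (Finset.sum_le_sum fun n _ => le_of_eq ?_)
    rw [norm_mul, norm_div, norm_one, Complex.norm_natCast, norm_pow, div_mul_eq_mul_div, one_mul]
  refine h1.trans ((W5_sum_le (norm_nonneg (f v)) l (N + 1)).trans ?_)
  have h2 : (1 : ℝ) ≤ ∑ i ∈ Finset.range (l + 1), ‖f v‖ ^ i / (i.factorial : ℝ) := by
    rw [Finset.sum_range_succ']
    have h3 : 0 ≤ ∑ i ∈ Finset.range l, ‖f v‖ ^ (i + 1) / ((i + 1).factorial : ℝ) :=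
      Finset.sum_nonneg fun i _ => by positivity
    simp only [pow_zero, Nat.factorial_zero, Nat.cast_one, div_one]
    linarith
  linarith

theorem W5_T_tendsto (f : ℂ → ℂ) (l : ℕ) (v : ℂ) :
    Tendsto (fun N => W5_T f l N v) atTop
      (𝓝 (Complex.exp (f v) - ∑ i ∈ Finset.range (l + 1), f v ^ i / (i.factorial : ℂ))) := by
  have h1 : HasSum (fun n : ℕ => f v ^ n / (n.factorial : ℂ)) (Complex.exp (f v)) := by
    rw [Complex.exp_eq_exp_ℂ]
    exact NormedSpace.expSeries_div_hasSum_exp (f v)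
  have h2 : HasSum (fun n : ℕ => f v ^ (n + (l + 1)) / ((n + (l + 1)).factorial : ℂ))
      (Complex.exp (f v) - ∑ i ∈ Finset.range (l + 1), f v ^ i / (i.factorial : ℂ)) := by
    rw [hasSum_nat_add_iff (f := fun n : ℕ => f v ^ n / (n.factorial : ℂ)) (l + 1)]
    rw [sub_add_cancel]
    exact h1
  have h3 := h2.tendsto_sum_nat.comp (tendsto_add_atTop_nat 1)
  refine h3.congr fun N => ?_
  show ∑ n ∈ Finset.range (N + 1), f v ^ (n + (l + 1)) / ((n + (l + 1)).factorial : ℂ) = W5_T f l N v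
  unfold W5_T
  refine Finset.sum_congr rfl fun n _ => ?_
  rw [div_mul_eq_mul_div, one_mul]
  rfl

theorem W5_fourier {f g : ℂ → ℂ} (hf : CC f) (l : ℕ)
    (hg : ∀ v, g v = Complex.exp (f v) - ∑ i ∈ Finset.range (l + 1), f v ^ i / (i.factorial : ℂ))
    (ξ : ℂ) : Tendsto (fun N => 𝓕 (W5_T f l N) ξ) atTop (𝓝 (𝓕 g ξ)) := by
  simp only [Real.fourier_eq]
  refine tendsto_integral_of_dominated_convergence (fun v : ℂ => Real.exp ‖f v‖ - 1) ?_
    (W5_bound_integrable hf) ?_ ?_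
  · intro N
    refine Continuous.aestronglyMeasurable ?_
    have hc : Continuous (W5_T f l N) := ((W5_CC_T hf l N).smooth 0).continuous
    have hc2 : Continuous fun v : ℂ => Real.fourierChar (-(inner ℝ v ξ : ℝ)) :=
      Real.continuous_fourierChar.comp (by fun_prop)
    exact hc2.smul hc
  · intro N
    refine ae_of_all _ fun v => ?_
    rw [Circle.norm_smul]
    exact W5_norm_T f l N v
  · refine ae_of_all _ fun v => ?_
    refine Tendsto.const_smul ?_ _
    rw [hg v]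
    exact W5_T_tendsto f l v

theorem wn_exp (k : ℕ) {f : ℂ → ℂ} (hf : CC f) :
    wn k (fun z => Complex.exp (f z) - 1) ≤ Real.exp (wn k f) - 1 := by
  refine W5_lim k hf.exp (W5_CC_T hf 0) (W5_fourier hf 0 (fun v => by simp)) fun N => ?_
  refine (W5_wn_T k hf 0 N).trans ((W5_sum_le (wn_nonneg k f) 0 (N + 1)).trans (le_of_eq ?_))
  simp

theorem wn_exp2 (k : ℕ) {f : ℂ → ℂ} (hf : CC f) :
    wn k (fun z => Complex.exp (f z) - 1 - f z) ≤ Real.exp (wn k f) - 1 - wn k f := by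
  refine W5_lim k (hf.exp.sub hf) (W5_CC_T hf 1) (W5_fourier hf 1 (fun v => ?_)) fun N => ?_
  · simp [Finset.sum_range_succ]
    ring
  · refine (W5_wn_T k hf 1 N).trans ((W5_sum_le (wn_nonneg k f) 1 (N + 1)).trans (le_of_eq ?_))
    simp [Finset.sum_range_succ]
    ring

end Pool.Agent.BB4B37
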