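import Pool.Agent.W_bb4b37_h5.P.Step
import Pool.Agent.W_bb4b37_h5.P.W5

/-! # Local regularity for the Liouville equation -/

set_option autoImplicit false

namespace Pool.Agent.BB4B37

open Complex Filter Topology Set MeasureTheory BoundedContinuousFunction
open scoped FourierTransform

/-- local regularity for the Liouville equation with smooth right hand side -/
theorem locreg (j : ℕ) (M : ℝ) (Cf : ℕ → ℝ) : ∃ C : ℝ, 0 < C ∧ ∀ u f : ℂ → ℝ,
    (∀ n : ℕ, ContDiff ℝ n u) → (∀ n : ℕ, ContDiff ℝ n f) → (∀ z, ‖z‖ ≤ 3 → |u z| ≤ M) →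
    (∀ (i : ℕ) (z : ℂ), ‖z‖ ≤ 3 → ‖iteratedFDeriv ℝ i f z‖ ≤ Cf i) →
    (∀ z, ‖z‖ ≤ 3 → lap u z = Real.exp (2 * u z) - f z) →
    ‖iteratedFDeriv ℝ j u 0‖ ≤ C := by
  sorry

end Pool.Agent.BB4B37
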