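import Pool.Agent.W_bb4b37_h5.P.Cb

/-! # Robinson metric -/

set_option autoImplicit false

namespace Pool.Agent.BB4B37

open Complex Filter Topology Set MeasureTheory BoundedContinuousFunction
open scoped FourierTransform

/-- the Robinson metric of `ℂ ∖ {0,1}` (logarithm of its density, up to a constant): a function `w`
on the plane, smooth off `{0,1}`, with `Δ w ≥ e^{2w}` there, with conical singularities of exponent
`5/6` at `0` and `1`, tending to `-∞` at `∞` -/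
theorem robinson : ∃ (w : ℂ → ℝ) (C : ℝ), 0 < C ∧
    (∀ z, z ≠ 0 → z ≠ 1 → ContDiffAt ℝ 2 w z ∧ Real.exp (2 * w z) ≤ lap w z) ∧
    (∀ z, z ≠ 0 → ‖z‖ ≤ 1 / 4 → |w z + 5 / 6 * Real.log ‖z‖| ≤ C) ∧
    (∀ z, z ≠ 1 → ‖z - 1‖ ≤ 1 / 4 → |w z + 5 / 6 * Real.log ‖z - 1‖| ≤ C) ∧
    (∀ R : ℝ, ∃ B : ℝ, ∀ z, z ≠ 0 → z ≠ 1 → ‖z‖ ≤ R → -B ≤ w z) ∧
    Tendsto w (cocompact ℂ) atBot := by
  sorry

end Pool.Agent.BB4B37
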