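import Pool.Agent.W_bb4b37_h5.P.Ahl
import Pool.Agent.W_bb4b37_h5.P.Robin

/-! # Lower barrier -/

set_option autoImplicit false

namespace Pool.Agent.BB4B37

open Complex Filter Topology Set MeasureTheory BoundedContinuousFunction
open scoped FourierTransform

/-- lower barrier: with an absolute constant `A`, for two points `e, e'` with `16 δ ≤ |e-e'|` and a
function `φ`, bounded below, with `Δφ ≤ e^{2φ} - f`, `f ≥ 0`, `f ≥ A²/δ²` on the disks `B(e,δ)`,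
`B(e',δ)`. (Compare `φ` with `max (w_{e,e'}, h_e, h_{e'})`, where `w_{e,e'}` is the scaled Robinson
function and `h_e = H - B |z-e|²/δ²` near `e`.) -/
theorem lower_barrier : ∃ A : ℝ, 0 < A ∧ ∀ R : ℝ, ∃ D : ℝ, ∀ (φ f : ℂ → ℝ) (e e' : ℂ) (δ B : ℝ),
    0 < δ → 16 * δ ≤ ‖e - e'‖ → (∀ z, ContDiffAt ℝ 2 φ z) → (∀ z, B ≤ φ z) → (∀ z, 0 ≤ f z) →
    (∀ z, ‖z - e‖ ≤ δ → A ^ 2 / δ ^ 2 ≤ f z) → (∀ z, ‖z - e'‖ ≤ δ → A ^ 2 / δ ^ 2 ≤ f z) →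
    (∀ z, lap φ z ≤ Real.exp (2 * φ z) - f z) →
    (∀ z, ‖z - e‖ ≤ δ → -(5 / 6) * Real.log δ - 1 / 6 * Real.log ‖e - e'‖ - D ≤ φ z) ∧
    (∀ z, ‖z - e‖ ≤ R * ‖e - e'‖ → δ ≤ ‖z - e‖ → δ ≤ ‖z - e'‖ →
      -Real.log ‖e - e'‖ - D ≤ φ z) := by
  sorry

end Pool.Agent.BB4B37
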