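import Pool.Agent.W_bb4b37_h5.P.Xb

/-! # Weighted derivatives -/

set_option autoImplicit false

namespace Pool.Agent.BB4B37

open Complex Filter Topology Set MeasureTheory BoundedContinuousFunction
open scoped FourierTransform

/-- weighted derivatives -/
theorem xb_dz (k : ℕ) (C : ℕ → ℝ) (θ : ℝ) (hθ : ThetaOK C θ) : ∃ D : ℝ, 0 < D ∧
    ∀ φ : ℂ → ℝ, BG C φ → ∀ (f : ℂ → ℂ) (A : ℝ), (∀ n : ℕ, ContDiff ℝ n f) → XB (k + 1) θ φ f A →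
    XB k θ φ (fun z => (Real.exp (-φ z) : ℂ) * dz f z) (D * A) := by
  sorry

theorem xb_dzz (k : ℕ) (C : ℕ → ℝ) (θ : ℝ) (hθ : ThetaOK C θ) : ∃ D : ℝ, 0 < D ∧
    ∀ φ : ℂ → ℝ, BG C φ → ∀ (f : ℂ → ℂ) (A : ℝ), (∀ n : ℕ, ContDiff ℝ n f) → XB (k + 2) θ φ f A →
    XB k θ φ (fun z => (Real.exp (-2 * φ z) : ℂ) * dz (dz f) z) (D * A) := by
  sorry

theorem xb_lap (k : ℕ) (C : ℕ → ℝ) (θ : ℝ) (hθ : ThetaOK C θ) : ∃ D : ℝ, 0 < D ∧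
    ∀ φ : ℂ → ℝ, BG C φ → ∀ (f : ℂ → ℂ) (A : ℝ), (∀ n : ℕ, ContDiff ℝ n f) → XB (k + 2) θ φ f A →
    XB k θ φ (fun z => (Real.exp (-2 * φ z) : ℂ) * lapc f z) (D * A) := by
  sorry

/-- the background quantities are bounded -/
theorem xb_back (k : ℕ) (C : ℕ → ℝ) (θ : ℝ) (hθ : ThetaOK C θ) : ∃ D : ℝ, 0 < D ∧
    ∀ φ : ℂ → ℝ, BG C φ → XB k θ φ (fun z => (Real.exp (-φ z) : ℂ) * dz (cx φ) z) D ∧
      XB k θ φ (fun z => (Real.exp (-2 * φ z) : ℂ) * (dz (dz (cx φ)) z - dz (cx φ) z ^ 2)) D := by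
  sorry

end Pool.Agent.BB4B37
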