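import Pool.Agent.W_bb4b37_h5.P.Nop
import Pool.Agent.W_bb4b37_h5.P.Xd

/-! # Lipschitz estimate -/

set_option autoImplicit false

namespace Pool.Agent.BB4B37

open Complex Filter Topology Set MeasureTheory BoundedContinuousFunction
open scoped FourierTransform

/-- the Lipschitz estimate -/
theorem nop_lip (k : ℕ) (C : ℕ → ℝ) (θ : ℝ) (hθ : ThetaOK C θ) : ∃ D : ℝ, 0 < D ∧
    ∀ φ : ℂ → ℝ, BG C φ → ∀ (s ρ A : ℝ) (ψ₁ ψ₂ : ℂ → ℝ), 0 ≤ s → s ≤ 1 → 0 ≤ ρ → ρ ≤ 1 → 0 ≤ A →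
    (∀ n : ℕ, ContDiff ℝ n ψ₁) → (∀ n : ℕ, ContDiff ℝ n ψ₂) →
    XB (k + 2) θ φ (cx ψ₁) ρ → XB (k + 2) θ φ (cx ψ₂) ρ →
    XB (k + 2) θ φ (cx (fun z => ψ₁ z - ψ₂ z)) A →
    XB k θ φ (cx (fun z => Nop s φ ψ₁ z - Nop s φ ψ₂ z)) (D * (ρ + s ^ 2) * A) := by
  sorry

theorem nop_zero (k : ℕ) (C : ℕ → ℝ) (θ : ℝ) (hθ : ThetaOK C θ) : ∃ D : ℝ, 0 < D ∧
    ∀ φ : ℂ → ℝ, BG C φ → ∀ s : ℝ, XB k θ φ (cx (Nop s φ (fun _ => 0))) (D * s ^ 2) := by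
  sorry

end Pool.Agent.BB4B37
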