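import Pool.Agent.W_bb4b37_h5.P.Bg

/-! # The nonlinearity -/

set_option autoImplicit false

namespace Pool.Agent.BB4B37

open Complex Filter Topology Set MeasureTheory BoundedContinuousFunction
open scoped FourierTransform

/-- the nonlinearity: the K-surface equation for `φ + ψ` reads `e^{-2φ} Δψ = 2ψ + Nop s φ ψ` -/
noncomputable def Nop (s : ℝ) (φ ψ : ℂ → ℝ) (z : ℂ) : ℝ :=
  (Real.exp (2 * ψ z) - 1 - 2 * ψ z) + s ^ 2 * (Real.exp (-2 * ψ z) *
    ((1 + Real.exp (-2 * φ z) * lap ψ z) ^ 2 -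
      ‖4 * (Real.exp (-2 * φ z) : ℂ) * (dz (dz (cx (fun w => φ w + ψ w))) z -
        (dz (cx (fun w => φ w + ψ w)) z) ^ 2)‖ ^ 2))

/-! ### closure properties of `Cbf` -/

section NopClosure

variable {F G : Type*} [NormedAddCommGroup F] [NormedSpace ℝ F] [NormedAddCommGroup G]
  [NormedSpace ℝ G]

theorem Nop_mk {f : ℂ → F} (hs : ∀ n : ℕ, ContDiff ℝ n f)
    (hb : ∀ i : ℕ, ∃ B : ℝ, ∀ z, ‖iteratedFDeriv ℝ i f z‖ ≤ B) : Cbf f :=
  fun m => ⟨hs m, fun i _ => hb i⟩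

theorem Nop_smooth {f : ℂ → F} (h : Cbf f) (n : ℕ) : ContDiff ℝ n f := (h n).1

theorem Nop_bound {f : ℂ → F} (h : Cbf f) (i : ℕ) :
    ∃ B : ℝ, 0 ≤ B ∧ ∀ z, ‖iteratedFDeriv ℝ i f z‖ ≤ B := by
  obtain ⟨B, hB⟩ := (h i).2 i le_rfl
  exact ⟨max B 0, le_max_right _ _, fun z => (hB z).trans (le_max_left _ _)⟩

/-- a common bound for the derivatives of order at most `n` -/
theorem Nop_bound_le {f : ℂ → F} (h : Cbf f) (n : ℕ) :
    ∃ B : ℝ, 0 ≤ B ∧ ∀ i : ℕ, i ≤ n → ∀ z, ‖iteratedFDeriv ℝ i f z‖ ≤ B := by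
  choose B hB0 hB using fun i => Nop_bound h i
  refine ⟨∑ i ∈ Finset.range (n + 1), B i, Finset.sum_nonneg fun i _ => hB0 i, ?_⟩
  intro i hi z
  exact (hB i z).trans (Finset.single_le_sum (f := B) (fun j _ => hB0 j)
    (Finset.mem_range.mpr (by omega)))

theorem Nop_const (c : F) : Cbf (fun _ : ℂ => c) := by
  apply Nop_mk (fun n => contDiff_const)
  intro i
  rcases Nat.eq_zero_or_pos i with h | h
  · subst h
    exact ⟨‖c‖, fun z => by rw [norm_iteratedFDeriv_zero]⟩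
  · exact ⟨0, fun z => by
      rw [iteratedFDeriv_const_of_ne (by omega)]; simp⟩

theorem Nop_add {f g : ℂ → F} (hf : Cbf f) (hg : Cbf g) : Cbf (fun z => f z + g z) := by
  apply Nop_mk (fun n => (Nop_smooth hf n).add (Nop_smooth hg n))
  intro i
  obtain ⟨B, hB0, hB⟩ := Nop_bound hf i
  obtain ⟨B', hB0', hB'⟩ := Nop_bound hg i
  refine ⟨B + B', fun z => ?_⟩
  have h1 : iteratedFDeriv ℝ i (fun z => f z + g z) z =
      iteratedFDeriv ℝ i f z + iteratedFDeriv ℝ i g z :=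
    iteratedFDeriv_add_apply (Nop_smooth hf i).contDiffAt (Nop_smooth hg i).contDiffAt
  rw [h1]
  exact (norm_add_le _ _).trans (add_le_add (hB z) (hB' z))

theorem Nop_clm {f : ℂ → F} (hf : Cbf f) (L : F →L[ℝ] G) : Cbf (fun z => L (f z)) := by
  apply Nop_mk (fun n => L.contDiff.comp (Nop_smooth hf n))
  intro i
  obtain ⟨B, hB0, hB⟩ := Nop_bound hf i
  refine ⟨‖L‖ * B, fun z => ?_⟩
  have h1 := L.norm_iteratedFDeriv_comp_left (f := f) (x := z) (n := i)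
    (Nop_smooth hf i).contDiffAt le_rfl
  exact h1.trans (mul_le_mul_of_nonneg_left (hB z) (norm_nonneg _))

theorem Nop_fderiv {f : ℂ → F} (hf : Cbf f) : Cbf (fun z => fderiv ℝ f z) := by
  apply Nop_mk
  · intro n
    exact (Nop_smooth hf (n + 1)).fderiv_right (m := n) (by push_cast; exact le_rfl)
  · intro i
    obtain ⟨B, hB0, hB⟩ := Nop_bound hf (i + 1)
    refine ⟨B, fun z => ?_⟩
    have h1 : ‖iteratedFDeriv ℝ i (fun z => fderiv ℝ f z) z‖ = ‖iteratedFDeriv ℝ (i + 1) f z‖ :=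
      norm_iteratedFDeriv_fderiv
    rw [h1]; exact hB z

theorem Nop_px {f : ℂ → F} (hf : Cbf f) : Cbf (px f) :=
  Nop_clm (Nop_fderiv hf) (ContinuousLinearMap.apply ℝ F (1 : ℂ))

theorem Nop_py {f : ℂ → F} (hf : Cbf f) : Cbf (py f) :=
  Nop_clm (Nop_fderiv hf) (ContinuousLinearMap.apply ℝ F (I : ℂ))

end NopClosure

theorem Nop_mul {A : Type*} [NormedRing A] [NormedAlgebra ℝ A] {f g : ℂ → A} (hf : Cbf f)
    (hg : Cbf g) : Cbf (fun z => f z * g z) := by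
  apply Nop_mk (fun n => (Nop_smooth hf n).mul (Nop_smooth hg n))
  intro i
  obtain ⟨B, hB0, hB⟩ := Nop_bound_le hf i
  obtain ⟨B', hB0', hB'⟩ := Nop_bound_le hg i
  refine ⟨∑ j ∈ Finset.range (i + 1), (i.choose j : ℝ) * B * B', fun z => ?_⟩
  refine (norm_iteratedFDeriv_mul_le (Nop_smooth hf i) (Nop_smooth hg i) z (n := i)
    le_rfl).trans ?_
  apply Finset.sum_le_sum
  intro j hj
  have hj' : j ≤ i := by have := Finset.mem_range.mp hj; omega
  have h1 : (i.choose j : ℝ) * ‖iteratedFDeriv ℝ j f z‖ ≤ (i.choose j : ℝ) * B :=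
    mul_le_mul_of_nonneg_left (hB j hj' z) (Nat.cast_nonneg _)
  exact mul_le_mul h1 (hB' (i - j) (Nat.sub_le _ _) z) (norm_nonneg _)
    (mul_nonneg (Nat.cast_nonneg _) hB0)

theorem Nop_sub {F : Type*} [NormedAddCommGroup F] [NormedSpace ℝ F] {f g : ℂ → F} (hf : Cbf f)
    (hg : Cbf g) : Cbf (fun z => f z - g z) := by
  have h1 := Nop_clm hg (-(ContinuousLinearMap.id ℝ F))
  have h2 := Nop_add hf h1
  have h3 : (fun z => f z - g z) = fun z => f z + (-(ContinuousLinearMap.id ℝ F)) (g z) := by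
    funext z
    simp [sub_eq_add_neg]
  rw [h3]; exact h2

theorem Nop_exp {f : ℂ → ℝ} (hf : Cbf f) : Cbf (fun z => Real.exp (f z)) := by
  apply Nop_mk (fun n => Real.contDiff_exp.comp (Nop_smooth hf n))
  intro i
  obtain ⟨B, hB0, hB⟩ := Nop_bound_le hf i
  refine ⟨(i.factorial : ℝ) * Real.exp B * (max B 1) ^ i, fun z => ?_⟩
  apply norm_iteratedFDeriv_comp_le (g := Real.exp) (f := f) (N := i) Real.contDiff_exp
    (Nop_smooth hf i) le_rfl
  · intro j hj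
    rw [norm_iteratedFDeriv_eq_norm_iteratedDeriv, iteratedDeriv_eq_iterate, Real.iter_deriv_exp,
      Real.norm_eq_abs, Real.abs_exp]
    apply Real.exp_le_exp.mpr
    have := hB 0 (Nat.zero_le _) z
    rw [norm_iteratedFDeriv_zero, Real.norm_eq_abs] at this
    exact (le_abs_self _).trans this
  · intro j hj1 hj
    have h1 : (1 : ℝ) ≤ max B 1 := le_max_right _ _
    calc ‖iteratedFDeriv ℝ j f z‖ ≤ B := hB j hj z
      _ ≤ max B 1 := le_max_left _ _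
      _ = (max B 1) ^ 1 := (pow_one _).symm
      _ ≤ (max B 1) ^ j := pow_le_pow_right₀ h1 hj1

theorem Nop_cx {f : ℂ → ℝ} (hf : Cbf f) : Cbf (cx f) := Nop_clm hf ofRealCLM

theorem Nop_dz {f : ℂ → ℂ} (hf : Cbf f) : Cbf (dz f) := by
  have h1 := Nop_sub (Nop_px hf) (Nop_mul (Nop_const I) (Nop_py hf))
  have h2 := Nop_mul h1 (Nop_const ((1 : ℂ) / 2))
  have h3 : dz f = fun z => (px f z - I * py f z) * ((1 : ℂ) / 2) := by
    funext z; rw [dz]; ring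
  rw [h3]; exact h2

theorem Nop_dzb {f : ℂ → ℂ} (hf : Cbf f) : Cbf (dzb f) := by
  have h1 := Nop_add (Nop_px hf) (Nop_mul (Nop_const I) (Nop_py hf))
  have h2 := Nop_mul h1 (Nop_const ((1 : ℂ) / 2))
  have h3 : dzb f = fun z => (px f z + I * py f z) * ((1 : ℂ) / 2) := by
    funext z; rw [dzb]; ring
  rw [h3]; exact h2

theorem Nop_lap {f : ℂ → ℝ} (hf : Cbf f) : Cbf (lap f) :=
  Nop_add (Nop_px (Nop_px hf)) (Nop_py (Nop_py hf))

theorem Nop_normsq {f : ℂ → ℂ} (hf : Cbf f) : Cbf (fun z => ‖f z‖ ^ 2) := by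
  have h1 := Nop_clm hf reCLM
  have h2 := Nop_clm hf imCLM
  have h3 := Nop_add (Nop_mul h1 h1) (Nop_mul h2 h2)
  have h4 : (fun z => ‖f z‖ ^ 2) = fun z => reCLM (f z) * reCLM (f z) + imCLM (f z) * imCLM (f z) := by
    funext z
    rw [← normSq_eq_norm_sq, normSq_apply, reCLM_apply, imCLM_apply]
  rw [h4]; exact h3

theorem nop_cbf (s : ℝ) (φ ψ : ℂ → ℝ) (hφ : Cbf φ) (hψ : Cbf ψ) : Cbf (Nop s φ ψ) := by
  have hψe : Cbf (fun z => Real.exp (2 * ψ z)) := Nop_exp (Nop_mul (Nop_const 2) hψ)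
  have hψm : Cbf (fun z => Real.exp (-2 * ψ z)) := Nop_exp (Nop_mul (Nop_const (-2)) hψ)
  have hφm : Cbf (fun z => Real.exp (-2 * φ z)) := Nop_exp (Nop_mul (Nop_const (-2)) hφ)
  have hsum : Cbf (cx (fun w => φ w + ψ w)) := Nop_cx (Nop_add hφ hψ)
  have hd := Nop_dz hsum
  have hdd := Nop_dz hd
  have hL : Cbf (fun z => 1 + Real.exp (-2 * φ z) * lap ψ z) :=
    Nop_add (Nop_const 1) (Nop_mul hφm (Nop_lap hψ))
  have hQ : Cbf (fun z => 4 * (Real.exp (-2 * φ z) : ℂ) * (dz (dz (cx (fun w => φ w + ψ w))) z -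
        (dz (cx (fun w => φ w + ψ w)) z) * (dz (cx (fun w => φ w + ψ w)) z))) :=
    Nop_mul (Nop_mul (Nop_const 4) (Nop_cx hφm)) (Nop_sub hdd (Nop_mul hd hd))
  have h1 : Cbf (fun z => Real.exp (2 * ψ z) - 1 - 2 * ψ z) :=
    Nop_sub (Nop_sub hψe (Nop_const 1)) (Nop_mul (Nop_const 2) hψ)
  have h2 := Nop_add h1 (Nop_mul (Nop_const (s ^ 2))
    (Nop_mul hψm (Nop_sub (Nop_mul hL hL) (Nop_normsq hQ))))
  have h3 : Nop s φ ψ = fun z => (Real.exp (2 * ψ z) - 1 - 2 * ψ z) + s ^ 2 *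
      (Real.exp (-2 * ψ z) * ((1 + Real.exp (-2 * φ z) * lap ψ z) *
        (1 + Real.exp (-2 * φ z) * lap ψ z) -
      ‖4 * (Real.exp (-2 * φ z) : ℂ) * (dz (dz (cx (fun w => φ w + ψ w))) z -
        (dz (cx (fun w => φ w + ψ w)) z) * (dz (cx (fun w => φ w + ψ w)) z))‖ ^ 2)) := by
    funext z
    rw [Nop, pow_two (1 + Real.exp (-2 * φ z) * lap ψ z),
      pow_two (dz (cx (fun w => φ w + ψ w)) z)]
  rw [h3]; exact h2

end Pool.Agent.BB4B37
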