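import Pool.Agent.W_bb4b37_h5.P.Cb

/-! # Maximum principle at infinity -/

set_option autoImplicit false

namespace Pool.Agent.BB4B37

open Complex Filter Topology Set MeasureTheory BoundedContinuousFunction
open scoped FourierTransform

theorem Omori_hasDerivAt (f : ℂ → ℝ) (z v : ℂ) (t : ℝ) (hf : DifferentiableAt ℝ f (z + t • v)) :
    HasDerivAt (fun s : ℝ => f (z + s • v)) (fderiv ℝ f (z + t • v) v) t := by
  have h1 : HasDerivAt (fun s : ℝ => z + s • v) v t := by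
    have h2 : HasDerivAt (fun s : ℝ => s • v) ((1 : ℝ) • v) t := (hasDerivAt_id t).smul_const v
    rw [one_smul] at h2
    exact h2.const_add z
  exact hf.hasFDerivAt.comp_hasDerivAt t h1

theorem Omori_hasDerivAt2 (f : ℂ → ℝ) (z v : ℂ) (hf : ContDiffAt ℝ 2 f z) :
    HasDerivAt (fun s : ℝ => fderiv ℝ f (z + s • v) v) (iteratedFDeriv ℝ 2 f z ![v, v]) 0 := by
  have h1 : HasDerivAt (fun s : ℝ => z + s • v) v 0 := by
    have h2 : HasDerivAt (fun s : ℝ => s • v) ((1 : ℝ) • v) 0 := (hasDerivAt_id (0 : ℝ)).smul_const v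
    rw [one_smul] at h2
    exact h2.const_add z
  have h3 : DifferentiableAt ℝ (fderiv ℝ f) z :=
    (hf.fderiv_right (m := 1) (by norm_num)).differentiableAt (by norm_num)
  have h3' : DifferentiableAt ℝ (fderiv ℝ f) (z + (0 : ℝ) • v) := by
    rw [zero_smul, add_zero]
    exact h3
  have h4 : HasDerivAt (fun s : ℝ => fderiv ℝ f (z + s • v))
      (fderiv ℝ (fderiv ℝ f) (z + (0 : ℝ) • v) v) 0 := h3'.hasFDerivAt.comp_hasDerivAt 0 h1
  have h5 := h4.clm_apply (hasDerivAt_const (0 : ℝ) v)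
  rw [iteratedFDeriv_two_apply]
  simpa using h5

/-- second derivative test in dimension one -/
theorem Omori_test (φ φ' : ℝ → ℝ) (a : ℝ) (hmax : IsLocalMax φ 0)
    (h1 : ∀ᶠ t in 𝓝 (0 : ℝ), HasDerivAt φ (φ' t) t) (h2 : HasDerivAt φ' a 0) : φ' 0 = 0 ∧ a ≤ 0 := by
  have h0 : φ' 0 = 0 := hmax.hasDerivAt_eq_zero h1.self_of_nhds
  refine ⟨h0, ?_⟩
  by_contra hneg
  push Not at hneg
  have e1 : deriv φ =ᶠ[𝓝 0] φ' := h1.mono fun t ht => ht.deriv
  have e2 : deriv (deriv φ) 0 = a := by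
    rw [e1.deriv_eq]
    exact h2.deriv
  have hmin : IsLocalMin φ 0 := isLocalMin_of_deriv_deriv_pos (by rw [e2]; exact hneg)
    (by rw [h1.self_of_nhds.deriv, h0]) h1.self_of_nhds.continuousAt
  have hconst : φ =ᶠ[𝓝 0] fun _ => φ 0 := by
    filter_upwards [hmax, hmin] with t ht1 ht2
    exact le_antisymm ht1 ht2
  have e3 : deriv φ =ᶠ[𝓝 0] deriv (fun _ => φ 0) := hconst.deriv
  have e4 : deriv (deriv φ) 0 = 0 := by
    rw [e3.deriv_eq]
    simp
  linarith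

/-- the function `log (2 + |z|^2)` along a line -/
theorem Omori_log (z v : ℂ) (t : ℝ) :
    HasDerivAt (fun s : ℝ => Real.log (2 + ‖z + s • v‖ ^ 2))
      ((2 * (z.re * v.re + z.im * v.im) + 2 * t * ‖v‖ ^ 2) / (2 + ‖z + t • v‖ ^ 2)) t := by
  have hn : ∀ s : ℝ, ‖z + s • v‖ ^ 2 = ‖z‖ ^ 2 + 2 * s * (z.re * v.re + z.im * v.im) + s ^ 2 * ‖v‖ ^ 2 := by
    intro s
    rw [← Complex.normSq_eq_norm_sq, ← Complex.normSq_eq_norm_sq, ← Complex.normSq_eq_norm_sq]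
    simp only [Complex.normSq_apply, Complex.add_re, Complex.add_im, Complex.real_smul,
      Complex.mul_re, Complex.mul_im, Complex.ofReal_re, Complex.ofReal_im]
    ring
  have hf : (fun s : ℝ => Real.log (2 + ‖z + s • v‖ ^ 2))
      = fun s : ℝ => Real.log (2 + (‖z‖ ^ 2 + 2 * s * (z.re * v.re + z.im * v.im) + s ^ 2 * ‖v‖ ^ 2)) := by
    funext s
    rw [hn s]
  rw [hf, hn t]
  have h1 : HasDerivAt (fun s : ℝ => 2 + (‖z‖ ^ 2 + 2 * s * (z.re * v.re + z.im * v.im) + s ^ 2 * ‖v‖ ^ 2))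
      (2 * (z.re * v.re + z.im * v.im) + 2 * t * ‖v‖ ^ 2) t := by
    have h2 : HasDerivAt (fun s : ℝ => 2 * s * (z.re * v.re + z.im * v.im))
        (2 * (z.re * v.re + z.im * v.im)) t := by
      have := ((hasDerivAt_id t).const_mul 2).mul_const (z.re * v.re + z.im * v.im)
      simpa using this
    have h3 : HasDerivAt (fun s : ℝ => s ^ 2 * ‖v‖ ^ 2) (2 * t * ‖v‖ ^ 2) t := by
      have := (hasDerivAt_pow 2 t).mul_const (‖v‖ ^ 2)
      simpa using this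
    exact ((h2.const_add (‖z‖ ^ 2)).add h3).const_add 2
  have hpos : (2 : ℝ) + (‖z‖ ^ 2 + 2 * t * (z.re * v.re + z.im * v.im) + t ^ 2 * ‖v‖ ^ 2) ≠ 0 := by
    rw [← hn t]
    positivity
  exact h1.log hpos

theorem Omori_log2 (z v : ℂ) :
    HasDerivAt (fun t : ℝ => (2 * (z.re * v.re + z.im * v.im) + 2 * t * ‖v‖ ^ 2) / (2 + ‖z + t • v‖ ^ 2))
      ((2 * ‖v‖ ^ 2 * (2 + ‖z‖ ^ 2) - (2 * (z.re * v.re + z.im * v.im)) * (2 * (z.re * v.re + z.im * v.im)))
        / (2 + ‖z‖ ^ 2) ^ 2) 0 := by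
  have hn : ∀ s : ℝ, ‖z + s • v‖ ^ 2 = ‖z‖ ^ 2 + 2 * s * (z.re * v.re + z.im * v.im) + s ^ 2 * ‖v‖ ^ 2 := by
    intro s
    rw [← Complex.normSq_eq_norm_sq, ← Complex.normSq_eq_norm_sq, ← Complex.normSq_eq_norm_sq]
    simp only [Complex.normSq_apply, Complex.add_re, Complex.add_im, Complex.real_smul,
      Complex.mul_re, Complex.mul_im, Complex.ofReal_re, Complex.ofReal_im]
    ring
  set q := z.re * v.re + z.im * v.im with hq
  have h1 : HasDerivAt (fun t : ℝ => 2 * q + 2 * t * ‖v‖ ^ 2) (2 * ‖v‖ ^ 2) 0 := by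
    have := (((hasDerivAt_id (0 : ℝ)).const_mul 2).mul_const (‖v‖ ^ 2)).const_add (2 * q)
    simpa using this
  have h2 : HasDerivAt (fun t : ℝ => 2 + ‖z + t • v‖ ^ 2) (2 * q) 0 := by
    have hf : (fun t : ℝ => 2 + ‖z + t • v‖ ^ 2)
        = fun s : ℝ => 2 + (‖z‖ ^ 2 + 2 * s * q + s ^ 2 * ‖v‖ ^ 2) := by
      funext s
      rw [hn s]
    rw [hf]
    have h2 : HasDerivAt (fun s : ℝ => 2 * s * q) (2 * q) 0 := by
      have := ((hasDerivAt_id (0 : ℝ)).const_mul 2).mul_const q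
      simpa using this
    have h3 : HasDerivAt (fun s : ℝ => s ^ 2 * ‖v‖ ^ 2) (2 * 0 * ‖v‖ ^ 2) 0 := by
      have := (hasDerivAt_pow 2 (0 : ℝ)).mul_const (‖v‖ ^ 2)
      simpa using this
    have h4 := ((h2.const_add (‖z‖ ^ 2)).add h3).const_add 2
    simpa using h4
  have h5 := h1.div h2 (by positivity)
  have h6 := h5
  simp only [zero_smul, add_zero, mul_zero, zero_mul] at h6
  exact h6

/-- maximum principle at infinity (Omori-Yau) on the complement of `E`, with the help of a function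
`g` comparable to `-log dist(.,E)`: maximise `w - δ g - δ' log (2+|z|²)` -/
theorem omori (M : ℝ) (E : Set ℂ) (hE : IsClosed E) (hne : E.Nonempty)
    (hn : ∀ z, Metric.infDist z E ≤ 1) (g : ℂ → ℝ) (hg : ContDiffOn ℝ 2 g Eᶜ)
    (hg0 : ∀ z ∉ E, |g z + Real.log (Metric.infDist z E)| ≤ M)
    (hg1 : ∀ z ∉ E, ‖iteratedFDeriv ℝ 1 g z‖ * Metric.infDist z E ≤ M)
    (hg2 : ∀ z ∉ E, ‖iteratedFDeriv ℝ 2 g z‖ * Metric.infDist z E ^ 2 ≤ M)
    (w : ℂ → ℝ) (hw : ContDiffOn ℝ 2 w Eᶜ) (B : ℝ) (hB : ∀ z ∉ E, w z ≤ B) (z₀ : ℂ) (hz₀ : z₀ ∉ E)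
    (η : ℝ) (hη : 0 < η) :
    ∃ z ∉ E, w z₀ - η ≤ w z ∧ ‖fderiv ℝ w z‖ * Metric.infDist z E ≤ η ∧
      ∀ v : ℂ, iteratedFDeriv ℝ 2 w z ![v, v] * Metric.infDist z E ^ 2 ≤ η * ‖v‖ ^ 2 := by
  have hpos : ∀ z ∉ E, 0 < Metric.infDist z E := fun z hz =>
    (hE.notMem_iff_infDist_pos hne).1 hz
  have hopen : IsOpen Eᶜ := hE.isOpen_compl
  have hM : 0 ≤ M := (abs_nonneg _).trans (hg0 z₀ hz₀)
  have hgM : ∀ z ∉ E, -M ≤ g z := by
    intro z hz
    have h1 := abs_le.1 (hg0 z hz)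
    have h2 : Real.log (Metric.infDist z E) ≤ 0 := Real.log_nonpos (hpos z hz).le (hn z)
    linarith [h1.1]
  set ℓ : ℂ → ℝ := fun z => Real.log (2 + ‖z‖ ^ 2) with hℓ
  have hℓ0 : ∀ z, 0 ≤ ℓ z := fun z => Real.log_nonneg (by nlinarith [sq_nonneg ‖z‖])
  -- the parameter
  set δ : ℝ := η / (|g z₀| + ℓ z₀ + M + M + 2) with hδdef
  have hden : 0 < |g z₀| + ℓ z₀ + M + M + 2 := by
    have := abs_nonneg (g z₀)
    have := hℓ0 z₀
    linarith
  have hδ : 0 < δ := div_pos hη hden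
  have hδη : δ * (|g z₀| + ℓ z₀ + M + M + 2) = η := by
    rw [hδdef]
    field_simp
  set F : ℂ → ℝ := fun z => w z - δ * (g z + ℓ z) with hF
  -- the compact set
  set R : ℝ := (B - F z₀) / δ with hR
  have hKsub : ∀ z ∉ E, F z₀ ≤ F z → g z + ℓ z ≤ R := by
    intro z hz h
    rw [hR, le_div_iff₀ hδ]
    have h1 := hB z hz
    have h2 : F z = w z - δ * (g z + ℓ z) := rfl
    rw [h2] at h
    linarith
  set K : Set ℂ := {z | Real.exp (-(R + M)) ≤ Metric.infDist z E} ∩ {z | ‖z‖ ^ 2 ≤ Real.exp (R + M)} with hK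
  have hKc : IsCompact K := by
    refine Metric.isCompact_of_isClosed_isBounded ?_ ?_
    · refine IsClosed.inter ?_ ?_
      · exact isClosed_le continuous_const (Metric.continuous_infDist_pt E)
      · exact isClosed_le (by fun_prop) continuous_const
    · rw [isBounded_iff_forall_norm_le]
      refine ⟨Real.exp (R + M) + 1, fun z hz => ?_⟩
      have h1 : ‖z‖ ^ 2 ≤ Real.exp (R + M) := hz.2
      nlinarith [norm_nonneg z, sq_nonneg (‖z‖ - 1)]
  have hKE : K ⊆ Eᶜ := by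
    intro z hz hzE
    have h1 : Real.exp (-(R + M)) ≤ Metric.infDist z E := hz.1
    rw [Metric.infDist_zero_of_mem hzE] at h1
    exact absurd h1 (not_le.2 (Real.exp_pos _))
  have hmemK : ∀ z ∉ E, F z₀ ≤ F z → z ∈ K := by
    intro z hz h
    have h1 := hKsub z hz h
    have h2 := hgM z hz
    have h3 := hℓ0 z
    have h4 := abs_le.1 (hg0 z hz)
    refine ⟨?_, ?_⟩
    · show Real.exp (-(R + M)) ≤ Metric.infDist z E
      rw [← Real.le_log_iff_exp_le (hpos z hz)]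
      linarith [h4.1, h4.2]
    · show ‖z‖ ^ 2 ≤ Real.exp (R + M)
      have h5 : ℓ z ≤ R + M := by linarith
      have h6 : 2 + ‖z‖ ^ 2 ≤ Real.exp (R + M) := by
        rw [← Real.log_le_iff_le_exp (by positivity)]
        exact h5
      linarith
  have hℓc : Continuous ℓ := by
    rw [hℓ]
    refine Continuous.log (by fun_prop) (fun z => ?_)
    positivity
  have hFc : ContinuousOn F K := by
    have h1 : ContinuousOn w K := hw.continuousOn.mono hKE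
    have h2 : ContinuousOn g K := hg.continuousOn.mono hKE
    exact h1.sub (continuousOn_const.mul (h2.add hℓc.continuousOn))
  obtain ⟨z, hzK, hzmax⟩ := hKc.exists_isMaxOn ⟨z₀, hmemK z₀ hz₀ le_rfl⟩ hFc
  have hzE : z ∉ E := hKE hzK
  have hz0 : F z₀ ≤ F z := hzmax (hmemK z₀ hz₀ le_rfl)
  have hglob : ∀ y ∉ E, F y ≤ F z := by
    intro y hy
    by_cases h : F z₀ ≤ F y
    · exact hzmax (hmemK y hy h)
    · exact (not_le.1 h).le.trans hz0
  have hd := hpos z hzE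
  have hd1 := hn z
  have hwz : ContDiffAt ℝ 2 w z := hw.contDiffAt (hopen.mem_nhds hzE)
  have hgz : ContDiffAt ℝ 2 g z := hg.contDiffAt (hopen.mem_nhds hzE)
  -- the derivatives along lines
  have key : ∀ v : ℂ, fderiv ℝ w z v = δ * (fderiv ℝ g z v +
        2 * (z.re * v.re + z.im * v.im) / (2 + ‖z‖ ^ 2)) ∧
      iteratedFDeriv ℝ 2 w z ![v, v] ≤ δ * (iteratedFDeriv ℝ 2 g z ![v, v] +
        (2 * ‖v‖ ^ 2 * (2 + ‖z‖ ^ 2) - (2 * (z.re * v.re + z.im * v.im)) * (2 * (z.re * v.re + z.im * v.im)))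
          / (2 + ‖z‖ ^ 2) ^ 2) := by
    intro v
    have hline : Tendsto (fun t : ℝ => z + t • v) (𝓝 0) (𝓝 z) := by
      have : Continuous (fun t : ℝ => z + t • v) := by fun_prop
      have h := this.tendsto 0
      simpa using h
    have hev : ∀ᶠ t in 𝓝 (0 : ℝ), z + t • v ∈ Eᶜ := hline.eventually (hopen.mem_nhds hzE)
    set φ : ℝ → ℝ := fun t => F (z + t • v) with hφ
    set φ' : ℝ → ℝ := fun t => fderiv ℝ w (z + t • v) v - δ * (fderiv ℝ g (z + t • v) v +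
      (2 * (z.re * v.re + z.im * v.im) + 2 * t * ‖v‖ ^ 2) / (2 + ‖z + t • v‖ ^ 2)) with hφ'
    have hmax : IsLocalMax φ 0 := by
      filter_upwards [hev] with t ht
      have h1 := hglob (z + t • v) ht
      show F (z + t • v) ≤ F (z + (0 : ℝ) • v)
      rwa [zero_smul, add_zero]
    have h1 : ∀ᶠ t in 𝓝 (0 : ℝ), HasDerivAt φ (φ' t) t := by
      filter_upwards [hev] with t ht
      have hwt : DifferentiableAt ℝ w (z + t • v) :=
        (hw.contDiffAt (hopen.mem_nhds ht)).differentiableAt (by norm_num)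
      have hgt : DifferentiableAt ℝ g (z + t • v) :=
        (hg.contDiffAt (hopen.mem_nhds ht)).differentiableAt (by norm_num)
      exact (Omori_hasDerivAt w z v t hwt).sub
        (((Omori_hasDerivAt g z v t hgt).add (Omori_log z v t)).const_mul δ)
    have h2 := (Omori_hasDerivAt2 w z v hwz).sub
      (((Omori_hasDerivAt2 g z v hgz).add (Omori_log2 z v)).const_mul δ)
    obtain ⟨h3, h4⟩ := Omori_test φ φ' _ hmax h1 h2
    refine ⟨?_, by linarith⟩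
    have h5 : φ' 0 = fderiv ℝ w z v - δ * (fderiv ℝ g z v +
        2 * (z.re * v.re + z.im * v.im) / (2 + ‖z‖ ^ 2)) := by
      rw [hφ']
      simp
    rw [h5] at h3
    linarith
  -- the inequality between the inner product and the norms
  have hcs : ∀ v : ℂ, |2 * (z.re * v.re + z.im * v.im) / (2 + ‖z‖ ^ 2)| ≤ ‖v‖ := by
    intro v
    have h1 : |z.re * v.re + z.im * v.im| ≤ ‖z‖ * ‖v‖ := by
      have h2 : z.re * v.re + z.im * v.im = (z * (starRingEnd ℂ) v).re := by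
        simp [Complex.mul_re]
      rw [h2]
      calc |(z * (starRingEnd ℂ) v).re| ≤ ‖z * (starRingEnd ℂ) v‖ := Complex.abs_re_le_norm _
        _ = ‖z‖ * ‖v‖ := by rw [norm_mul, Complex.norm_conj]
    rw [abs_div, abs_mul, abs_of_pos (show (0 : ℝ) < 2 by norm_num),
      abs_of_pos (show (0 : ℝ) < 2 + ‖z‖ ^ 2 by positivity), div_le_iff₀ (by positivity)]
    nlinarith [norm_nonneg v, norm_nonneg z, mul_nonneg (norm_nonneg v) (sq_nonneg (‖z‖ - 1)),
      mul_nonneg (norm_nonneg v) (norm_nonneg z)]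
  have hgz0 := hgM z hzE
  refine ⟨z, hzE, ?_, ?_, ?_⟩
  · have h1 : w z₀ - δ * (g z₀ + ℓ z₀) ≤ w z - δ * (g z + ℓ z) := hz0
    have h2 : δ * (g z₀ + ℓ z₀) ≤ δ * (|g z₀| + ℓ z₀) :=
      mul_le_mul_of_nonneg_left (by linarith [le_abs_self (g z₀)]) hδ.le
    have h3 : δ * (-M) ≤ δ * (g z + ℓ z) :=
      mul_le_mul_of_nonneg_left (by linarith [hℓ0 z]) hδ.le
    have h4 : 0 ≤ δ * (M + 2) := by positivity
    nlinarith
  · have hb : ‖fderiv ℝ w z‖ ≤ δ * (‖fderiv ℝ g z‖ + 1) := by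
      refine ContinuousLinearMap.opNorm_le_bound _ (by positivity) (fun v => ?_)
      rw [(key v).1, Real.norm_eq_abs, abs_mul, abs_of_pos hδ, mul_assoc]
      refine mul_le_mul_of_nonneg_left ?_ hδ.le
      calc |fderiv ℝ g z v + 2 * (z.re * v.re + z.im * v.im) / (2 + ‖z‖ ^ 2)|
          ≤ |fderiv ℝ g z v| + |2 * (z.re * v.re + z.im * v.im) / (2 + ‖z‖ ^ 2)| := abs_add_le _ _
        _ ≤ ‖fderiv ℝ g z‖ * ‖v‖ + ‖v‖ := by
          refine add_le_add ?_ (hcs v)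
          exact (fderiv ℝ g z).le_opNorm v
        _ = (‖fderiv ℝ g z‖ + 1) * ‖v‖ := by ring
    have hg1' : ‖fderiv ℝ g z‖ * Metric.infDist z E ≤ M := by
      rw [← norm_iteratedFDeriv_one]
      exact hg1 z hzE
    calc ‖fderiv ℝ w z‖ * Metric.infDist z E ≤ δ * (‖fderiv ℝ g z‖ + 1) * Metric.infDist z E :=
          mul_le_mul_of_nonneg_right hb hd.le
      _ = δ * (‖fderiv ℝ g z‖ * Metric.infDist z E + Metric.infDist z E) := by ring
      _ ≤ δ * (M + 1) := mul_le_mul_of_nonneg_left (by linarith) hδ.le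
      _ ≤ η := by
          rw [← hδη]
          refine mul_le_mul_of_nonneg_left ?_ hδ.le
          linarith [abs_nonneg (g z₀), hℓ0 z₀]
  · intro v
    have h1 := (key v).2
    have h2 : (2 * ‖v‖ ^ 2 * (2 + ‖z‖ ^ 2) - (2 * (z.re * v.re + z.im * v.im)) * (2 * (z.re * v.re + z.im * v.im)))
          / (2 + ‖z‖ ^ 2) ^ 2 ≤ ‖v‖ ^ 2 := by
      rw [div_le_iff₀ (by positivity)]
      have h3 : 0 ≤ (2 * (z.re * v.re + z.im * v.im)) * (2 * (z.re * v.re + z.im * v.im)) :=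
        mul_self_nonneg _
      have h4 : 2 * (2 + ‖z‖ ^ 2) ≤ (2 + ‖z‖ ^ 2) ^ 2 := by nlinarith [sq_nonneg ‖z‖]
      have h5 : ‖v‖ ^ 2 * (2 * (2 + ‖z‖ ^ 2)) ≤ ‖v‖ ^ 2 * (2 + ‖z‖ ^ 2) ^ 2 :=
        mul_le_mul_of_nonneg_left h4 (sq_nonneg _)
      linarith
    have h6 : iteratedFDeriv ℝ 2 g z ![v, v] ≤ ‖iteratedFDeriv ℝ 2 g z‖ * ‖v‖ ^ 2 := by
      have h7 := (iteratedFDeriv ℝ 2 g z).le_opNorm ![v, v]
      rw [Fin.prod_univ_two] at h7
      simp only [Matrix.cons_val_zero, Matrix.cons_val_one] at h7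
      calc iteratedFDeriv ℝ 2 g z ![v, v] ≤ ‖iteratedFDeriv ℝ 2 g z ![v, v]‖ := le_abs_self _
        _ ≤ ‖iteratedFDeriv ℝ 2 g z‖ * (‖v‖ * ‖v‖) := h7
        _ = ‖iteratedFDeriv ℝ 2 g z‖ * ‖v‖ ^ 2 := by ring
    have hd2 : 0 ≤ Metric.infDist z E ^ 2 := sq_nonneg _
    have hd3 : Metric.infDist z E ^ 2 ≤ 1 := pow_le_one₀ hd.le hd1
    have h8 : iteratedFDeriv ℝ 2 w z ![v, v] ≤ δ * (‖iteratedFDeriv ℝ 2 g z‖ * ‖v‖ ^ 2 + ‖v‖ ^ 2) :=
      h1.trans (mul_le_mul_of_nonneg_left (add_le_add h6 h2) hδ.le)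
    calc iteratedFDeriv ℝ 2 w z ![v, v] * Metric.infDist z E ^ 2
        ≤ δ * (‖iteratedFDeriv ℝ 2 g z‖ * ‖v‖ ^ 2 + ‖v‖ ^ 2) * Metric.infDist z E ^ 2 :=
          mul_le_mul_of_nonneg_right h8 hd2
      _ = δ * (‖iteratedFDeriv ℝ 2 g z‖ * Metric.infDist z E ^ 2 + Metric.infDist z E ^ 2) * ‖v‖ ^ 2 := by
          ring
      _ ≤ δ * (M + 1) * ‖v‖ ^ 2 := by
          refine mul_le_mul_of_nonneg_right ?_ (sq_nonneg _)
          exact mul_le_mul_of_nonneg_left (add_le_add (hg2 z hzE) hd3) hδ.le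
      _ ≤ η * ‖v‖ ^ 2 := by
          refine mul_le_mul_of_nonneg_right ?_ (sq_nonneg _)
          rw [← hδη]
          refine mul_le_mul_of_nonneg_left ?_ hδ.le
          linarith [abs_nonneg (g z₀), hℓ0 z₀]

end Pool.Agent.BB4B37
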