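import Pool.Agent.W_bb4b37_h5.P.LowB
import Pool.Agent.W_bb4b37_h5.P.Pen

/-! # Sup bounds -/

set_option autoImplicit false

namespace Pool.Agent.BB4B37

open Complex Filter Topology Set MeasureTheory BoundedContinuousFunction
open scoped FourierTransform

/-- two sided sup bounds of the penalised Liouville solution (depending only on `c`) -/
theorem sup_bounds (c : ℝ) (hc : 0 < c) : ∃ A C δ₁ : ℝ, 0 < A ∧ 0 < C ∧ 0 < δ₁ ∧ δ₁ ≤ 1 ∧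
    ∀ (Cω : ℕ → ℝ) (E : Set ℂ) (δ η : ℝ) (ω φ : ℂ → ℝ), Adm c E → 0 < δ → δ ≤ δ₁ → 0 < η → η ≤ 1 →
    Pen Cω E δ ω → Cbf φ → (∀ z, lap φ z = Real.exp (2 * φ z) - (η + A ^ 2 / δ ^ 2 * ω z)) →
    (∀ z, Real.exp (2 * φ z) ≤ η + A ^ 2 / δ ^ 2) →
    ∀ z, |φ z + Real.log (max (Metric.infDist z E) δ)| ≤ C := by
  sorry

end Pool.Agent.BB4B37
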