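import Pool.Agent.W_bb4b37_h5.P.Contr
import Pool.Agent.W_bb4b37_h5.P.LiouS
import Pool.Agent.W_bb4b37_h5.P.SupB
import Pool.Agent.W_bb4b37_h5.P.BgS

/-! # Existence for a fixed penalty -/

set_option autoImplicit false

namespace Pool.Agent.BB4B37

open Complex Filter Topology Set MeasureTheory BoundedContinuousFunction
open scoped FourierTransform

/-- existence for a fixed penalty: `Φ = φ + ψ` satisfies the K-surface equation up to the penalty -/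
theorem penalised (n : ℕ) (c : ℝ) (hc : 0 < c) : ∃ M s₀ δ₁ : ℝ, 0 < M ∧ 0 < s₀ ∧ 0 < δ₁ ∧
    ∀ E : Set ℂ, Adm c E → ∀ s : ℝ, 0 ≤ s → s ≤ s₀ → ∀ δ η : ℝ, 0 < δ → δ ≤ δ₁ → 0 < η → η ≤ 1 →
    ∃ (Φ ω : ℂ → ℝ), ContDiff ℝ n Φ ∧ (∀ z, 2 * δ ≤ Metric.infDist z E → ω z = 0) ∧
      (∀ z, |Φ z + Real.log (max (Metric.infDist z E) δ)| ≤ M) ∧
      (∀ (j : ℕ), 1 ≤ j → j ≤ n → ∀ z,
        ‖iteratedFDeriv ℝ j Φ z‖ * (max (Metric.infDist z E) δ) ^ j ≤ M) ∧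
      ∀ z, ω z = 0 → Real.exp (-2 * Φ z) * (lap Φ z + η) =
        1 + s ^ 2 * ((Real.exp (-2 * Φ z) * (lap Φ z + η)) ^ 2 - ‖Qc Φ z‖ ^ 2) := by
  sorry

end Pool.Agent.BB4B37
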