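import Pool.Agent.W_bb4b37_h5.P.Cb

/-! # Resolvent of the Laplacian on the plane -/

set_option autoImplicit false

namespace Pool.Agent.BB4B37

open Complex Filter Topology Set MeasureTheory BoundedContinuousFunction
open scoped FourierTransform

/-- the resolvent `(Λ - Δ)⁻¹` on bounded continuous functions -/
theorem res_exists (Λ : ℝ) (hΛ : 0 < Λ) : ∃ R : (ℂ →ᵇ ℝ) →ₗ[ℝ] (ℂ →ᵇ ℝ),
    (∀ f : ℂ →ᵇ ℝ, (∀ z, 0 ≤ f z) → ∀ z, 0 ≤ R f z) ∧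
    (∀ (c : ℝ) (z : ℂ), R (BoundedContinuousFunction.const ℂ c) z = c / Λ) ∧
    (∀ (j : ℕ) (f : ℂ →ᵇ ℝ), CbN j (f : ℂ → ℝ) → CbN (j + 1) (R f : ℂ → ℝ)) ∧
    (∀ f : ℂ →ᵇ ℝ, CbN 2 (f : ℂ → ℝ) → ∀ z, lap (R f : ℂ → ℝ) z = Λ * R f z - f z) ∧
    (∀ u g : ℂ →ᵇ ℝ, CbN 2 (u : ℂ → ℝ) → (∀ z, g z = Λ * u z - lap (u : ℂ → ℝ) z) → R g = u) := by
  sorry

end Pool.Agent.BB4B37
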