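import Pool.Agent.W_bb4b37_h5.P.W1

/-! # Products and affine maps -/

set_option autoImplicit false

namespace Pool.Agent.BB4B37

open Complex Filter Topology Set MeasureTheory BoundedContinuousFunction
open scoped FourierTransform

/-- Schwartz function of a CC function -/
noncomputable def W2_sch {f : ℂ → ℂ} (hf : CC f) : SchwartzMap ℂ ℂ :=
  hf.supp.toSchwartzMap (contDiff_infty.2 fun n => hf.smooth n)

theorem W2_sch_coe {f : ℂ → ℂ} (hf : CC f) : ⇑(W2_sch hf) = f := rfl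

theorem W2_ff (H : SchwartzMap ℂ ℂ) (x : ℂ) : (𝓕 (𝓕 H)) (-x) = H x := by
  have h : (𝓕⁻ (𝓕 H)) x = (𝓕 (𝓕 H)) (-x) := by
    rw [SchwartzMap.fourierInv_apply_eq]
    simp
  rw [← h]
  simp

theorem W2_fourier_mul {f g : ℂ → ℂ} (hf : CC f) (hg : CC g) (ξ : ℂ) :
    𝓕 (fun z => f z * g z) ξ = ∫ t : ℂ, 𝓕 f t * 𝓕 g (ξ - t) := by
  set F := W2_sch hf with hF
  set G := W2_sch hg with hG
  have h1 : 𝓕⁻ (SchwartzMap.convolution (ContinuousLinearMap.mul ℂ ℂ) (𝓕 F) (𝓕 G))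
      = SchwartzMap.pairing (ContinuousLinearMap.mul ℂ ℂ) F G := by
    ext x
    have h : (𝓕⁻ (SchwartzMap.convolution (ContinuousLinearMap.mul ℂ ℂ) (𝓕 F) (𝓕 G))) x
        = (𝓕 (SchwartzMap.convolution (ContinuousLinearMap.mul ℂ ℂ) (𝓕 F) (𝓕 G))) (-x) := by
      rw [SchwartzMap.fourierInv_apply_eq]
      simp
    rw [h, SchwartzMap.fourier_convolution, SchwartzMap.pairing_apply_apply,
      SchwartzMap.pairing_apply_apply, W2_ff, W2_ff]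
  have h2 : SchwartzMap.convolution (ContinuousLinearMap.mul ℂ ℂ) (𝓕 F) (𝓕 G)
      = 𝓕 (SchwartzMap.pairing (ContinuousLinearMap.mul ℂ ℂ) F G) := by
    rw [← h1]
    simp
  have h3 := SchwartzMap.convolution_apply (ContinuousLinearMap.mul ℂ ℂ) (𝓕 F) (𝓕 G) ξ
  rw [h2, SchwartzMap.fourier_coe, SchwartzMap.fourier_coe, SchwartzMap.fourier_coe] at h3
  exact h3

theorem W2_weight (k : ℕ) (ξ t : ℂ) :
    (1 + ‖ξ‖) ^ k ≤ (1 + ‖t‖) ^ k * (1 + ‖ξ - t‖) ^ k := by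
  rw [← mul_pow]
  have h : ‖ξ‖ ≤ ‖t‖ + ‖ξ - t‖ := by
    have := norm_add_le t (ξ - t)
    rwa [add_sub_cancel] at this
  have h1 := norm_nonneg t
  have h2 := norm_nonneg (ξ - t)
  have h3 := norm_nonneg ξ
  apply pow_le_pow_left₀ (by linarith)
  nlinarith [mul_nonneg h1 h2]

theorem W2_fourier_affine (f : ℂ → ℂ) (ρ : ℝ) (hρ : 0 < ρ) (c ξ : ℂ) :
    ‖𝓕 (fun z => f (ρ * z + c)) ξ‖ = (ρ ^ 2)⁻¹ * ‖𝓕 f (ρ⁻¹ • ξ)‖ := by
  have hρ0 : (ρ : ℂ) ≠ 0 := by exact_mod_cast hρ.ne'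
  have h1 : 𝓕 (fun z => f (ρ * z + c)) ξ
      = ∫ z : ℂ, (Real.fourierChar (-(inner ℝ z ξ : ℝ)) : ℂ) * f (ρ * z + c) := by
    rw [Real.fourier_eq]
    rfl
  have h2 : 𝓕 f (ρ⁻¹ • ξ)
      = ∫ w : ℂ, (Real.fourierChar (-(inner ℝ w (ρ⁻¹ • ξ) : ℝ)) : ℂ) * f w := by
    rw [Real.fourier_eq]
    rfl
  have h3 : (∫ z : ℂ, (Real.fourierChar (-(inner ℝ z ξ : ℝ)) : ℂ) * f (ρ * z + c))
      = ∫ z : ℂ, (Real.fourierChar ((inner ℝ (c / ρ) ξ : ℝ)) : ℂ) *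
        ((Real.fourierChar (-(inner ℝ (ρ • z) (ρ⁻¹ • ξ) : ℝ)) : ℂ) * f (ρ • z)) := by
    rw [← integral_sub_right_eq_self _ (c / ρ)]
    congr 1
    funext z
    have e1 : (ρ : ℂ) * (z - c / ρ) + c = ρ • z := by
      rw [real_smul]
      field_simp
      ring
    have e2 : (inner ℝ (ρ • z) (ρ⁻¹ • ξ) : ℝ) = inner ℝ z ξ := by
      rw [real_inner_smul_left, real_inner_smul_right]
      field_simp
    rw [e1, e2, inner_sub_left, neg_sub, sub_eq_add_neg, AddChar.map_add_eq_mul, ← mul_assoc]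
    push_cast
    ring
  rw [h1, h2, h3, integral_const_mul]
  have h4 := Measure.integral_comp_smul (volume : Measure ℂ)
    (fun w : ℂ => (Real.fourierChar (-(inner ℝ w (ρ⁻¹ • ξ) : ℝ)) : ℂ) * f w) ρ
  rw [h4, norm_mul, Circle.norm_coe, one_mul, norm_smul]
  congr 1
  rw [Complex.finrank_real_complex, Real.norm_eq_abs, abs_abs, abs_of_nonneg (by positivity)]

theorem wn_mul (k : ℕ) {f g : ℂ → ℂ} (hf : CC f) (hg : CC g) :
    wn k (fun z => f z * g z) ≤ wn k f * wn k g := by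
  set a : ℂ → ℝ := fun ξ => (1 + ‖ξ‖) ^ k * ‖𝓕 f ξ‖ with ha
  set b : ℂ → ℝ := fun ξ => (1 + ‖ξ‖) ^ k * ‖𝓕 g ξ‖ with hb
  have ia : Integrable a := wn_integrable hf k
  have ib : Integrable b := wn_integrable hg k
  have hfg : CC (fun z => f z * g z) := hf.mul hg.smooth
  have hconv := MeasureTheory.integral_convolution (μ := (volume : Measure ℂ))
    (ν := (volume : Measure ℂ)) (ContinuousLinearMap.mul ℝ ℝ) ia ib
  have e : wn k f * wn k g = ∫ x : ℂ, (MeasureTheory.convolution a b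
      (ContinuousLinearMap.mul ℝ ℝ) volume) x := by
    rw [hconv]
    rfl
  rw [e]
  unfold wn
  apply integral_mono_ae (wn_integrable hfg k)
  · exact MeasureTheory.Integrable.integrable_convolution (ContinuousLinearMap.mul ℝ ℝ) ia ib
  · filter_upwards [MeasureTheory.Integrable.ae_convolution_exists
      (ContinuousLinearMap.mul ℝ ℝ) ia ib] with ξ hξ
    have hξ' : Integrable (fun t => a t * b (ξ - t)) := hξ
    show (1 + ‖ξ‖) ^ k * ‖𝓕 (fun z => f z * g z) ξ‖ ≤ ∫ t, a t * b (ξ - t)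
    rw [W2_fourier_mul hf hg ξ]
    calc (1 + ‖ξ‖) ^ k * ‖∫ t : ℂ, 𝓕 f t * 𝓕 g (ξ - t)‖
        ≤ (1 + ‖ξ‖) ^ k * ∫ t : ℂ, ‖𝓕 f t * 𝓕 g (ξ - t)‖ := by
          apply mul_le_mul_of_nonneg_left (norm_integral_le_integral_norm _)
          positivity
      _ = ∫ t : ℂ, (1 + ‖ξ‖) ^ k * ‖𝓕 f t * 𝓕 g (ξ - t)‖ := by
          rw [integral_const_mul]
      _ ≤ ∫ t, a t * b (ξ - t) := by
          apply integral_mono_of_nonneg
          · exact Eventually.of_forall fun t => by positivity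
          · exact hξ'
          · apply Eventually.of_forall
            intro t
            simp only [ha, hb, norm_mul]
            have hw := W2_weight k ξ t
            have h0 : 0 ≤ ‖𝓕 f t‖ * ‖𝓕 g (ξ - t)‖ := by positivity
            calc (1 + ‖ξ‖) ^ k * (‖𝓕 f t‖ * ‖𝓕 g (ξ - t)‖)
                ≤ ((1 + ‖t‖) ^ k * (1 + ‖ξ - t‖) ^ k) * (‖𝓕 f t‖ * ‖𝓕 g (ξ - t)‖) :=
                  mul_le_mul_of_nonneg_right hw h0
              _ = (1 + ‖t‖) ^ k * ‖𝓕 f t‖ * ((1 + ‖ξ - t‖) ^ k * ‖𝓕 g (ξ - t)‖) := by ring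

theorem wn_affine (k : ℕ) {f : ℂ → ℂ} (hf : CC f) (ρ : ℝ) (hρ : 0 < ρ) (c : ℂ) :
    wn k (fun z => f (ρ * z + c)) ≤ (max 1 ρ) ^ k * wn k f := by
  have h1 : wn k (fun z => f (ρ * z + c))
      = ∫ ξ : ℂ, (ρ ^ 2)⁻¹ * ((1 + ρ * ‖ρ⁻¹ • ξ‖) ^ k * ‖𝓕 f (ρ⁻¹ • ξ)‖) := by
    unfold wn
    congr 1
    funext ξ
    rw [W2_fourier_affine f ρ hρ c ξ, norm_smul, Real.norm_eq_abs, abs_of_pos (inv_pos.2 hρ)]
    have : ρ * (ρ⁻¹ * ‖ξ‖) = ‖ξ‖ := by field_simp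
    rw [this]
    ring
  have h2 : (∫ ξ : ℂ, (1 + ρ * ‖ρ⁻¹ • ξ‖) ^ k * ‖𝓕 f (ρ⁻¹ • ξ)‖)
      = ρ ^ 2 * ∫ η : ℂ, (1 + ρ * ‖η‖) ^ k * ‖𝓕 f η‖ := by
    have h := Measure.integral_comp_smul (volume : Measure ℂ)
      (fun η : ℂ => (1 + ρ * ‖η‖) ^ k * ‖𝓕 f η‖) ρ⁻¹
    rw [h, Complex.finrank_real_complex, smul_eq_mul]
    congr 1
    rw [inv_pow, inv_inv, abs_of_nonneg (by positivity)]
  rw [h1, integral_const_mul, h2, ← mul_assoc, inv_mul_cancel₀ (by positivity), one_mul]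
  unfold wn
  rw [← integral_const_mul]
  apply integral_mono_of_nonneg
  · exact Eventually.of_forall fun η => by positivity
  · exact (wn_integrable hf k).const_mul _
  · apply Eventually.of_forall
    intro η
    simp only
    rw [← mul_assoc, ← mul_pow]
    apply mul_le_mul_of_nonneg_right _ (norm_nonneg _)
    apply pow_le_pow_left₀ (by positivity)
    have h3 : (1 : ℝ) ≤ max 1 ρ := le_max_left _ _
    have h4 : ρ ≤ max 1 ρ := le_max_right _ _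
    have h5 := norm_nonneg η
    nlinarith [mul_le_mul_of_nonneg_right h4 h5]

end Pool.Agent.BB4B37
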