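import Pool.Agent.W_bb4b37_h5.P.W1

/-! # Derivatives and elliptic estimates -/

set_option autoImplicit false

namespace Pool.Agent.BB4B37

open Complex Filter Topology Set MeasureTheory BoundedContinuousFunction
open scoped FourierTransform

theorem W3_diff {f : ℂ → ℂ} (hf : CC f) : Differentiable ℝ f :=
  (hf.smooth 1).differentiable (by norm_num)

theorem W3_int {f : ℂ → ℂ} (hf : CC f) : Integrable f :=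
  (hf.smooth 0).continuous.integrable_of_hasCompactSupport hf.supp

theorem W3_intd {f : ℂ → ℂ} (hf : CC f) : Integrable (fderiv ℝ f) :=
  ((hf.smooth 1).continuous_fderiv (by norm_num)).integrable_of_hasCompactSupport
    (hf.supp.fderiv ℝ)

theorem W3_fd {f : ℂ → ℂ} (hf : CC f) (m ξ : ℂ) :
    𝓕 (fun z => fderiv ℝ f z m) ξ = 2 * Real.pi * I * ((inner ℝ ξ m : ℝ) : ℂ) * 𝓕 f ξ := by
  have h1 := Real.fourier_fderiv (W3_int hf) (W3_diff hf) (W3_intd hf)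
  have h2 : 𝓕 (fun z => fderiv ℝ f z m) ξ = 𝓕 (fderiv ℝ f) ξ m := by
    rw [Real.fourier_eq, Real.fourier_eq, ContinuousLinearMap.integral_apply]
    · rfl
    · exact (Real.fourierIntegral_convergent_iff ξ).2 (W3_intd hf)
  rw [h2, h1, VectorFourier.fourierSMulRight_apply]
  have h3 : (-innerSL ℝ) ξ m = -(inner ℝ ξ m : ℝ) := rfl
  rw [h3, neg_smul, neg_smul, smul_neg, neg_neg, Complex.real_smul, smul_eq_mul]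
  ring

theorem W3_px {f : ℂ → ℂ} (hf : CC f) (ξ : ℂ) :
    𝓕 (px f) ξ = 2 * Real.pi * I * (ξ.re : ℂ) * 𝓕 f ξ := by
  have h := W3_fd hf 1 ξ
  have e : (inner ℝ ξ (1 : ℂ) : ℝ) = ξ.re := by
    rw [Complex.inner]; simp
  rw [e] at h
  exact h

theorem W3_py {f : ℂ → ℂ} (hf : CC f) (ξ : ℂ) :
    𝓕 (py f) ξ = 2 * Real.pi * I * (ξ.im : ℂ) * 𝓕 f ξ := by
  have h := W3_fd hf I ξ
  have e : (inner ℝ ξ I : ℝ) = ξ.im := by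
    rw [Complex.inner]; simp
  rw [e] at h
  exact h

theorem W3_add {f g : ℂ → ℂ} (hf : CC f) (hg : CC g) (ξ : ℂ) :
    𝓕 (fun z => f z + g z) ξ = 𝓕 f ξ + 𝓕 g ξ := by
  rw [Real.fourier_eq, Real.fourier_eq, Real.fourier_eq, ← integral_add]
  · congr 1
    ext z
    rw [smul_add]
  · exact (Real.fourierIntegral_convergent_iff ξ).2 (W3_int hf)
  · exact (Real.fourierIntegral_convergent_iff ξ).2 (W3_int hg)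

theorem W3_lapc {f : ℂ → ℂ} (hf : CC f) (ξ : ℂ) :
    𝓕 (lapc f) ξ = -(4 * (Real.pi : ℂ) ^ 2 * ((‖ξ‖ ^ 2 : ℝ) : ℂ)) * 𝓕 f ξ := by
  have e : lapc f = fun z => px (px f) z + py (py f) z := by
    funext z; rfl
  rw [e, W3_add hf.px.px hf.py.py, W3_px hf.px, W3_py hf.py, W3_px hf, W3_py hf]
  have e2 : ‖ξ‖ ^ 2 = ξ.re ^ 2 + ξ.im ^ 2 := by
    rw [← Complex.normSq_eq_norm_sq, Complex.normSq_apply]; ring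
  rw [e2]
  push_cast
  linear_combination (4 * (Real.pi : ℂ) ^ 2 * ((ξ.re : ℂ) ^ 2 + (ξ.im : ℂ) ^ 2) * 𝓕 f ξ) * I_sq

theorem W3_norm_px {f : ℂ → ℂ} (hf : CC f) (ξ : ℂ) :
    ‖𝓕 (px f) ξ‖ = 2 * Real.pi * |ξ.re| * ‖𝓕 f ξ‖ := by
  rw [W3_px hf]
  simp [abs_of_pos Real.pi_pos]

theorem W3_norm_py {f : ℂ → ℂ} (hf : CC f) (ξ : ℂ) :
    ‖𝓕 (py f) ξ‖ = 2 * Real.pi * |ξ.im| * ‖𝓕 f ξ‖ := by
  rw [W3_py hf]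
  simp [abs_of_pos Real.pi_pos]

theorem W3_norm_lapc {f : ℂ → ℂ} (hf : CC f) (ξ : ℂ) :
    ‖𝓕 (lapc f) ξ‖ = 4 * Real.pi ^ 2 * ‖ξ‖ ^ 2 * ‖𝓕 f ξ‖ := by
  rw [W3_lapc hf]
  simp [abs_of_pos Real.pi_pos]

theorem wn_px (k : ℕ) {f : ℂ → ℂ} (hf : CC f) : wn k (px f) ≤ 2 * Real.pi * wn (k + 1) f := by
  unfold wn
  rw [← integral_const_mul]
  refine integral_mono (wn_integrable hf.px k) ((wn_integrable hf (k + 1)).const_mul _) ?_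
  intro ξ
  show (1 + ‖ξ‖) ^ k * ‖𝓕 (px f) ξ‖ ≤ 2 * Real.pi * ((1 + ‖ξ‖) ^ (k + 1) * ‖𝓕 f ξ‖)
  rw [W3_norm_px hf]
  have h1 : |ξ.re| ≤ 1 + ‖ξ‖ := (Complex.abs_re_le_norm ξ).trans (by linarith)
  have h0 : 0 ≤ (1 + ‖ξ‖) ^ k * (2 * Real.pi * ‖𝓕 f ξ‖) := by positivity
  calc (1 + ‖ξ‖) ^ k * (2 * Real.pi * |ξ.re| * ‖𝓕 f ξ‖)
      = (1 + ‖ξ‖) ^ k * (2 * Real.pi * ‖𝓕 f ξ‖) * |ξ.re| := by ring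
    _ ≤ (1 + ‖ξ‖) ^ k * (2 * Real.pi * ‖𝓕 f ξ‖) * (1 + ‖ξ‖) := by gcongr
    _ = 2 * Real.pi * ((1 + ‖ξ‖) ^ (k + 1) * ‖𝓕 f ξ‖) := by ring

theorem wn_py (k : ℕ) {f : ℂ → ℂ} (hf : CC f) : wn k (py f) ≤ 2 * Real.pi * wn (k + 1) f := by
  unfold wn
  rw [← integral_const_mul]
  refine integral_mono (wn_integrable hf.py k) ((wn_integrable hf (k + 1)).const_mul _) ?_
  intro ξ
  show (1 + ‖ξ‖) ^ k * ‖𝓕 (py f) ξ‖ ≤ 2 * Real.pi * ((1 + ‖ξ‖) ^ (k + 1) * ‖𝓕 f ξ‖)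
  rw [W3_norm_py hf]
  have h1 : |ξ.im| ≤ 1 + ‖ξ‖ := (Complex.abs_im_le_norm ξ).trans (by linarith)
  have h0 : 0 ≤ (1 + ‖ξ‖) ^ k * (2 * Real.pi * ‖𝓕 f ξ‖) := by positivity
  calc (1 + ‖ξ‖) ^ k * (2 * Real.pi * |ξ.im| * ‖𝓕 f ξ‖)
      = (1 + ‖ξ‖) ^ k * (2 * Real.pi * ‖𝓕 f ξ‖) * |ξ.im| := by ring
    _ ≤ (1 + ‖ξ‖) ^ k * (2 * Real.pi * ‖𝓕 f ξ‖) * (1 + ‖ξ‖) := by gcongr
    _ = 2 * Real.pi * ((1 + ‖ξ‖) ^ (k + 1) * ‖𝓕 f ξ‖) := by ring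

theorem wn_ell (k : ℕ) {f : ℂ → ℂ} (hf : CC f) :
    wn (k + 2) f ≤ 2 * wn k f + wn k (lapc f) := by
  unfold wn
  rw [← integral_const_mul, ← integral_add ((wn_integrable hf k).const_mul _)
    (wn_integrable hf.lapc k)]
  refine integral_mono (wn_integrable hf (k + 2))
    (((wn_integrable hf k).const_mul _).add (wn_integrable hf.lapc k)) ?_
  intro ξ
  show (1 + ‖ξ‖) ^ (k + 2) * ‖𝓕 f ξ‖ ≤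
    2 * ((1 + ‖ξ‖) ^ k * ‖𝓕 f ξ‖) + (1 + ‖ξ‖) ^ k * ‖𝓕 (lapc f) ξ‖
  rw [W3_norm_lapc hf]
  have hpi : 2 ≤ 4 * Real.pi ^ 2 := by nlinarith [Real.pi_gt_three]
  have h1 : (1 + ‖ξ‖) ^ 2 ≤ 2 + 4 * Real.pi ^ 2 * ‖ξ‖ ^ 2 := by
    have : 2 * ‖ξ‖ ^ 2 ≤ 4 * Real.pi ^ 2 * ‖ξ‖ ^ 2 := by gcongr
    nlinarith [sq_nonneg (1 - ‖ξ‖)]
  have h0 : 0 ≤ (1 + ‖ξ‖) ^ k * ‖𝓕 f ξ‖ := by positivity
  calc (1 + ‖ξ‖) ^ (k + 2) * ‖𝓕 f ξ‖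
      = (1 + ‖ξ‖) ^ k * ‖𝓕 f ξ‖ * (1 + ‖ξ‖) ^ 2 := by ring
    _ ≤ (1 + ‖ξ‖) ^ k * ‖𝓕 f ξ‖ * (2 + 4 * Real.pi ^ 2 * ‖ξ‖ ^ 2) := by gcongr
    _ = 2 * ((1 + ‖ξ‖) ^ k * ‖𝓕 f ξ‖) +
          (1 + ‖ξ‖) ^ k * (4 * Real.pi ^ 2 * ‖ξ‖ ^ 2 * ‖𝓕 f ξ‖) := by ring

theorem W3_key {r A G0 G1 G2 : ℝ} (hr : 1 ≤ r) (h0 : 0 ≤ G0) (h1 : 0 ≤ G1) (h2 : 0 ≤ G2)
    (hA : 0 ≤ A)
    (h : 4 * Real.pi ^ 2 * r ^ 2 * A ≤ G0 + 2 * Real.pi * r * G1 + 2 * Real.pi * r * G2) :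
    (1 + r) * A ≤ G0 + G1 + G2 := by
  have hpi := Real.pi_gt_three
  have hc : 0 < 2 * Real.pi ^ 2 * r := by positivity
  have a1 : (1 + r) * A ≤ 2 * r * A := by nlinarith
  have a2 : (1 : ℝ) ≤ 2 * Real.pi ^ 2 * r := by nlinarith
  have a3 : 2 * Real.pi * r ≤ 2 * Real.pi ^ 2 * r := by
    have : Real.pi ≤ Real.pi ^ 2 := by nlinarith
    nlinarith
  have a4 : 2 * Real.pi ^ 2 * r * (2 * r * A) ≤ 2 * Real.pi ^ 2 * r * (G0 + G1 + G2) := by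
    calc 2 * Real.pi ^ 2 * r * (2 * r * A) = 4 * Real.pi ^ 2 * r ^ 2 * A := by ring
      _ ≤ G0 + 2 * Real.pi * r * G1 + 2 * Real.pi * r * G2 := h
      _ ≤ 2 * Real.pi ^ 2 * r * G0 + 2 * Real.pi ^ 2 * r * G1 + 2 * Real.pi ^ 2 * r * G2 := by
          have b0 : G0 ≤ 2 * Real.pi ^ 2 * r * G0 := by nlinarith
          have b1 : 2 * Real.pi * r * G1 ≤ 2 * Real.pi ^ 2 * r * G1 := by gcongr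
          have b2 : 2 * Real.pi * r * G2 ≤ 2 * Real.pi ^ 2 * r * G2 := by gcongr
          linarith
      _ = 2 * Real.pi ^ 2 * r * (G0 + G1 + G2) := by ring
  exact a1.trans (le_of_mul_le_mul_left a4 hc)

theorem W3_int4 {a b c d : ℂ → ℝ} (ha : Integrable a) (hb : Integrable b) (hc : Integrable c)
    (hd : Integrable d) :
    ∫ ξ : ℂ, (a ξ + b ξ + c ξ + d ξ) =
      (∫ ξ : ℂ, a ξ) + (∫ ξ : ℂ, b ξ) + (∫ ξ : ℂ, c ξ) + (∫ ξ : ℂ, d ξ) := by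
  have e1 := integral_add ((ha.add hb).add hc) hd
  have e2 := integral_add (ha.add hb) hc
  have e3 := integral_add ha hb
  simp only [Pi.add_apply] at e1 e2 e3
  rw [e1, e2, e3]

/-- gain of one derivative for equations in divergence form -/
theorem wn_div (k : ℕ) {v g₀ g₁ g₂ : ℂ → ℂ} (hv : CC v) (h₀ : CC g₀) (h₁ : CC g₁) (h₂ : CC g₂)
    (h : ∀ z, lapc v z = g₀ z + px g₁ z + py g₂ z) :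
    wn (k + 1) v ≤ 2 ^ (k + 1) * wn 0 v + wn k g₀ + wn k g₁ + wn k g₂ := by
  have hF : ∀ ξ, 𝓕 (lapc v) ξ = 𝓕 g₀ ξ + 𝓕 (px g₁) ξ + 𝓕 (py g₂) ξ := by
    intro ξ
    have e : lapc v = fun z => (g₀ z + px g₁ z) + py g₂ z := funext h
    rw [e, W3_add (h₀.add h₁.px) h₂.py, W3_add h₀ h₁.px]
  have hN : ∀ ξ : ℂ, 4 * Real.pi ^ 2 * ‖ξ‖ ^ 2 * ‖𝓕 v ξ‖ ≤
      ‖𝓕 g₀ ξ‖ + 2 * Real.pi * ‖ξ‖ * ‖𝓕 g₁ ξ‖ + 2 * Real.pi * ‖ξ‖ * ‖𝓕 g₂ ξ‖ := by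
    intro ξ
    rw [← W3_norm_lapc hv, hF]
    refine (norm_add₃_le).trans ?_
    rw [W3_norm_px h₁, W3_norm_py h₂]
    have r1 := Complex.abs_re_le_norm ξ
    have r2 := Complex.abs_im_le_norm ξ
    gcongr
  have i0 := (wn_integrable hv 0).const_mul ((2 : ℝ) ^ (k + 1))
  have i1 := wn_integrable h₀ k
  have i2 := wn_integrable h₁ k
  have i3 := wn_integrable h₂ k
  have hsum : 2 ^ (k + 1) * wn 0 v + wn k g₀ + wn k g₁ + wn k g₂ =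
      ∫ ξ : ℂ, (2 ^ (k + 1) * ((1 + ‖ξ‖) ^ 0 * ‖𝓕 v ξ‖) + (1 + ‖ξ‖) ^ k * ‖𝓕 g₀ ξ‖ +
        (1 + ‖ξ‖) ^ k * ‖𝓕 g₁ ξ‖ + (1 + ‖ξ‖) ^ k * ‖𝓕 g₂ ξ‖) := by
    unfold wn
    rw [W3_int4 i0 i1 i2 i3, integral_const_mul]
  rw [hsum]
  unfold wn
  refine integral_mono (wn_integrable hv (k + 1)) (((i0.add i1).add i2).add i3) ?_
  intro ξ
  show (1 + ‖ξ‖) ^ (k + 1) * ‖𝓕 v ξ‖ ≤ 2 ^ (k + 1) * ((1 + ‖ξ‖) ^ 0 * ‖𝓕 v ξ‖) +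
    (1 + ‖ξ‖) ^ k * ‖𝓕 g₀ ξ‖ + (1 + ‖ξ‖) ^ k * ‖𝓕 g₁ ξ‖ + (1 + ‖ξ‖) ^ k * ‖𝓕 g₂ ξ‖
  have p0 : 0 ≤ (1 + ‖ξ‖) ^ k * ‖𝓕 g₀ ξ‖ := by positivity
  have p1 : 0 ≤ (1 + ‖ξ‖) ^ k * ‖𝓕 g₁ ξ‖ := by positivity
  have p2 : 0 ≤ (1 + ‖ξ‖) ^ k * ‖𝓕 g₂ ξ‖ := by positivity
  rcases le_total 1 ‖ξ‖ with hr | hr
  · have hk := W3_key hr (norm_nonneg (𝓕 g₀ ξ)) (norm_nonneg (𝓕 g₁ ξ)) (norm_nonneg (𝓕 g₂ ξ))
      (norm_nonneg (𝓕 v ξ)) (hN ξ)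
    have q0 : 0 ≤ (2 : ℝ) ^ (k + 1) * ((1 + ‖ξ‖) ^ 0 * ‖𝓕 v ξ‖) := by positivity
    calc (1 + ‖ξ‖) ^ (k + 1) * ‖𝓕 v ξ‖ = (1 + ‖ξ‖) ^ k * ((1 + ‖ξ‖) * ‖𝓕 v ξ‖) := by ring
      _ ≤ (1 + ‖ξ‖) ^ k * (‖𝓕 g₀ ξ‖ + ‖𝓕 g₁ ξ‖ + ‖𝓕 g₂ ξ‖) := by gcongr
      _ ≤ _ := by linarith
  · have hp : (1 + ‖ξ‖) ^ (k + 1) ≤ 2 ^ (k + 1) := by
      gcongr
      linarith
    have : (1 + ‖ξ‖) ^ (k + 1) * ‖𝓕 v ξ‖ ≤ 2 ^ (k + 1) * ((1 + ‖ξ‖) ^ 0 * ‖𝓕 v ξ‖) := by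
      rw [pow_zero, one_mul]
      gcongr
    linarith

end Pool.Agent.BB4B37
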