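import Pool.Agent.W_bb4b37_h5.P.W3

/-! # Comparison with classical norms -/

set_option autoImplicit false

namespace Pool.Agent.BB4B37

open Complex Filter Topology Set MeasureTheory BoundedContinuousFunction
open scoped FourierTransform

private theorem W4_schw {f : ℂ → ℂ} (hf : CC f) : ∃ F : SchwartzMap ℂ ℂ, (F : ℂ → ℂ) = f :=
  ⟨hf.supp.toSchwartzMap (contDiff_infty.2 hf.smooth), rfl⟩

private theorem W4_fourier_cont {f : ℂ → ℂ} (hf : CC f) : Continuous (𝓕 f) := by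
  obtain ⟨F, rfl⟩ := W4_schw hf
  rw [← SchwartzMap.fourier_coe]
  exact (𝓕 F).continuous

private theorem W4_iter_zero {f : ℂ → ℂ} {R : ℝ} (h : ∀ z, R < ‖z‖ → f z = 0) (j : ℕ) (z : ℂ)
    (hz : |R| < ‖z‖) : iteratedFDeriv ℝ j f z = 0 := by
  have h1 : f =ᶠ[𝓝 z] (fun _ => (0 : ℂ)) := by
    have ho : IsOpen {w : ℂ | |R| < ‖w‖} := isOpen_lt continuous_const continuous_norm
    filter_upwards [ho.mem_nhds hz] with w hw
    exact h w (lt_of_le_of_lt (le_abs_self R) hw)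
  have h2 := (Filter.EventuallyEq.iteratedFDeriv ℝ h1 j).eq_of_nhds
  rw [h2]
  simp

theorem wn_of_bound (k : ℕ) (R : ℝ) : ∃ C : ℝ, 0 < C ∧ ∀ (f : ℂ → ℂ) (A : ℝ), CC f →
    (∀ z, R < ‖z‖ → f z = 0) → (∀ j : ℕ, j ≤ k + 3 → ∀ z, ‖iteratedFDeriv ℝ j f z‖ ≤ A) →
    wn k f ≤ C * A := by
  set V : ℝ := (volume (Metric.closedBall (0 : ℂ) |R|)).toReal with hV
  set J : ℝ := ∫ ξ : ℂ, (1 + ‖ξ‖) ^ (-(3 : ℝ)) with hJ
  have hV0 : 0 ≤ V := ENNReal.toReal_nonneg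
  have hJ0 : 0 ≤ J := integral_nonneg fun ξ => by positivity
  refine ⟨2 ^ (k + 3) * (1 + 2 ^ (k + 3) * (k + 4)) * V * J + 1, by positivity, ?_⟩
  intro f A hf hR hA
  have hA0 : 0 ≤ A := le_trans (norm_nonneg _) (hA 0 (by omega) 0)
  have hint : ∀ p : ℕ, p ≤ k + 3 → ∫ v : ℂ, ‖v‖ ^ 0 * ‖iteratedFDeriv ℝ p f v‖ ≤ V * A := by
    intro p hp
    have h1 : ∫ v : ℂ, ‖v‖ ^ 0 * ‖iteratedFDeriv ℝ p f v‖ ≤
        ∫ v : ℂ, (Metric.closedBall (0 : ℂ) |R|).indicator (fun _ => A) v := by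
      refine integral_mono_of_nonneg (Eventually.of_forall fun v => by positivity) ?_
        (Eventually.of_forall fun v => ?_)
      · refine (integrable_indicator_iff measurableSet_closedBall).2 ?_
        exact integrableOn_const (measure_closedBall_lt_top).ne
      · simp only [pow_zero, one_mul]
        by_cases hv : v ∈ Metric.closedBall (0 : ℂ) |R|
        · rw [indicator_of_mem hv]
          exact hA p hp v
        · rw [indicator_of_notMem hv]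
          have : |R| < ‖v‖ := by
            simpa using hv
          rw [W4_iter_zero hR p v this, norm_zero]
    refine le_trans h1 (le_of_eq ?_)
    rw [integral_indicator measurableSet_closedBall, setIntegral_const, smul_eq_mul]
    rfl
  have hdec : ∀ n : ℕ, n ≤ k + 3 → ∀ w : ℂ, ‖w‖ ^ n * ‖𝓕 f w‖ ≤ 2 ^ n * ((n + 1) * (V * A)) := by
    intro n hn w
    have h := Real.pow_mul_norm_iteratedFDeriv_fourier_le (V := ℂ) (E := ℂ) (K := 0) (N := (k + 3 : ℕ))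
      (f := f) (by exact_mod_cast hf.smooth (k + 3)) (fun k' n' hk' hn' => by
        have hk0 : k' = 0 := by exact_mod_cast (nonpos_iff_eq_zero.1 hk')
        subst hk0
        have hc : Continuous (fun v : ℂ => ‖v‖ ^ 0 * ‖iteratedFDeriv ℝ n' f v‖) := by
          simp only [pow_zero, one_mul]
          exact ((hf.smooth n').continuous_iteratedFDeriv' ).norm
        refine hc.integrable_of_hasCompactSupport ?_
        exact (hf.supp.iteratedFDeriv n').norm.mul_left) (k := 0) (n := n) le_rfl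
      (by exact_mod_cast hn) w
    rw [norm_iteratedFDeriv_zero] at h
    refine le_trans h ?_
    simp only [pow_zero, one_mul, CharP.cast_eq_zero, mul_zero, zero_add]
    refine mul_le_mul_of_nonneg_left ?_ (by positivity)
    rw [Finset.sum_product]
    simp only [Finset.range_one, Finset.sum_singleton]
    refine le_trans (Finset.sum_le_sum fun p hp => hint p ?_) (le_of_eq ?_)
    · have := Finset.mem_range.1 hp
      omega
    · rw [Finset.sum_const, Finset.card_range, nsmul_eq_mul]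
      push_cast
      ring
  have hpt : ∀ ξ : ℂ, (1 + ‖ξ‖) ^ k * ‖𝓕 f ξ‖ ≤
      (2 ^ (k + 3) * (1 + 2 ^ (k + 3) * (k + 4)) * V * A) * (1 + ‖ξ‖) ^ (-(3 : ℝ)) := by
    intro ξ
    have hp : 0 < 1 + ‖ξ‖ := by positivity
    have h0 := hdec 0 (by omega) ξ
    have h3 := hdec (k + 3) le_rfl ξ
    simp only [pow_zero, one_mul, CharP.cast_eq_zero, zero_add] at h0
    rw [Real.rpow_neg hp.le, ← div_eq_mul_inv, le_div_iff₀ (Real.rpow_pos_of_pos hp _)]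
    have e1 : (1 + ‖ξ‖) ^ (3 : ℝ) = (1 + ‖ξ‖) ^ (3 : ℕ) := by
      rw [← Real.rpow_natCast]
      norm_num
    rw [e1]
    have e2 : (1 + ‖ξ‖) ^ k * ‖𝓕 f ξ‖ * (1 + ‖ξ‖) ^ 3 = (1 + ‖ξ‖) ^ (k + 3) * ‖𝓕 f ξ‖ := by
      rw [pow_add]
      ring
    rw [e2]
    have e3 : (1 + ‖ξ‖) ^ (k + 3) ≤ 2 ^ (k + 3) * (1 + ‖ξ‖ ^ (k + 3)) := by
      rcases le_total ‖ξ‖ 1 with h | h
      · calc (1 + ‖ξ‖) ^ (k + 3) ≤ 2 ^ (k + 3) := by
              refine pow_le_pow_left₀ hp.le ?_ _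
              linarith
          _ ≤ 2 ^ (k + 3) * (1 + ‖ξ‖ ^ (k + 3)) := by
              have : (0 : ℝ) ≤ ‖ξ‖ ^ (k + 3) := by positivity
              have h2 : (0 : ℝ) < 2 ^ (k + 3) := by positivity
              nlinarith
      · calc (1 + ‖ξ‖) ^ (k + 3) ≤ (2 * ‖ξ‖) ^ (k + 3) := by
              refine pow_le_pow_left₀ hp.le ?_ _
              linarith
          _ = 2 ^ (k + 3) * ‖ξ‖ ^ (k + 3) := by rw [mul_pow]
          _ ≤ 2 ^ (k + 3) * (1 + ‖ξ‖ ^ (k + 3)) := by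
              refine mul_le_mul_of_nonneg_left ?_ (by positivity)
              linarith
    calc (1 + ‖ξ‖) ^ (k + 3) * ‖𝓕 f ξ‖ ≤ 2 ^ (k + 3) * (1 + ‖ξ‖ ^ (k + 3)) * ‖𝓕 f ξ‖ :=
          mul_le_mul_of_nonneg_right e3 (norm_nonneg _)
      _ = 2 ^ (k + 3) * (‖𝓕 f ξ‖ + ‖ξ‖ ^ (k + 3) * ‖𝓕 f ξ‖) := by ring
      _ ≤ 2 ^ (k + 3) * (V * A + 2 ^ (k + 3) * (((k + 3 : ℕ) + 1) * (V * A))) := by
          refine mul_le_mul_of_nonneg_left (add_le_add h0 h3) (by positivity)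
      _ = 2 ^ (k + 3) * (1 + 2 ^ (k + 3) * (k + 4)) * V * A := by
          push_cast
          ring
  have hJi : Integrable (fun ξ : ℂ => (1 + ‖ξ‖) ^ (-(3 : ℝ))) := by
    refine integrable_one_add_norm ?_
    rw [Complex.finrank_real_complex]
    norm_num
  have hfin : wn k f ≤ (2 ^ (k + 3) * (1 + 2 ^ (k + 3) * (k + 4)) * V * A) * J := by
    unfold wn
    rw [hJ, ← integral_const_mul]
    exact integral_mono_of_nonneg (Eventually.of_forall fun ξ => by positivity)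
      (hJi.const_mul _) (Eventually.of_forall hpt)
  calc wn k f ≤ (2 ^ (k + 3) * (1 + 2 ^ (k + 3) * (k + 4)) * V * A) * J := hfin
    _ = (2 ^ (k + 3) * (1 + 2 ^ (k + 3) * (k + 4)) * V * J) * A := by ring
    _ ≤ (2 ^ (k + 3) * (1 + 2 ^ (k + 3) * (k + 4)) * V * J + 1) * A := by
        refine mul_le_mul_of_nonneg_right ?_ hA0
        linarith

private theorem W4_fourier_dir {f : ℂ → ℂ} (hf : CC f) (m ξ : ℂ) :
    𝓕 (fun z => fderiv ℝ f z m) ξ = (2 * Real.pi * I) * ((inner ℝ ξ m : ℝ) : ℂ) * 𝓕 f ξ := by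
  have hd : Differentiable ℝ f := (hf.smooth 1).differentiable (by norm_num)
  have hcf : Continuous (fderiv ℝ f) := (hf.smooth 1).continuous_fderiv (by norm_num)
  have hfi : Integrable f := (hf.smooth 0).continuous.integrable_of_hasCompactSupport hf.supp
  have hfd : Integrable (fderiv ℝ f) :=
    hcf.integrable_of_hasCompactSupport (hf.supp.fderiv ℝ)
  have h := Real.fourier_fderiv hfi hd hfd
  have h2 : (𝓕 (fderiv ℝ f) ξ) m =
      (VectorFourier.fourierSMulRight (-innerSL ℝ) (𝓕 f) ξ) m := by rw [h]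
  rw [Real.fourier_continuousLinearMap_apply hfd] at h2
  rw [h2]
  rw [VectorFourier.fourierSMulRight_apply]
  have h3 : ((-innerSL ℝ : ℂ →L[ℝ] ℂ →L[ℝ] ℝ) ξ) m = -(inner ℝ ξ m : ℝ) := rfl
  rw [h3]
  simp only [smul_eq_mul, real_smul]
  push_cast
  ring

private theorem W4_fourier_lapc {f : ℂ → ℂ} (hf : CC f) (ξ : ℂ) :
    𝓕 (lapc f) ξ = -((2 * Real.pi) ^ 2 : ℂ) * ((‖ξ‖ ^ 2 : ℝ) : ℂ) * 𝓕 f ξ := by
  have hx : CC (px f) := hf.px
  have hy : CC (py f) := hf.py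
  have i1 : Integrable (px (px f)) :=
    (hx.px.smooth 0).continuous.integrable_of_hasCompactSupport hx.px.supp
  have i2 : Integrable (py (py f)) :=
    (hy.py.smooth 0).continuous.integrable_of_hasCompactSupport hy.py.supp
  have hadd : 𝓕 (lapc f) ξ = 𝓕 (px (px f)) ξ + 𝓕 (py (py f)) ξ := by
    rw [Real.fourier_eq, Real.fourier_eq, Real.fourier_eq, ← integral_add]
    · refine integral_congr_ae (Eventually.of_forall fun v => ?_)
      simp only [lapc, smul_add]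
    · exact (Real.fourierIntegral_convergent_iff ξ).2 i1
    · exact (Real.fourierIntegral_convergent_iff ξ).2 i2
  have hx1 : 𝓕 (px (px f)) ξ = (2 * Real.pi * I) * ((inner ℝ ξ 1 : ℝ) : ℂ) * 𝓕 (px f) ξ :=
    W4_fourier_dir hx 1 ξ
  have hx2 : 𝓕 (px f) ξ = (2 * Real.pi * I) * ((inner ℝ ξ 1 : ℝ) : ℂ) * 𝓕 f ξ :=
    W4_fourier_dir hf 1 ξ
  have hy1 : 𝓕 (py (py f)) ξ = (2 * Real.pi * I) * ((inner ℝ ξ I : ℝ) : ℂ) * 𝓕 (py f) ξ :=
    W4_fourier_dir hy I ξ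
  have hy2 : 𝓕 (py f) ξ = (2 * Real.pi * I) * ((inner ℝ ξ I : ℝ) : ℂ) * 𝓕 f ξ :=
    W4_fourier_dir hf I ξ
  have n1 : (inner ℝ ξ 1 : ℝ) = ξ.re := by simp [Complex.inner]
  have n2 : (inner ℝ ξ I : ℝ) = ξ.im := by simp [Complex.inner]
  rw [hadd, hx1, hx2, hy1, hy2, n1, n2, ← Complex.normSq_eq_norm_sq, Complex.normSq_apply]
  push_cast
  have hI : I ^ 2 = -1 := I_sq
  linear_combination (4 * (Real.pi : ℂ) ^ 2 * ((ξ.re : ℂ) ^ 2 + (ξ.im : ℂ) ^ 2) * 𝓕 f ξ) * hI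

private theorem W4_plancherel {f : ℂ → ℂ} (hf : CC f) :
    ∫ ξ, ‖𝓕 f ξ‖ ^ 2 = ∫ z, ‖f z‖ ^ 2 := by
  obtain ⟨F, rfl⟩ := W4_schw hf
  have h := SchwartzMap.integral_norm_sq_fourier F
  rw [SchwartzMap.fourier_coe] at h
  exact h

private theorem W4_sq_integrable {f : ℂ → ℂ} (hf : CC f) (k : ℕ) :
    Integrable (fun ξ : ℂ => (1 + ‖ξ‖) ^ k * ‖𝓕 f ξ‖ ^ 2) := by
  have hfi : Integrable f := (hf.smooth 0).continuous.integrable_of_hasCompactSupport hf.supp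
  have hM : ∀ ξ, ‖𝓕 f ξ‖ ≤ ∫ z, ‖f z‖ := fun ξ =>
    VectorFourier.norm_fourierIntegral_le_integral_norm Real.fourierChar volume
      (innerₗ ℂ) f ξ
  refine ((wn_integrable hf k).mul_const (∫ z, ‖f z‖)).mono' ?_ (Eventually.of_forall fun ξ => ?_)
  · refine Continuous.aestronglyMeasurable ?_
    exact ((continuous_const.add continuous_norm).pow k).mul ((W4_fourier_cont hf).norm.pow 2)
  · rw [Real.norm_of_nonneg (by positivity), pow_two, ← mul_assoc]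
    exact mul_le_mul_of_nonneg_left (hM ξ) (by positivity)

theorem wn_L2 : ∃ C : ℝ, 0 < C ∧ ∀ f : ℂ → ℂ, CC f →
    wn 0 f ^ 2 ≤ C * ((∫ z, ‖f z‖ ^ 2) + ∫ z, ‖lapc f z‖ ^ 2) := by
  set H : ℝ := ∫ ξ : ℂ, ((1 + ‖ξ‖ ^ 2)⁻¹) ^ 2 with hH
  have hH0 : 0 ≤ H := integral_nonneg fun ξ => by positivity
  have hHi : Integrable (fun ξ : ℂ => ((1 + ‖ξ‖ ^ 2)⁻¹) ^ 2) := by
    have h := integrable_rpow_neg_one_add_norm_sq (E := ℂ) (μ := volume) (r := 4) (by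
      rw [Complex.finrank_real_complex]; norm_num)
    refine h.congr (Eventually.of_forall fun ξ => ?_)
    have hp : (0 : ℝ) < 1 + ‖ξ‖ ^ 2 := by positivity
    simp only
    rw [show (-4 / 2 : ℝ) = -((2 : ℕ) : ℝ) by norm_num, Real.rpow_neg hp.le, Real.rpow_natCast,
      inv_pow]
  refine ⟨2 * (H + 1), by positivity, fun f hf => ?_⟩
  set G : ℝ := ∫ ξ : ℂ, ((1 + ‖ξ‖ ^ 2) * ‖𝓕 f ξ‖) ^ 2 with hG
  have hGi : Integrable (fun ξ : ℂ => ((1 + ‖ξ‖ ^ 2) * ‖𝓕 f ξ‖) ^ 2) := by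
    refine (W4_sq_integrable hf 4).mono' ?_ (Eventually.of_forall fun ξ => ?_)
    · refine Continuous.aestronglyMeasurable ?_
      exact ((continuous_const.add (continuous_norm.pow 2)).mul (W4_fourier_cont hf).norm).pow 2
    · rw [Real.norm_of_nonneg (by positivity), mul_pow]
      refine mul_le_mul_of_nonneg_right ?_ (by positivity)
      have h0 : (0 : ℝ) ≤ ‖ξ‖ := norm_nonneg _
      have h1 : 1 + ‖ξ‖ ^ 2 ≤ (1 + ‖ξ‖) ^ 2 := by nlinarith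
      calc (1 + ‖ξ‖ ^ 2) ^ 2 ≤ ((1 + ‖ξ‖) ^ 2) ^ 2 := pow_le_pow_left₀ (by positivity) h1 2
        _ = (1 + ‖ξ‖) ^ 4 := by ring
  have hWi : Integrable (fun ξ : ℂ => ‖𝓕 f ξ‖) := by
    have h := wn_integrable hf 0
    simpa using h
  have hW : wn 0 f = ∫ ξ : ℂ, ‖𝓕 f ξ‖ := by
    unfold wn
    simp
  have hW0 : 0 ≤ wn 0 f := wn_nonneg 0 f
  -- Cauchy-Schwarz
  have hCS : (wn 0 f) ^ 2 ≤ (H + 1) * G := by
    set t : ℝ := wn 0 f / (H + 1) with ht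
    have h1 : 0 ≤ ∫ ξ : ℂ, (t * (1 + ‖ξ‖ ^ 2)⁻¹ - (1 + ‖ξ‖ ^ 2) * ‖𝓕 f ξ‖) ^ 2 :=
      integral_nonneg fun ξ => by positivity
    have h2 : ∫ ξ : ℂ, (t * (1 + ‖ξ‖ ^ 2)⁻¹ - (1 + ‖ξ‖ ^ 2) * ‖𝓕 f ξ‖) ^ 2 =
        t ^ 2 * H - 2 * t * wn 0 f + G := by
      have i1 : Integrable (fun ξ : ℂ => t ^ 2 * ((1 + ‖ξ‖ ^ 2)⁻¹) ^ 2) := hHi.const_mul _
      have i2 : Integrable (fun ξ : ℂ => 2 * t * ‖𝓕 f ξ‖) := hWi.const_mul _
      have i3 : Integrable (fun ξ : ℂ => t ^ 2 * ((1 + ‖ξ‖ ^ 2)⁻¹) ^ 2 - 2 * t * ‖𝓕 f ξ‖) :=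
        i1.sub i2
      have e1 : ∫ ξ : ℂ, (t * (1 + ‖ξ‖ ^ 2)⁻¹ - (1 + ‖ξ‖ ^ 2) * ‖𝓕 f ξ‖) ^ 2 =
          ∫ ξ : ℂ, ((t ^ 2 * ((1 + ‖ξ‖ ^ 2)⁻¹) ^ 2 - 2 * t * ‖𝓕 f ξ‖) +
            ((1 + ‖ξ‖ ^ 2) * ‖𝓕 f ξ‖) ^ 2) := by
        refine integral_congr_ae (Eventually.of_forall fun ξ => ?_)
        have hp : (1 : ℝ) + ‖ξ‖ ^ 2 ≠ 0 := by positivity
        simp only
        field_simp
        ring
      rw [e1, integral_add i3 hGi, integral_sub i1 i2, integral_const_mul, integral_const_mul, hW]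
    rw [h2] at h1
    have hH1 : 0 < H + 1 := by linarith
    have h3 : t * (H + 1) = wn 0 f := by
      rw [ht]
      field_simp
    nlinarith [sq_nonneg t, mul_nonneg (sq_nonneg t) hH0]
  have hG2 : G ≤ 2 * ((∫ z, ‖f z‖ ^ 2) + ∫ z, ‖lapc f z‖ ^ 2) := by
    have hl : CC (lapc f) := hf.lapc
    have j1 : Integrable (fun ξ : ℂ => ‖𝓕 f ξ‖ ^ 2) := by
      simpa using W4_sq_integrable hf 0
    have j2 : Integrable (fun ξ : ℂ => ‖𝓕 (lapc f) ξ‖ ^ 2) := by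
      simpa using W4_sq_integrable hl 0
    rw [← W4_plancherel hf, ← W4_plancherel hl, ← integral_add j1 j2, ← integral_const_mul]
    refine integral_mono hGi ((j1.add j2).const_mul 2) fun ξ => ?_
    simp only
    rw [W4_fourier_lapc hf]
    have e1 : ‖-((2 * Real.pi) ^ 2 : ℂ) * ((‖ξ‖ ^ 2 : ℝ) : ℂ) * 𝓕 f ξ‖ =
        (2 * Real.pi) ^ 2 * ‖ξ‖ ^ 2 * ‖𝓕 f ξ‖ := by
      rw [norm_mul, norm_mul, norm_neg, norm_pow, norm_mul, Complex.norm_real, Complex.norm_real,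
        Complex.norm_two, Real.norm_of_nonneg Real.pi_pos.le,
        Real.norm_of_nonneg (by positivity : (0 : ℝ) ≤ ‖ξ‖ ^ 2)]
    rw [e1]
    have hpi : 1 ≤ (2 * Real.pi) ^ 2 := by
      have := Real.pi_gt_three
      nlinarith
    have h0 : 0 ≤ ‖ξ‖ ^ 2 * ‖𝓕 f ξ‖ := by positivity
    have h1 : ‖ξ‖ ^ 2 * ‖𝓕 f ξ‖ ≤ (2 * Real.pi) ^ 2 * ‖ξ‖ ^ 2 * ‖𝓕 f ξ‖ := by
      rw [mul_assoc]
      nlinarith
    have h2 : (1 + ‖ξ‖ ^ 2) * ‖𝓕 f ξ‖ = ‖𝓕 f ξ‖ + ‖ξ‖ ^ 2 * ‖𝓕 f ξ‖ := by ring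
    rw [h2]
    have h3 : (‖ξ‖ ^ 2 * ‖𝓕 f ξ‖) ^ 2 ≤ ((2 * Real.pi) ^ 2 * ‖ξ‖ ^ 2 * ‖𝓕 f ξ‖) ^ 2 :=
      pow_le_pow_left₀ h0 h1 2
    nlinarith [sq_nonneg (‖𝓕 f ξ‖ - ‖ξ‖ ^ 2 * ‖𝓕 f ξ‖)]
  calc wn 0 f ^ 2 ≤ (H + 1) * G := hCS
    _ ≤ (H + 1) * (2 * ((∫ z, ‖f z‖ ^ 2) + ∫ z, ‖lapc f z‖ ^ 2)) :=
        mul_le_mul_of_nonneg_left hG2 (by linarith)
    _ = _ := by ring

theorem wn_deriv (j : ℕ) : ∃ C : ℝ, 0 < C ∧ ∀ f : ℂ → ℂ, CC f → ∀ z,
    ‖iteratedFDeriv ℝ j f z‖ ≤ C * wn j f := by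
  refine ⟨(2 * Real.pi) ^ j, by positivity, fun f hf z => ?_⟩
  have hfi : Integrable f := (hf.smooth 0).continuous.integrable_of_hasCompactSupport hf.supp
  have hFi : Integrable (𝓕 f) := by
    have h := wn_integrable hf 0
    simp only [pow_zero, one_mul] at h
    exact (integrable_norm_iff (W4_fourier_cont hf).aestronglyMeasurable).1 h
  have hinv : 𝓕⁻ (𝓕 f) = f := (hf.smooth 0).continuous.fourierInv_fourier_eq hfi hFi
  have hfeq : f = (𝓕 (𝓕 f)) ∘ (LinearIsometryEquiv.neg ℝ (E := ℂ)) := by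
    funext w
    have h := congrFun hinv w
    rw [Real.fourierInv_eq_fourier_neg] at h
    simpa using h.symm
  have hnorm : ∀ n : ℕ, Integrable (fun v : ℂ => ‖v‖ ^ n * ‖𝓕 f v‖) := by
    intro n
    refine (wn_integrable hf n).mono' ?_ (Eventually.of_forall fun ξ => ?_)
    · exact ((continuous_norm.pow n).mul (W4_fourier_cont hf).norm).aestronglyMeasurable
    · rw [Real.norm_of_nonneg (by positivity)]
      refine mul_le_mul_of_nonneg_right ?_ (norm_nonneg _)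
      exact pow_le_pow_left₀ (norm_nonneg _) (by linarith) n
  have e1 : ‖iteratedFDeriv ℝ j f z‖ = ‖iteratedFDeriv ℝ j (𝓕 (𝓕 f)) (-z)‖ := by
    conv_lhs => rw [hfeq]
    rw [LinearIsometryEquiv.norm_iteratedFDeriv_comp_right]
    simp
  rw [e1, Real.iteratedFDeriv_fourier (N := ⊤) (fun n _ => hnorm n)
    (W4_fourier_cont hf).aestronglyMeasurable le_top]
  refine le_trans (VectorFourier.norm_fourierIntegral_le_integral_norm _ _ _ _ _) ?_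
  unfold wn
  rw [← integral_const_mul]
  refine integral_mono_of_nonneg (Eventually.of_forall fun ξ => norm_nonneg _)
    ((wn_integrable hf j).const_mul _) (Eventually.of_forall fun ξ => ?_)
  simp only
  refine le_trans (VectorFourier.norm_fourierPowSMulRight_le (innerSL ℝ) (𝓕 f) ξ j) ?_
  have hL : ‖innerSL (E := ℂ) ℝ‖ ≤ 1 := norm_innerSL_le _
  calc (2 * Real.pi * ‖innerSL (E := ℂ) ℝ‖) ^ j * ‖ξ‖ ^ j * ‖𝓕 f ξ‖
      ≤ (2 * Real.pi) ^ j * (1 + ‖ξ‖) ^ j * ‖𝓕 f ξ‖ := by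
        refine mul_le_mul_of_nonneg_right ?_ (norm_nonneg _)
        refine mul_le_mul ?_ ?_ (by positivity) (by positivity)
        · refine pow_le_pow_left₀ (by positivity) ?_ j
          have := Real.pi_pos
          nlinarith [norm_nonneg (innerSL (E := ℂ) ℝ)]
        · exact pow_le_pow_left₀ (norm_nonneg _) (by linarith) j
    _ = (2 * Real.pi) ^ j * ((1 + ‖ξ‖) ^ j * ‖𝓕 f ξ‖) := by ring

end Pool.Agent.BB4B37
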