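import Pool.Agent.W_bb4b37_h5.P.Cacc
import Pool.Agent.W_bb4b37_h5.P.W2
import Pool.Agent.W_bb4b37_h5.P.W3
import Pool.Agent.W_bb4b37_h5.P.W4

/-! # Bootstrap steps -/

set_option autoImplicit false

namespace Pool.Agent.BB4B37

open Complex Filter Topology Set MeasureTheory BoundedContinuousFunction
open scoped FourierTransform

/-! ### calculus of `px`, `py`, `lapc` -/

theorem Step_sm_px {f : ℂ → ℂ} (hf : ∀ n : ℕ, ContDiff ℝ n f) (n : ℕ) : ContDiff ℝ n (px f) := by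
  have h : ContDiff ℝ n (fderiv ℝ f) := (hf (n + 1)).fderiv_right (by norm_cast)
  exact h.clm_apply contDiff_const

theorem Step_sm_py {f : ℂ → ℂ} (hf : ∀ n : ℕ, ContDiff ℝ n f) (n : ℕ) : ContDiff ℝ n (py f) := by
  have h : ContDiff ℝ n (fderiv ℝ f) := (hf (n + 1)).fderiv_right (by norm_cast)
  exact h.clm_apply contDiff_const

theorem Step_sm_lapc {f : ℂ → ℂ} (hf : ∀ n : ℕ, ContDiff ℝ n f) (n : ℕ) :
    ContDiff ℝ n (lapc f) :=
  (Step_sm_px (Step_sm_px hf) n).add (Step_sm_py (Step_sm_py hf) n)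

theorem Step_diff {f : ℂ → ℂ} (hf : ∀ n : ℕ, ContDiff ℝ n f) (z : ℂ) : DifferentiableAt ℝ f z :=
  (hf 1).contDiffAt.differentiableAt (by norm_num)

theorem Step_px_mul {f g : ℂ → ℂ} (hf : ∀ n : ℕ, ContDiff ℝ n f) (hg : ∀ n : ℕ, ContDiff ℝ n g) :
    px (fun z => f z * g z) = fun z => px f z * g z + f z * px g z := by
  funext z
  unfold px
  rw [fderiv_fun_mul (Step_diff hf z) (Step_diff hg z)]
  simp only [_root_.add_apply, _root_.smul_apply, smul_eq_mul]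
  ring

theorem Step_py_mul {f g : ℂ → ℂ} (hf : ∀ n : ℕ, ContDiff ℝ n f) (hg : ∀ n : ℕ, ContDiff ℝ n g) :
    py (fun z => f z * g z) = fun z => py f z * g z + f z * py g z := by
  funext z
  unfold py
  rw [fderiv_fun_mul (Step_diff hf z) (Step_diff hg z)]
  simp only [_root_.add_apply, _root_.smul_apply, smul_eq_mul]
  ring

theorem Step_px_add {f g : ℂ → ℂ} (hf : ∀ n : ℕ, ContDiff ℝ n f) (hg : ∀ n : ℕ, ContDiff ℝ n g) :
    px (fun z => f z + g z) = fun z => px f z + px g z := by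
  funext z
  unfold px
  rw [fderiv_fun_add (Step_diff hf z) (Step_diff hg z), _root_.add_apply]

theorem Step_py_add {f g : ℂ → ℂ} (hf : ∀ n : ℕ, ContDiff ℝ n f) (hg : ∀ n : ℕ, ContDiff ℝ n g) :
    py (fun z => f z + g z) = fun z => py f z + py g z := by
  funext z
  unfold py
  rw [fderiv_fun_add (Step_diff hf z) (Step_diff hg z), _root_.add_apply]

theorem Step_sm_mul {f g : ℂ → ℂ} (hf : ∀ n : ℕ, ContDiff ℝ n f) (hg : ∀ n : ℕ, ContDiff ℝ n g)
    (n : ℕ) : ContDiff ℝ n (fun z => f z * g z) := (hf n).mul (hg n)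

theorem Step_sm_const (c : ℂ) (n : ℕ) : ContDiff ℝ n (fun _ : ℂ => c) := contDiff_const

theorem Step_px_const (c : ℂ) : px (fun _ : ℂ => c) = fun _ => 0 := by
  funext z
  unfold px
  rw [fderiv_fun_const]
  rfl

theorem Step_py_const (c : ℂ) : py (fun _ : ℂ => c) = fun _ => 0 := by
  funext z
  unfold py
  rw [fderiv_fun_const]
  rfl

theorem Step_lapc_mul {f g : ℂ → ℂ} (hf : ∀ n : ℕ, ContDiff ℝ n f)
    (hg : ∀ n : ℕ, ContDiff ℝ n g) (z : ℂ) :
    lapc (fun z => f z * g z) z =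
      f z * lapc g z + 2 * (px f z * px g z + py f z * py g z) + lapc f z * g z := by
  unfold lapc
  rw [Step_px_mul hf hg, Step_py_mul hf hg,
    Step_px_add (Step_sm_mul (Step_sm_px hf) hg) (Step_sm_mul hf (Step_sm_px hg)),
    Step_py_add (Step_sm_mul (Step_sm_py hf) hg) (Step_sm_mul hf (Step_sm_py hg)),
    Step_px_mul (Step_sm_px hf) hg, Step_px_mul hf (Step_sm_px hg),
    Step_py_mul (Step_sm_py hf) hg, Step_py_mul hf (Step_sm_py hg)]
  ring

theorem Step_lapc_div {f g : ℂ → ℂ} (hf : ∀ n : ℕ, ContDiff ℝ n f)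
    (hg : ∀ n : ℕ, ContDiff ℝ n g) (z : ℂ) :
    lapc (fun z => f z * g z) z =
      (f z * lapc g z - lapc f z * g z) + px (fun z => px f z * 2 * g z) z +
        py (fun z => py f z * 2 * g z) z := by
  rw [Step_lapc_mul hf hg,
    Step_px_mul (f := fun z => px f z * 2) (Step_sm_mul (Step_sm_px hf) (Step_sm_const 2)) hg,
    Step_py_mul (f := fun z => py f z * 2) (Step_sm_mul (Step_sm_py hf) (Step_sm_const 2)) hg,
    Step_px_mul (Step_sm_px hf) (Step_sm_const 2), Step_py_mul (Step_sm_py hf) (Step_sm_const 2),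
    Step_px_const, Step_py_const]
  unfold lapc
  ring

theorem Step_px_zero {f : ℂ → ℂ} {b : ℝ} (h : ∀ w, b < ‖w‖ → f w = 0) (z : ℂ) (hz : b < ‖z‖) :
    px f z = 0 := by
  have h1 : f =ᶠ[𝓝 z] fun _ => (0 : ℂ) := by
    filter_upwards [(isOpen_lt continuous_const continuous_norm).mem_nhds hz] with w hw
    exact h w hw
  unfold px
  rw [h1.fderiv_eq, fderiv_fun_const]
  rfl

theorem Step_py_zero {f : ℂ → ℂ} {b : ℝ} (h : ∀ w, b < ‖w‖ → f w = 0) (z : ℂ) (hz : b < ‖z‖) :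
    py f z = 0 := by
  have h1 : f =ᶠ[𝓝 z] fun _ => (0 : ℂ) := by
    filter_upwards [(isOpen_lt continuous_const continuous_norm).mem_nhds hz] with w hw
    exact h w hw
  unfold py
  rw [h1.fderiv_eq, fderiv_fun_const]
  rfl

theorem Step_lapc_zero {f : ℂ → ℂ} {b : ℝ} (h : ∀ w, b < ‖w‖ → f w = 0) (z : ℂ) (hz : b < ‖z‖) :
    lapc f z = 0 := by
  unfold lapc
  rw [Step_px_zero (Step_px_zero h) z hz, Step_py_zero (Step_py_zero h) z hz, add_zero]

theorem Step_ctf_zero (a : ℝ) {b : ℝ} (w : ℂ) (hw : b < ‖w‖) : ctf a b w = 0 := ctf_zero hw.le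

/-- insertion of a second cut-off -/
theorem Step_insert {A : ℂ → ℂ} {b d : ℝ} (hb : 0 < b) (hbd : b < d)
    (h : ∀ w, b < ‖w‖ → A w = 0) (U : ℂ → ℂ) :
    (fun z => A z * U z) = fun z => A z * (ctf b d z * U z) := by
  funext z
  rcases le_or_gt ‖z‖ b with hz | hz
  · rw [ctf_one hb hbd hz, one_mul]
  · rw [h z hz, zero_mul, zero_mul]

theorem Step_wn_insert (k : ℕ) {A : ℂ → ℂ} (hA : CC A) {b d : ℝ} (hb : 0 < b) (hbd : b < d)
    (h : ∀ w, b < ‖w‖ → A w = 0) {U : ℂ → ℂ} (hU : ∀ n : ℕ, ContDiff ℝ n U) :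
    wn k (fun z => A z * U z) ≤ wn k A * wn k (fun z => ctf b d z * U z) := by
  rw [Step_insert hb hbd h U]
  exact wn_mul k hA ((ctf_cc b d).mul hU)

theorem Step_sq (x B p q m : ℝ) :
    (x + 2 * B * (p + q) + B * m) ^ 2 ≤
      3 * (x ^ 2 + 8 * B ^ 2 * (p ^ 2 + q ^ 2) + B ^ 2 * m ^ 2) := by
  have h1 : ∀ y w : ℝ, (x + y + w) ^ 2 ≤ 3 * (x ^ 2 + y ^ 2 + w ^ 2) := fun y w => by
    nlinarith [sq_nonneg (x - y), sq_nonneg (x - w), sq_nonneg (y - w)]
  have h2 : (2 * B * (p + q)) ^ 2 ≤ 8 * B ^ 2 * (p ^ 2 + q ^ 2) := by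
    have h3 : (p + q) ^ 2 ≤ 2 * (p ^ 2 + q ^ 2) := by nlinarith [sq_nonneg (p - q)]
    calc (2 * B * (p + q)) ^ 2 = 4 * B ^ 2 * (p + q) ^ 2 := by ring
      _ ≤ 4 * B ^ 2 * (2 * (p ^ 2 + q ^ 2)) := mul_le_mul_of_nonneg_left h3 (by positivity)
      _ = _ := by ring
  have h4 : (B * m) ^ 2 = B ^ 2 * m ^ 2 := by ring
  have h5 := h1 (2 * B * (p + q)) (B * m)
  rw [h4] at h5
  linarith

theorem Step_arith {C2 V B C1 m m' I1 I2 W : ℝ} (hC2 : 0 < C2) (hV : 0 ≤ V) (hC1 : 0 < C1)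
    (hm : 0 ≤ m) (hm' : 0 ≤ m') (h1 : I1 ≤ V * m ^ 2)
    (h2 : I2 ≤ 3 * V * m' ^ 2 + 24 * B ^ 2 * (C1 * (m ^ 2 + m' ^ 2)) + 3 * V * B ^ 2 * m ^ 2)
    (hW : W ≤ C2 * (I1 + I2)) :
    W ≤ (C2 * (V + 3 * V * B ^ 2 + 3 * V + 24 * B ^ 2 * C1) + 1) * (m + m') ^ 2 := by
  have h4 : m ^ 2 ≤ (m + m') ^ 2 := by nlinarith
  have h5 : m' ^ 2 ≤ (m + m') ^ 2 := by nlinarith
  have h6 : m ^ 2 + m' ^ 2 ≤ (m + m') ^ 2 := by nlinarith
  have h7 : 0 ≤ (m + m') ^ 2 := sq_nonneg _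
  generalize (m + m') ^ 2 = T at *
  have a1 : V * m ^ 2 ≤ V * T := mul_le_mul_of_nonneg_left h4 hV
  have a2 : 3 * V * m' ^ 2 ≤ 3 * V * T := mul_le_mul_of_nonneg_left h5 (by positivity)
  have a3 : 24 * B ^ 2 * (C1 * (m ^ 2 + m' ^ 2)) ≤ 24 * B ^ 2 * (C1 * T) :=
    mul_le_mul_of_nonneg_left (mul_le_mul_of_nonneg_left h6 hC1.le) (by positivity)
  have a4 : 3 * V * B ^ 2 * m ^ 2 ≤ 3 * V * B ^ 2 * T :=
    mul_le_mul_of_nonneg_left h4 (by positivity)
  have a5 : I1 + I2 ≤ (V + 3 * V * B ^ 2 + 3 * V + 24 * B ^ 2 * C1) * T := by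
    calc I1 + I2 ≤ V * T + (3 * V * T + 24 * B ^ 2 * (C1 * T) + 3 * V * B ^ 2 * T) := by linarith
      _ = _ := by ring
  have a6 := hW.trans (mul_le_mul_of_nonneg_left a5 hC2.le)
  rw [add_mul, one_mul, mul_assoc]
  linarith

/-- start of the bootstrap: bound of `wn 0` from sup bounds -/
theorem wn_zero_of_sup (a b : ℝ) (ha : 0 < a) (hab : a < b) : ∃ C : ℝ, 0 < C ∧
    ∀ (U : ℂ → ℂ) (m m' : ℝ), (∀ n : ℕ, ContDiff ℝ n U) → (∀ z, ‖z‖ ≤ b → ‖U z‖ ≤ m) →
    (∀ z, ‖z‖ ≤ b → ‖lapc U z‖ ≤ m') → wn 0 (fun z => ctf a ((a + b) / 2) z * U z) ≤ C * (m + m') := by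
  set c := (a + b) / 2 with hc
  have hac : a < c := by rw [hc]; linarith
  have hcb : c < b := by rw [hc]; linarith
  have hc0 : 0 < c := ha.trans hac
  obtain ⟨C1, hC1, hcac⟩ := caccio c b hc0 hcb
  obtain ⟨C2, hC2, hL2⟩ := wn_L2
  have hη := ctf_cc a c
  set V : ℝ := (volume : Measure ℂ).real (Metric.closedBall (0 : ℂ) c) with hV
  have hV0 : 0 ≤ V := measureReal_nonneg
  set B : ℝ := 1 + wn 0 (px (ctf a c)) + wn 0 (py (ctf a c)) + wn 0 (lapc (ctf a c)) with hB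
  have hBx0 := wn_nonneg 0 (px (ctf a c))
  have hBy0 := wn_nonneg 0 (py (ctf a c))
  have hBl0 := wn_nonneg 0 (lapc (ctf a c))
  have hB1 : 1 ≤ B := by rw [hB]; linarith
  have hBx : ∀ z, ‖px (ctf a c) z‖ ≤ B := fun z => (wn_sup hη.px z).trans (by rw [hB]; linarith)
  have hBy : ∀ z, ‖py (ctf a c) z‖ ≤ B := fun z => (wn_sup hη.py z).trans (by rw [hB]; linarith)
  have hBl : ∀ z, ‖lapc (ctf a c) z‖ ≤ B := fun z => (wn_sup hη.lapc z).trans (by rw [hB]; linarith)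
  set K : ℝ := C2 * (V + 3 * V * B ^ 2 + 3 * V + 24 * B ^ 2 * C1) + 1 with hK
  have hK0 : 0 < K := by positivity
  refine ⟨√K, Real.sqrt_pos.2 hK0, fun U m m' hU hm hm' => ?_⟩
  have hm0 : 0 ≤ m := (norm_nonneg _).trans (hm 0 (by rw [norm_zero]; linarith))
  have hm'0 : 0 ≤ m' := (norm_nonneg _).trans (hm' 0 (by rw [norm_zero]; linarith))
  set f : ℂ → ℂ := fun z => ctf a c z * U z with hf
  have hfcc : CC f := hη.mul hU
  have h1 := hL2 f hfcc
  have hfin : (volume : Measure ℂ) (Metric.closedBall (0 : ℂ) c) ≠ ⊤ :=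
    (isCompact_closedBall (0 : ℂ) c).measure_lt_top.ne
  -- the function
  have hf0 : ∀ z, c < ‖z‖ → f z = 0 := fun z hz => by
    rw [hf]
    simp only [ctf_zero hz.le, zero_mul]
  have hI1 : ∫ z, ‖f z‖ ^ 2 ≤ V * m ^ 2 := by
    have e1 : ∫ z, ‖f z‖ ^ 2 = ∫ z in Metric.closedBall (0 : ℂ) c, ‖f z‖ ^ 2 := by
      symm
      apply setIntegral_eq_integral_of_forall_compl_eq_zero
      intro z hz
      rw [mem_closedBall_zero_iff, not_le] at hz
      rw [hf0 z hz]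
      simp
    rw [e1]
    have e2 : ∀ z ∈ Metric.closedBall (0 : ℂ) c, ‖‖f z‖ ^ 2‖ ≤ m ^ 2 := by
      intro z hz
      rw [mem_closedBall_zero_iff] at hz
      rw [Real.norm_of_nonneg (by positivity)]
      have e3 : ‖f z‖ ≤ m := by
        rw [hf]
        simp only [norm_mul]
        calc ‖ctf a c z‖ * ‖U z‖ ≤ 1 * m := mul_le_mul (ctf_norm a c z) (hm z (hz.trans hcb.le))
              (norm_nonneg _) zero_le_one
          _ = m := one_mul _
      exact pow_le_pow_left₀ (norm_nonneg _) e3 2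
    have e4 := norm_setIntegral_le_of_norm_le_const (lt_top_iff_ne_top.2 hfin) e2
    refine (le_abs_self _).trans (e4.trans (le_of_eq ?_))
    rw [hV, mul_comm]
  -- its Laplacian
  have hl0 : ∀ z, c < ‖z‖ → lapc f z = 0 := Step_lapc_zero hf0
  have hcontx : Continuous (px U) := (Step_sm_px hU 0).continuous
  have hconty : Continuous (py U) := (Step_sm_py hU 0).continuous
  have hintg : IntegrableOn (fun z => 3 * (m' ^ 2 + 8 * B ^ 2 * (‖px U z‖ ^ 2 + ‖py U z‖ ^ 2) +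
      B ^ 2 * m ^ 2)) (Metric.closedBall (0 : ℂ) c) := by
    apply ContinuousOn.integrableOn_compact (isCompact_closedBall (0 : ℂ) c)
    fun_prop
  have hintg2 : IntegrableOn (fun z => (‖px U z‖ ^ 2 + ‖py U z‖ ^ 2))
      (Metric.closedBall (0 : ℂ) c) := by
    apply ContinuousOn.integrableOn_compact (isCompact_closedBall (0 : ℂ) c)
    fun_prop
  have hintl : IntegrableOn (fun z => ‖lapc f z‖ ^ 2) (Metric.closedBall (0 : ℂ) c) := by
    apply ContinuousOn.integrableOn_compact (isCompact_closedBall (0 : ℂ) c)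
    have : Continuous (lapc f) := (hfcc.lapc.smooth 0).continuous
    fun_prop
  have hI2 : ∫ z, ‖lapc f z‖ ^ 2 ≤
      3 * V * m' ^ 2 + 24 * B ^ 2 * (C1 * (m ^ 2 + m' ^ 2)) + 3 * V * B ^ 2 * m ^ 2 := by
    have e1 : ∫ z, ‖lapc f z‖ ^ 2 = ∫ z in Metric.closedBall (0 : ℂ) c, ‖lapc f z‖ ^ 2 := by
      symm
      apply setIntegral_eq_integral_of_forall_compl_eq_zero
      intro z hz
      rw [mem_closedBall_zero_iff, not_le] at hz
      rw [hl0 z hz]
      simp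
    rw [e1]
    have e2 : ∀ z ∈ Metric.closedBall (0 : ℂ) c, ‖lapc f z‖ ^ 2 ≤
        3 * (m' ^ 2 + 8 * B ^ 2 * (‖px U z‖ ^ 2 + ‖py U z‖ ^ 2) + B ^ 2 * m ^ 2) := by
      intro z hz
      rw [mem_closedBall_zero_iff] at hz
      have hzb : ‖z‖ ≤ b := hz.trans hcb.le
      have e3 : ‖lapc f z‖ ≤ m' + 2 * B * (‖px U z‖ + ‖py U z‖) + B * m := by
        rw [hf, Step_lapc_mul hη.smooth hU z]
        have t1 : ‖ctf a c z * lapc U z‖ ≤ m' := by
          rw [norm_mul]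
          calc ‖ctf a c z‖ * ‖lapc U z‖ ≤ 1 * m' := mul_le_mul (ctf_norm a c z) (hm' z hzb)
                (norm_nonneg _) zero_le_one
            _ = m' := one_mul _
        have t2 : ‖2 * (px (ctf a c) z * px U z + py (ctf a c) z * py U z)‖ ≤
            2 * B * (‖px U z‖ + ‖py U z‖) := by
          rw [norm_mul, Complex.norm_ofNat]
          have t3 : ‖px (ctf a c) z * px U z + py (ctf a c) z * py U z‖ ≤
              B * ‖px U z‖ + B * ‖py U z‖ := by
            refine (norm_add_le _ _).trans ?_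
            rw [norm_mul, norm_mul]
            exact add_le_add (mul_le_mul_of_nonneg_right (hBx z) (norm_nonneg _))
              (mul_le_mul_of_nonneg_right (hBy z) (norm_nonneg _))
          calc (2 : ℝ) * ‖px (ctf a c) z * px U z + py (ctf a c) z * py U z‖
              ≤ 2 * (B * ‖px U z‖ + B * ‖py U z‖) := by gcongr
            _ = _ := by ring
        have t4 : ‖lapc (ctf a c) z * U z‖ ≤ B * m := by
          rw [norm_mul]
          exact mul_le_mul (hBl z) (hm z hzb) (norm_nonneg _) (by linarith)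
        exact (norm_add₃_le).trans (add_le_add (add_le_add t1 t2) t4)
      have e5 : ‖lapc f z‖ ^ 2 ≤ (m' + 2 * B * (‖px U z‖ + ‖py U z‖) + B * m) ^ 2 :=
        pow_le_pow_left₀ (norm_nonneg _) e3 2
      exact e5.trans (Step_sq _ _ _ _ _)
    calc ∫ z in Metric.closedBall (0 : ℂ) c, ‖lapc f z‖ ^ 2
        ≤ ∫ z in Metric.closedBall (0 : ℂ) c,
          3 * (m' ^ 2 + 8 * B ^ 2 * (‖px U z‖ ^ 2 + ‖py U z‖ ^ 2) + B ^ 2 * m ^ 2) :=
          setIntegral_mono_on hintl hintg measurableSet_closedBall e2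
      _ = ∫ z in Metric.closedBall (0 : ℂ) c,
          ((3 * m' ^ 2 + 3 * B ^ 2 * m ^ 2) + 24 * B ^ 2 * (‖px U z‖ ^ 2 + ‖py U z‖ ^ 2)) := by
          congr 1
          funext z
          ring
      _ = V * (3 * m' ^ 2 + 3 * B ^ 2 * m ^ 2) +
          24 * B ^ 2 * ∫ z in Metric.closedBall (0 : ℂ) c, (‖px U z‖ ^ 2 + ‖py U z‖ ^ 2) := by
          have hi1 : Integrable (fun _ : ℂ => 3 * m' ^ 2 + 3 * B ^ 2 * m ^ 2)
              (volume.restrict (Metric.closedBall (0 : ℂ) c)) := integrableOn_const hfin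
          have hi2 : Integrable (fun z : ℂ => 24 * B ^ 2 * (‖px U z‖ ^ 2 + ‖py U z‖ ^ 2))
              (volume.restrict (Metric.closedBall (0 : ℂ) c)) := hintg2.const_mul _
          rw [integral_add hi1 hi2, integral_const_mul, setIntegral_const, smul_eq_mul]
      _ ≤ V * (3 * m' ^ 2 + 3 * B ^ 2 * m ^ 2) + 24 * B ^ 2 * (C1 * (m ^ 2 + m' ^ 2)) := by
          have := hcac U m m' hU hm hm'
          gcongr
      _ = _ := by ring
  have h2 : wn 0 f ^ 2 ≤ K * (m + m') ^ 2 :=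
    Step_arith hC2 hV0 hC1 hm0 hm'0 hI1 hI2 h1
  have h7 : wn 0 f ≤ √(K * (m + m') ^ 2) := Real.le_sqrt_of_sq_le h2
  rw [Real.sqrt_mul hK0.le, Real.sqrt_sq (by linarith)] at h7
  exact h7

/-- one step of the bootstrap: from `wn k` on a larger ball to `wn (k+1)` on a smaller one -/
theorem wn_step (k : ℕ) (a b d : ℝ) (ha : 0 < a) (hab : a < b) (hbd : b < d) : ∃ C : ℝ, 0 < C ∧
    ∀ U : ℂ → ℂ, (∀ n : ℕ, ContDiff ℝ n U) →
    wn (k + 1) (fun z => ctf a b z * U z) ≤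
      C * (wn k (fun z => ctf b d z * U z) + wn k (fun z => ctf a b z * lapc U z)) := by
  have hb : 0 < b := ha.trans hab
  have hη := ctf_cc a b
  have hA1 : CC (fun z => px (ctf a b) z * 2) := hη.px.mul (Step_sm_const 2)
  have hA2 : CC (fun z => py (ctf a b) z * 2) := hη.py.mul (Step_sm_const 2)
  have hA1z : ∀ w : ℂ, b < ‖w‖ → px (ctf a b) w * 2 = 0 := fun w hw => by
    rw [Step_px_zero (Step_ctf_zero a) w hw, zero_mul]
  have hA2z : ∀ w : ℂ, b < ‖w‖ → py (ctf a b) w * 2 = 0 := fun w hw => by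
    rw [Step_py_zero (Step_ctf_zero a) w hw, zero_mul]
  have n1 := wn_nonneg k (fun z => px (ctf a b) z * 2)
  have n2 := wn_nonneg k (fun z => py (ctf a b) z * 2)
  have n0 := wn_nonneg k (lapc (ctf a b))
  have n3 := wn_nonneg 0 (ctf a b)
  have h2k : (0 : ℝ) < 2 ^ (k + 1) := by positivity
  refine ⟨2 ^ (k + 1) * wn 0 (ctf a b) + wn k (lapc (ctf a b)) +
    wn k (fun z => px (ctf a b) z * 2) + wn k (fun z => py (ctf a b) z * 2) + 1,
    by positivity, fun U hU => ?_⟩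
  have hU' := Step_sm_lapc hU
  have hg0a : CC (fun z => ctf a b z * lapc U z) := hη.mul hU'
  have hg0b : CC (fun z => lapc (ctf a b) z * U z) := hη.lapc.mul hU
  have hg1 : CC (fun z => px (ctf a b) z * 2 * U z) := hA1.mul hU
  have hg2 : CC (fun z => py (ctf a b) z * 2 * U z) := hA2.mul hU
  have h1 := wn_div k (hη.mul hU) (hg0a.sub hg0b) hg1 hg2 (Step_lapc_div hη.smooth hU)
  have h2 := Step_wn_insert 0 hη hb hbd (Step_ctf_zero a) hU
  have h3 := Step_wn_insert k hη.lapc hb hbd (Step_lapc_zero (Step_ctf_zero a)) hU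
  have h4 := Step_wn_insert k hA1 hb hbd hA1z hU
  have h5 := Step_wn_insert k hA2 hb hbd hA2z hU
  have h6 := wn_sub k hg0a hg0b
  have h7 : wn 0 (fun z => ctf b d z * U z) ≤ wn k (fun z => ctf b d z * U z) :=
    wn_mono (Nat.zero_le k) ((ctf_cc b d).mul hU)
  set X := wn k (fun z => ctf b d z * U z) with hX
  set Y := wn k (fun z => ctf a b z * lapc U z) with hY
  have hX0 : 0 ≤ X := wn_nonneg _ _
  have hY0 : 0 ≤ Y := wn_nonneg _ _
  have h8 : wn 0 (fun z => ctf a b z * U z) ≤ wn 0 (ctf a b) * X :=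
    h2.trans (mul_le_mul_of_nonneg_left h7 n3)
  have h9 : 2 ^ (k + 1) * wn 0 (fun z => ctf a b z * U z) ≤ 2 ^ (k + 1) * (wn 0 (ctf a b) * X) :=
    mul_le_mul_of_nonneg_left h8 h2k.le
  have h10 : 0 ≤ (2 ^ (k + 1) * wn 0 (ctf a b) + wn k (lapc (ctf a b)) +
    wn k (fun z => px (ctf a b) z * 2) + wn k (fun z => py (ctf a b) z * 2)) * Y := by positivity
  calc wn (k + 1) (fun z => ctf a b z * U z)
      ≤ 2 ^ (k + 1) * (wn 0 (ctf a b) * X) + (Y + wn k (lapc (ctf a b)) * X) +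
        wn k (fun z => px (ctf a b) z * 2) * X + wn k (fun z => py (ctf a b) z * 2) * X := by
        refine h1.trans ?_
        linarith
    _ ≤ _ := by nlinarith

/-- last step: gain of two derivatives -/
theorem wn_step2 (k : ℕ) (a b d : ℝ) (ha : 0 < a) (hab : a < b) (hbd : b < d) : ∃ C : ℝ, 0 < C ∧
    ∀ U : ℂ → ℂ, (∀ n : ℕ, ContDiff ℝ n U) →
    wn (k + 2) (fun z => ctf a b z * U z) ≤
      C * (wn (k + 1) (fun z => ctf b d z * U z) + wn k (fun z => ctf a b z * lapc U z)) := by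
  have hb : 0 < b := ha.trans hab
  have hη := ctf_cc a b
  have hA1 : CC (fun z => px (ctf a b) z * 2) := hη.px.mul (Step_sm_const 2)
  have hA2 : CC (fun z => py (ctf a b) z * 2) := hη.py.mul (Step_sm_const 2)
  have hA1z : ∀ w : ℂ, b < ‖w‖ → px (ctf a b) w * 2 = 0 := fun w hw => by
    rw [Step_px_zero (Step_ctf_zero a) w hw, zero_mul]
  have hA2z : ∀ w : ℂ, b < ‖w‖ → py (ctf a b) w * 2 = 0 := fun w hw => by
    rw [Step_py_zero (Step_ctf_zero a) w hw, zero_mul]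
  have n1 := wn_nonneg (k + 1) (fun z => px (ctf a b) z * 2)
  have n2 := wn_nonneg (k + 1) (fun z => py (ctf a b) z * 2)
  have n0 := wn_nonneg k (lapc (ctf a b))
  have n3 := wn_nonneg k (ctf a b)
  have hpi : 0 < 2 * Real.pi := Real.two_pi_pos
  refine ⟨2 * wn k (ctf a b) + wn k (lapc (ctf a b)) +
    2 * Real.pi * wn (k + 1) (fun z => px (ctf a b) z * 2) +
    2 * Real.pi * wn (k + 1) (fun z => py (ctf a b) z * 2) + 1,
    by positivity, fun U hU => ?_⟩
  have hU' := Step_sm_lapc hU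
  have hg0a : CC (fun z => ctf a b z * lapc U z) := hη.mul hU'
  have hg0b : CC (fun z => lapc (ctf a b) z * U z) := hη.lapc.mul hU
  have hg1 : CC (fun z => px (ctf a b) z * 2 * U z) := hA1.mul hU
  have hg2 : CC (fun z => py (ctf a b) z * 2 * U z) := hA2.mul hU
  have h1 := wn_ell k (hη.mul hU)
  have h1' : wn k (lapc (fun z => ctf a b z * U z)) ≤
      (wn k (fun z => ctf a b z * lapc U z) + wn k (fun z => lapc (ctf a b) z * U z)) +
        wn k (px (fun z => px (ctf a b) z * 2 * U z)) +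
        wn k (py (fun z => py (ctf a b) z * 2 * U z)) := by
    have e1 : lapc (fun z => ctf a b z * U z) = fun z =>
        ((ctf a b z * lapc U z - lapc (ctf a b) z * U z) +
          px (fun z => px (ctf a b) z * 2 * U z) z) + py (fun z => py (ctf a b) z * 2 * U z) z := by
      funext z
      exact Step_lapc_div hη.smooth hU z
    rw [e1]
    refine (wn_add k ((hg0a.sub hg0b).add hg1.px) hg2.py).trans ?_
    apply add_le_add _ le_rfl
    refine (wn_add k (hg0a.sub hg0b) hg1.px).trans ?_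
    apply add_le_add _ le_rfl
    exact wn_sub k hg0a hg0b
  have h2 := Step_wn_insert k hη hb hbd (Step_ctf_zero a) hU
  have h3 := Step_wn_insert k hη.lapc hb hbd (Step_lapc_zero (Step_ctf_zero a)) hU
  have h4 := (wn_px k hg1).trans (mul_le_mul_of_nonneg_left
    (Step_wn_insert (k + 1) hA1 hb hbd hA1z hU) hpi.le)
  have h5 := (wn_py k hg2).trans (mul_le_mul_of_nonneg_left
    (Step_wn_insert (k + 1) hA2 hb hbd hA2z hU) hpi.le)
  have h7 : wn k (fun z => ctf b d z * U z) ≤ wn (k + 1) (fun z => ctf b d z * U z) :=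
    wn_mono (Nat.le_succ k) ((ctf_cc b d).mul hU)
  set X := wn (k + 1) (fun z => ctf b d z * U z) with hX
  set Y := wn k (fun z => ctf a b z * lapc U z) with hY
  have hX0 : 0 ≤ X := wn_nonneg _ _
  have hY0 : 0 ≤ Y := wn_nonneg _ _
  have h8 : wn k (fun z => ctf a b z * U z) ≤ wn k (ctf a b) * X :=
    h2.trans (mul_le_mul_of_nonneg_left h7 n3)
  have h9 : wn k (fun z => lapc (ctf a b) z * U z) ≤ wn k (lapc (ctf a b)) * X :=
    h3.trans (mul_le_mul_of_nonneg_left h7 n0)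
  have h10 : 0 ≤ (2 * wn k (ctf a b) + wn k (lapc (ctf a b)) +
    2 * Real.pi * wn (k + 1) (fun z => px (ctf a b) z * 2) +
    2 * Real.pi * wn (k + 1) (fun z => py (ctf a b) z * 2)) * Y := by positivity
  calc wn (k + 2) (fun z => ctf a b z * U z)
      ≤ 2 * (wn k (ctf a b) * X) + ((Y + wn k (lapc (ctf a b)) * X) +
        2 * Real.pi * (wn (k + 1) (fun z => px (ctf a b) z * 2) * X) +
        2 * Real.pi * (wn (k + 1) (fun z => py (ctf a b) z * 2) * X)) := by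
        refine h1.trans ?_
        linarith
    _ ≤ _ := by nlinarith

end Pool.Agent.BB4B37
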