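import Pool.Agent.W_bb4b37_h5.P.Cb

/-! # Pointwise comparison -/

set_option autoImplicit false

namespace Pool.Agent.BB4B37

open Complex Filter Topology Set MeasureTheory BoundedContinuousFunction
open scoped FourierTransform

/-- the pointwise comparison at an almost maximum point -/
theorem un_point (M : ℝ) : ∃ s₁ C : ℝ, 0 < s₁ ∧ 0 < C ∧ ∀ (φ₁ φ₂ : ℂ → ℝ) (z : ℂ) (d s η : ℝ),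
    0 < d → 0 ≤ s → s ≤ s₁ → 0 ≤ η → η ≤ 1 → ContDiffAt ℝ 2 φ₁ z → ContDiffAt ℝ 2 φ₂ z →
    |φ₁ z + Real.log d| ≤ M → |φ₂ z + Real.log d| ≤ M →
    ‖iteratedFDeriv ℝ 1 φ₁ z‖ * d ≤ M → ‖iteratedFDeriv ℝ 1 φ₂ z‖ * d ≤ M →
    ‖iteratedFDeriv ℝ 2 φ₁ z‖ * d ^ 2 ≤ M → ‖iteratedFDeriv ℝ 2 φ₂ z‖ * d ^ 2 ≤ M →
    Lc φ₁ z = 1 + s ^ 2 * (Lc φ₁ z ^ 2 - ‖Qc φ₁ z‖ ^ 2) →
    Lc φ₂ z = 1 + s ^ 2 * (Lc φ₂ z ^ 2 - ‖Qc φ₂ z‖ ^ 2) →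
    ‖fderiv ℝ (fun x => φ₁ x - φ₂ x) z‖ * d ≤ η →
    (∀ v : ℂ, iteratedFDeriv ℝ 2 (fun x => φ₁ x - φ₂ x) z ![v, v] * d ^ 2 ≤ η * ‖v‖ ^ 2) →
    φ₁ z - φ₂ z ≤ C * η := by
  sorry

end Pool.Agent.BB4B37
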