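import Pool.Agent.W_bb4b37_h5.P.Omori
import Pool.Agent.W_bb4b37_h5.P.UnP
import Pool.Agent.W_bb4b37_h5.P.Arz
import Pool.Agent.W_bb4b37_h5.P.LQ

/-! # Uniqueness and continuity -/

set_option autoImplicit false

namespace Pool.Agent.BB4B37

open Complex Filter Topology Set MeasureTheory BoundedContinuousFunction
open scoped FourierTransform

theorem UN_main (M : ℝ) : ∃ s₁ : ℝ, 0 < s₁ ∧ ∀ E : Set ℂ, IsClosed E → E.Nonempty →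
    (∀ z, Metric.infDist z E ≤ 1) → ∀ s : ℝ, 0 ≤ s → s ≤ s₁ → ∀ φ₁ φ₂ : ℂ → ℝ,
    Sol 2 s M E φ₁ → Sol 2 s M E φ₂ → ∀ z ∉ E, φ₁ z = φ₂ z := by
  sorry

/-- distances converge under Hausdorff convergence -/
theorem haus_dist (E : ℕ → Set ℂ) (F : Set ℂ) (hE : ∀ j, (E j).Nonempty) (hF : F.Nonempty)
    (h : HausTo E F) (ε : ℝ) (hε : 0 < ε) :
    ∀ᶠ j in atTop, ∀ z, |Metric.infDist z (E j) - Metric.infDist z F| ≤ ε := by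
  sorry

theorem CONT_main (M : ℝ) : ∃ s₁ : ℝ, 0 < s₁ ∧ ∀ (E : ℕ → Set ℂ) (F : Set ℂ),
    (∀ j, IsClosed (E j) ∧ (E j).Nonempty ∧ ∀ z, Metric.infDist z (E j) ≤ 1) →
    IsClosed F → F.Nonempty → (∀ z, Metric.infDist z F ≤ 1) →
    HausTo E F → ∀ s : ℝ, 0 ≤ s → s ≤ s₁ → ∀ (φ : ℕ → ℂ → ℝ) (ψ : ℂ → ℝ),
      (∀ j, Sol 3 s M (E j) (φ j)) → Sol 3 s M F ψ → ∀ z ∉ F,
        Tendsto (fun j => Lc (φ j) z) atTop (𝓝 (Lc ψ z)) ∧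
        Tendsto (fun j => Qc (φ j) z) atTop (𝓝 (Qc ψ z)) := by
  sorry

end Pool.Agent.BB4B37
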