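import Pool.Agent.W_bb4b37_h5.Defs

/-! # Definitions and closure properties of CC -/

set_option autoImplicit false

namespace Pool.Agent.BB4B37

open Complex Filter Topology Set MeasureTheory BoundedContinuousFunction
open scoped FourierTransform

/-- compactly supported smooth functions -/
structure CC (f : ℂ → ℂ) : Prop where
  smooth : ∀ n : ℕ, ContDiff ℝ n f
  supp : HasCompactSupport f

/-- `∫ (1+|ξ|)^k |f^(ξ)| dξ` -/
noncomputable def wn (k : ℕ) (f : ℂ → ℂ) : ℝ := ∫ ξ : ℂ, (1 + ‖ξ‖) ^ k * ‖𝓕 f ξ‖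

/-- Laplacian of complex valued functions -/
noncomputable def lapc (f : ℂ → ℂ) (z : ℂ) : ℂ := px (px f) z + py (py f) z

theorem CC.mul {f g : ℂ → ℂ} (hf : CC f) (hg : ∀ n : ℕ, ContDiff ℝ n g) :
    CC (fun z => f z * g z) :=
  ⟨fun n => (hf.smooth n).mul (hg n), hf.supp.mul_right⟩

theorem CC.add {f g : ℂ → ℂ} (hf : CC f) (hg : CC g) : CC (fun z => f z + g z) :=
  ⟨fun n => (hf.smooth n).add (hg.smooth n), hf.supp.add hg.supp⟩

theorem CC.sub {f g : ℂ → ℂ} (hf : CC f) (hg : CC g) : CC (fun z => f z - g z) := by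
  refine ⟨fun n => (hf.smooth n).sub (hg.smooth n), ?_⟩
  have h1 : HasCompactSupport (fun z => - g z) := hg.supp.comp_left (g := fun w => -w) neg_zero
  have h2 : HasCompactSupport (f + fun z => - g z) := hf.supp.add h1
  have h3 : (fun z => f z - g z) = f + fun z => - g z := by
    funext z
    exact sub_eq_add_neg _ _
  rw [h3]
  exact h2

theorem CC.conj {f : ℂ → ℂ} (hf : CC f) : CC (fun z => (starRingEnd ℂ) (f z)) :=
  ⟨fun n => Complex.conjCLE.contDiff.comp (hf.smooth n), hf.supp.comp_left (map_zero _)⟩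

private theorem W_dir {f : ℂ → ℂ} (hf : CC f) (v : ℂ) : CC (fun z => fderiv ℝ f z v) := by
  refine ⟨fun n => ?_, hf.supp.fderiv_apply ℝ v⟩
  have h1 : ContDiff ℝ n (fderiv ℝ f) :=
    (hf.smooth (n + 1)).fderiv_right (m := n) (by norm_cast)
  exact h1.clm_apply contDiff_const

theorem CC.px {f : ℂ → ℂ} (hf : CC f) : CC (px f) := W_dir hf 1

theorem CC.py {f : ℂ → ℂ} (hf : CC f) : CC (py f) := W_dir hf I

theorem CC.lapc {f : ℂ → ℂ} (hf : CC f) : CC (lapc f) := CC.add hf.px.px hf.py.py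

theorem CC.affine {f : ℂ → ℂ} (hf : CC f) (ρ : ℝ) (hρ : ρ ≠ 0) (c : ℂ) :
    CC (fun z => f (ρ * z + c)) := by
  have hρ' : (ρ : ℂ) ≠ 0 := by exact_mod_cast hρ
  refine ⟨fun n => (hf.smooth n).comp ((contDiff_const.mul contDiff_id).add contDiff_const), ?_⟩
  exact hf.supp.comp_homeomorph ((Homeomorph.mulLeft₀ (ρ : ℂ) hρ').trans (Homeomorph.addRight c))

theorem CC.exp {f : ℂ → ℂ} (hf : CC f) : CC (fun z => Complex.exp (f z) - 1) := by
  refine ⟨fun n => ((Complex.contDiff_exp (𝕜 := ℝ)).comp (hf.smooth n)).sub contDiff_const, ?_⟩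
  exact hf.supp.comp_left (g := fun w => Complex.exp w - 1) (by rw [Complex.exp_zero, sub_self])

end Pool.Agent.BB4B37
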