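import Pool.Agent.W_bb4b37_h5.P.W

/-! # Basic properties of the weighted Fourier norm -/

set_option autoImplicit false

namespace Pool.Agent.BB4B37

open Complex Filter Topology Set MeasureTheory BoundedContinuousFunction
open scoped FourierTransform

/-- the Schwartz function given by `f` -/
noncomputable def W1_S {f : ℂ → ℂ} (hf : CC f) : SchwartzMap ℂ ℂ :=
  hf.supp.toSchwartzMap (contDiff_infty.2 hf.smooth)

theorem W1_coe {f : ℂ → ℂ} (hf : CC f) (z : ℂ) : W1_S hf z = f z := rfl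

theorem W1_four {f : ℂ → ℂ} (hf : CC f) (ξ : ℂ) : 𝓕 (W1_S hf) ξ = 𝓕 f ξ := by
  rw [SchwartzMap.fourier_coe]
  rfl

theorem W1_int {f : ℂ → ℂ} (hf : CC f) : Integrable f := (W1_S hf).integrable

theorem wn_integrable {f : ℂ → ℂ} (hf : CC f) (k : ℕ) :
    Integrable (fun ξ : ℂ => (1 + ‖ξ‖) ^ k * ‖𝓕 f ξ‖) := by
  have h : (fun ξ : ℂ => (1 + ‖ξ‖) ^ k * ‖𝓕 f ξ‖) = fun ξ : ℂ =>
      ∑ m ∈ Finset.range (k + 1), (k.choose m : ℝ) * (‖ξ‖ ^ m * ‖𝓕 f ξ‖) := by
    funext ξ
    rw [add_comm (1 : ℝ), add_pow, Finset.sum_mul]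
    refine Finset.sum_congr rfl fun m _ => ?_
    rw [one_pow]
    ring
  rw [h]
  refine integrable_finsetSum _ fun m _ => ?_
  refine Integrable.const_mul ?_ _
  have h2 := SchwartzMap.integrable_pow_mul (μ := volume) (𝓕 (W1_S hf)) m
  simpa only [W1_four] using h2

theorem wn_nonneg (k : ℕ) (f : ℂ → ℂ) : 0 ≤ wn k f :=
  integral_nonneg fun ξ => by positivity

theorem wn_mono {k l : ℕ} (h : k ≤ l) {f : ℂ → ℂ} (hf : CC f) : wn k f ≤ wn l f := by
  refine integral_mono (wn_integrable hf k) (wn_integrable hf l) fun ξ => ?_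
  refine mul_le_mul_of_nonneg_right ?_ (norm_nonneg _)
  exact pow_le_pow_right₀ (by linarith [norm_nonneg ξ]) h

theorem W1_fint {f : ℂ → ℂ} (hf : CC f) : Integrable (𝓕 f) := by
  have h := (𝓕 (W1_S hf)).integrable (μ := volume)
  refine h.congr (Eventually.of_forall fun ξ => W1_four hf ξ)

theorem wn_sup {f : ℂ → ℂ} (hf : CC f) (z : ℂ) : ‖f z‖ ≤ wn 0 f := by
  have hc : Continuous f := (hf.smooth 0).continuous
  have h := hc.fourierInv_fourier_eq (W1_int hf) (W1_fint hf)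
  rw [← h, Real.fourierInv_eq]
  refine (norm_integral_le_integral_norm _).trans (le_of_eq ?_)
  rw [h]
  unfold wn
  refine integral_congr_ae (Eventually.of_forall fun ξ => ?_)
  simp only [pow_zero, one_mul, Circle.norm_smul]

theorem W1_add {f g : ℂ → ℂ} (hf : CC f) (hg : CC g) (ξ : ℂ) :
    𝓕 (fun z => f z + g z) ξ = 𝓕 f ξ + 𝓕 g ξ := by
  have h := VectorFourier.fourierIntegral_add (V := ℂ) (W := ℂ) (E := ℂ) (μ := volume)
    (e := Real.fourierChar) (L := innerₗ ℂ) Real.continuous_fourierChar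
    (by exact (continuous_inner : Continuous fun p : ℂ × ℂ => inner ℝ p.1 p.2))
    (W1_int hf) (W1_int hg)
  exact congrFun h ξ

theorem wn_add (k : ℕ) {f g : ℂ → ℂ} (hf : CC f) (hg : CC g) :
    wn k (fun z => f z + g z) ≤ wn k f + wn k g := by
  unfold wn
  rw [← integral_add (wn_integrable hf k) (wn_integrable hg k)]
  refine integral_mono (wn_integrable (hf.add hg) k)
    ((wn_integrable hf k).add (wn_integrable hg k)) fun ξ => ?_
  simp only [W1_add hf hg, Pi.add_apply]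
  rw [← mul_add]
  exact mul_le_mul_of_nonneg_left (norm_add_le _ _) (by positivity)

theorem W1_smul (c : ℂ) (f : ℂ → ℂ) (ξ : ℂ) : 𝓕 (fun z => c * f z) ξ = c * 𝓕 f ξ := by
  have h := VectorFourier.fourierIntegral_const_smul (V := ℂ) (W := ℂ) (E := ℂ)
    Real.fourierChar volume (innerₗ ℂ) f c
  exact congrFun h ξ

theorem wn_smul (k : ℕ) (c : ℂ) {f : ℂ → ℂ} (hf : CC f) :
    wn k (fun z => c * f z) = ‖c‖ * wn k f := by
  unfold wn
  rw [← integral_const_mul]
  refine integral_congr_ae (Eventually.of_forall fun ξ => ?_)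
  simp only [W1_smul, norm_mul]
  ring

theorem W1_cmul {f : ℂ → ℂ} (hf : CC f) (c : ℂ) : CC (fun z => c * f z) := by
  refine ⟨fun n => contDiff_const.mul (hf.smooth n), ?_⟩
  exact hf.supp.mul_left

theorem wn_sub (k : ℕ) {f g : ℂ → ℂ} (hf : CC f) (hg : CC g) :
    wn k (fun z => f z - g z) ≤ wn k f + wn k g := by
  have h1 := wn_add k hf (W1_cmul hg (-1))
  have h2 := wn_smul k (-1) hg
  rw [norm_neg, norm_one, one_mul] at h2
  rw [h2] at h1
  refine le_trans (le_of_eq ?_) h1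
  congr 1
  funext z
  ring

theorem W1_conj (f : ℂ → ℂ) (ξ : ℂ) :
    𝓕 (fun z => (starRingEnd ℂ) (f z)) ξ = (starRingEnd ℂ) (𝓕 f (-ξ)) := by
  rw [Real.fourier_eq, Real.fourier_eq, ← integral_conj]
  refine integral_congr_ae (Eventually.of_forall fun z => ?_)
  simp only [inner_neg_right, neg_neg, Circle.smul_def, smul_eq_mul, map_mul]
  congr 1
  rw [← Circle.coe_inv_eq_conj, ← AddChar.map_neg_eq_inv]

theorem wn_conj (k : ℕ) {f : ℂ → ℂ} (hf : CC f) :
    wn k (fun z => (starRingEnd ℂ) (f z)) = wn k f := by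
  unfold wn
  rw [← integral_neg_eq_self]
  refine integral_congr_ae (Eventually.of_forall fun ξ => ?_)
  simp only [W1_conj, norm_neg, neg_neg, RCLike.norm_conj]

end Pool.Agent.BB4B37
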