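import Pool.Agent.W_bb4b37_h5.P.Xe
import Pool.Agent.W_bb4b37_h5.P.W4
import Pool.Agent.W_bb4b37_h5.P.W5

/-! # Change of charts, products, exponentials -/

set_option autoImplicit false

namespace Pool.Agent.BB4B37

open Complex Filter Topology Set MeasureTheory BoundedContinuousFunction
open scoped FourierTransform

/-- change of charts: control on a larger ball -/
theorem xb_big (k : ℕ) (C : ℕ → ℝ) (θ : ℝ) (hθ : ThetaOK C θ) : ∃ D : ℝ, 0 < D ∧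
    ∀ φ : ℂ → ℝ, BG C φ → ∀ (f : ℂ → ℂ) (A : ℝ), (∀ n : ℕ, ContDiff ℝ n f) → XB k θ φ f A →
    ∀ z₀, wn k (cht θ φ z₀ (ctf 3 6) f) ≤ D * A := by
  sorry

/-- products -/
theorem xb_mul (k : ℕ) (C : ℕ → ℝ) (θ : ℝ) (hθ : ThetaOK C θ) : ∃ D : ℝ, 0 < D ∧
    ∀ φ : ℂ → ℝ, BG C φ → ∀ (f g : ℂ → ℂ) (A B : ℝ), (∀ n : ℕ, ContDiff ℝ n f) →
    (∀ n : ℕ, ContDiff ℝ n g) → XB k θ φ f A → XB k θ φ g B →
    XB k θ φ (fun z => f z * g z) (D * (A * B)) := by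
  sorry

/-- exponentials -/
theorem xb_exp (k : ℕ) (C : ℕ → ℝ) (θ : ℝ) (hθ : ThetaOK C θ) : ∃ D : ℝ, 0 < D ∧
    ∀ φ : ℂ → ℝ, BG C φ → ∀ (f : ℂ → ℂ) (A : ℝ), (∀ n : ℕ, ContDiff ℝ n f) → XB k θ φ f A →
    A ≤ 1 → XB k θ φ (fun z => Complex.exp (f z) - 1) (D * A) ∧
      XB k θ φ (fun z => Complex.exp (f z) - 1 - f z) (D * A ^ 2) := by
  sorry

end Pool.Agent.BB4B37
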