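import Pool.Agent.W_bb4b37_h5.P.Bg
import Pool.Agent.W_bb4b37_h5.P.W2
import Pool.Agent.W_bb4b37_h5.P.W3

/-! # Easy properties of the uniformly local norms -/

set_option autoImplicit false

namespace Pool.Agent.BB4B37

open Complex Filter Topology Set MeasureTheory BoundedContinuousFunction
open scoped FourierTransform

theorem xb_add (k : ℕ) (θ : ℝ) (φ : ℂ → ℝ) {f g : ℂ → ℂ} {A B : ℝ} (hf : ∀ n : ℕ, ContDiff ℝ n f)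
    (hg : ∀ n : ℕ, ContDiff ℝ n g) (h1 : XB k θ φ f A) (h2 : XB k θ φ g B) :
    XB k θ φ (fun z => f z + g z) (A + B) := by
  sorry

theorem xb_sub (k : ℕ) (θ : ℝ) (φ : ℂ → ℝ) {f g : ℂ → ℂ} {A B : ℝ} (hf : ∀ n : ℕ, ContDiff ℝ n f)
    (hg : ∀ n : ℕ, ContDiff ℝ n g) (h1 : XB k θ φ f A) (h2 : XB k θ φ g B) :
    XB k θ φ (fun z => f z - g z) (A + B) := by
  sorry

theorem xb_smul (k : ℕ) (θ : ℝ) (φ : ℂ → ℝ) (c : ℂ) {f : ℂ → ℂ} {A : ℝ}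
    (hf : ∀ n : ℕ, ContDiff ℝ n f) (h1 : XB k θ φ f A) :
    XB k θ φ (fun z => c * f z) (‖c‖ * A) := by
  sorry

theorem xb_conj (k : ℕ) (θ : ℝ) (φ : ℂ → ℝ) {f : ℂ → ℂ} {A : ℝ} (hf : ∀ n : ℕ, ContDiff ℝ n f)
    (h1 : XB k θ φ f A) : XB k θ φ (fun z => (starRingEnd ℂ) (f z)) A := by
  sorry

theorem xb_mono (k : ℕ) (θ : ℝ) (φ : ℂ → ℝ) {f : ℂ → ℂ} {A B : ℝ} (hAB : A ≤ B)
    (h1 : XB k θ φ f A) : XB k θ φ f B := fun z₀ => (h1 z₀).trans hAB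

theorem xb_index {k l : ℕ} (h : k ≤ l) (θ : ℝ) (φ : ℂ → ℝ) {f : ℂ → ℂ} {A : ℝ}
    (hf : ∀ n : ℕ, ContDiff ℝ n f) (h1 : XB l θ φ f A) : XB k θ φ f A := by
  sorry

/-- constants -/
theorem xb_const (k : ℕ) : ∃ D : ℝ, 0 < D ∧ ∀ (θ : ℝ) (φ : ℂ → ℝ) (c : ℂ),
    XB k θ φ (fun _ => c) (D * ‖c‖) := by
  sorry

end Pool.Agent.BB4B37
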